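import Mathlib

open scoped BigOperators

namespace Pool.Agent.H28.Shearer

variable {V : Type*} [DecidableEq V]

/-- trace of a family on a set -/
def trace (B : Finset (Finset V)) (S : Finset V) : Finset (Finset V) := B.image (fun H => H ∩ S)

lemma trace_mono {B B' : Finset (Finset V)} (h : B ⊆ B') (S : Finset V) :
    trace B S ⊆ trace B' S := Finset.image_subset_image h

/-- numerical core: weighted AM-GM -/
lemma amgm_core {ι : Type*} (I : Finset ι) (k : ℕ) (hk : 0 < k) (hI : I.card = k)
    (b : Fin 2 → ι → ℝ) (hb : ∀ j, ∀ i ∈ I, 0 ≤ b j i) (hsum : ∀ i ∈ I, b 0 i + b 1 i ≤ 1)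
    (z : Fin 2 → ℝ) (hz : ∀ j, 0 ≤ z j) (hzk : ∀ j, (z j) ^ k ≤ ∏ i ∈ I, b j i) :
    z 0 + z 1 ≤ 1 := by
  have hk' : (0 : ℝ) < k := by exact_mod_cast hk
  have h : ∀ j, z j ≤ ∑ i ∈ I, (1 / (k : ℝ)) * b j i := by
    intro j
    have h1 : z j = ((z j) ^ k) ^ (1 / (k : ℝ)) := by
      rw [← Real.rpow_natCast, ← Real.rpow_mul (hz j), mul_one_div_cancel hk'.ne', Real.rpow_one]
    have h2 : ((z j) ^ k) ^ (1 / (k : ℝ)) ≤ (∏ i ∈ I, b j i) ^ (1 / (k : ℝ)) :=
      Real.rpow_le_rpow (by have := hz j; positivity) (hzk j) (by positivity)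
    have h3 : (∏ i ∈ I, b j i) ^ (1 / (k : ℝ)) = ∏ i ∈ I, (b j i) ^ (1 / (k : ℝ)) :=
      (Real.finsetProd_rpow I (b j) (hb j) _).symm
    have h4 := Real.geom_mean_le_arith_mean_weighted I (fun _ => 1 / (k : ℝ)) (b j)
      (fun _ _ => by positivity) (by rw [Finset.sum_const, hI, nsmul_eq_mul]; field_simp) (hb j)
    rw [h1]
    exact h2.trans (h3.le.trans h4)
  calc z 0 + z 1 ≤ ∑ i ∈ I, (1 / (k : ℝ)) * b 0 i + ∑ i ∈ I, (1 / (k : ℝ)) * b 1 i :=
        add_le_add (h 0) (h 1)
    _ = ∑ i ∈ I, (1 / (k : ℝ)) * (b 0 i + b 1 i) := by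
        rw [← Finset.sum_add_distrib]
        exact Finset.sum_congr rfl fun i _ => by ring
    _ ≤ ∑ _i ∈ I, (1 / (k : ℝ)) * 1 := by
        refine Finset.sum_le_sum fun i hi => ?_
        exact mul_le_mul_of_nonneg_left (hsum i hi) (by positivity)
    _ = 1 := by rw [Finset.sum_const, hI, nsmul_eq_mul]; field_simp

/-- Shearer's lemma (combinatorial form). -/
theorem shearer {ι : Type*} [Fintype ι] (S : ι → Finset V) (k : ℕ) (hk : 0 < k)
    (U : Finset V) (hcov : ∀ v ∈ U, k ≤ (Finset.univ.filter fun i => v ∈ S i).card)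
    (B : Finset (Finset V)) (hB : ∀ H ∈ B, H ⊆ U) :
    (B.card) ^ k ≤ ∏ i, (trace B (S i)).card := by
  classical
  induction U using Finset.induction_on generalizing B with
  | empty =>
    by_cases hne : B = ∅
    · subst hne; simp [hk.ne']
    · have hB1 : B = {∅} := by
        apply Finset.eq_singleton_iff_nonempty_unique_mem.mpr
        refine ⟨Finset.nonempty_iff_ne_empty.mpr hne, fun H hH => Finset.subset_empty.mp (hB H hH)⟩
      rw [hB1]
      simp [trace]
  | insert v U hv ih =>
    have hcov' : ∀ w ∈ U, k ≤ (Finset.univ.filter fun i => w ∈ S i).card :=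
      fun w hw => hcov w (Finset.mem_insert_of_mem hw)
    -- split
    set B0 := B.filter (fun H => v ∉ H) with hB0
    set B1 := (B.filter (fun H => v ∈ H)).image (fun H => H.erase v) with hB1
    have hB0U : ∀ H ∈ B0, H ⊆ U := by
      intro H hH
      rw [hB0, Finset.mem_filter] at hH
      intro x hx
      rcases Finset.mem_insert.mp (hB H hH.1 hx) with h | h
      · subst h; exact absurd hx hH.2
      · exact h
    have hB1U : ∀ H ∈ B1, H ⊆ U := by
      intro H hH
      rw [hB1, Finset.mem_image] at hH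
      obtain ⟨H', hH', rfl⟩ := hH
      rw [Finset.mem_filter] at hH'
      intro x hx
      rw [Finset.mem_erase] at hx
      rcases Finset.mem_insert.mp (hB H' hH'.1 hx.2) with h | h
      · exact absurd h hx.1
      · exact h
    have hcard : B.card = B0.card + B1.card := by
      have h1 : B1.card = (B.filter (fun H => v ∈ H)).card := by
        rw [hB1]
        apply Finset.card_image_of_injOn
        intro H hH H' hH' heq
        simp only [Finset.coe_filter, Set.mem_ofPred_eq] at hH hH'
        have : insert v (H.erase v) = insert v (H'.erase v) := by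
          simp only at heq; rw [heq]
        rwa [Finset.insert_erase hH.2, Finset.insert_erase hH'.2] at this
      rw [h1, hB0, add_comm]
      exact (Finset.card_filter_add_card_filter_not (fun H => v ∈ H)).symm
    have ih0 := ih hcov' B0 hB0U
    have ih1 := ih hcov' B1 hB1U
    -- traces
    have htr_in : ∀ i, v ∈ S i →
        (trace B0 (S i)).card + (trace B1 (S i)).card ≤ (trace B (S i)).card := by
      intro i hi
      have hsub0 : trace B0 (S i) ⊆ (trace B (S i)).filter (fun H => v ∉ H) := by
        intro K hK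
        simp only [trace, Finset.mem_image] at hK
        obtain ⟨H, hH, rfl⟩ := hK
        rw [hB0, Finset.mem_filter] at hH
        rw [Finset.mem_filter]
        refine ⟨Finset.mem_image_of_mem _ hH.1, ?_⟩
        intro h
        exact hH.2 (Finset.mem_inter.mp h).1
      have hsub1 : (trace B1 (S i)).card ≤ ((trace B (S i)).filter (fun H => v ∈ H)).card := by
        have : trace B1 (S i) ⊆ ((trace B (S i)).filter (fun H => v ∈ H)).image
            (fun H => H.erase v) := by
          intro K hK
          simp only [trace, Finset.mem_image] at hK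
          obtain ⟨H, hH, rfl⟩ := hK
          rw [hB1, Finset.mem_image] at hH
          obtain ⟨H', hH', rfl⟩ := hH
          rw [Finset.mem_filter] at hH'
          rw [Finset.mem_image]
          refine ⟨H' ∩ S i, ?_, ?_⟩
          · rw [Finset.mem_filter]
            exact ⟨Finset.mem_image_of_mem _ hH'.1, Finset.mem_inter.mpr ⟨hH'.2, hi⟩⟩
          · ext x
            simp only [Finset.mem_erase, Finset.mem_inter]
            tauto
        exact (Finset.card_le_card this).trans Finset.card_image_le
      calc (trace B0 (S i)).card + (trace B1 (S i)).card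
          ≤ ((trace B (S i)).filter (fun H => v ∉ H)).card +
            ((trace B (S i)).filter (fun H => v ∈ H)).card :=
            add_le_add (Finset.card_le_card hsub0) hsub1
        _ = (trace B (S i)).card := by
            rw [add_comm]
            exact Finset.card_filter_add_card_filter_not (fun H => v ∈ H)
    have htr_out0 : ∀ i, (trace B0 (S i)).card ≤ (trace B (S i)).card := fun i =>
      Finset.card_le_card (trace_mono (Finset.filter_subset _ _) _)
    have htr_out1 : ∀ i, v ∉ S i → (trace B1 (S i)).card ≤ (trace B (S i)).card := by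
      intro i hi
      apply Finset.card_le_card
      intro K hK
      simp only [trace, Finset.mem_image] at hK
      obtain ⟨H, hH, rfl⟩ := hK
      rw [hB1, Finset.mem_image] at hH
      obtain ⟨H', hH', rfl⟩ := hH
      rw [Finset.mem_filter] at hH'
      refine Finset.mem_image.mpr ⟨H', hH'.1, ?_⟩
      ext x
      simp only [Finset.mem_erase, Finset.mem_inter]
      constructor
      · rintro ⟨h1, h2⟩
        exact ⟨⟨fun h => hi (h ▸ h2), h1⟩, h2⟩
      · rintro ⟨⟨_, h1⟩, h2⟩
        exact ⟨h1, h2⟩
    -- if `B` is empty we are done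
    by_cases hne : B.card = 0
    · rw [hne]; simp [hk.ne']
    have hBpos : 0 < B.card := Nat.pos_of_ne_zero hne
    have hApos : ∀ i, 0 < (trace B (S i)).card := by
      intro i
      obtain ⟨H, hH⟩ := Finset.card_pos.mp hBpos
      exact Finset.card_pos.mpr ⟨_, Finset.mem_image_of_mem _ hH⟩
    have hAprod : (0 : ℝ) < ∏ i, ((trace B (S i)).card : ℝ) :=
      Finset.prod_pos fun i _ => by exact_mod_cast hApos i
    -- choose `k` indices containing `v`
    obtain ⟨I, hIsub, hIcard⟩ := Finset.exists_subset_card_eq (hcov v (Finset.mem_insert_self _ _))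
    have hIv : ∀ i ∈ I, v ∈ S i := fun i hi => (Finset.mem_filter.mp (hIsub hi)).2
    have hk' : (0 : ℝ) < k := by exact_mod_cast hk
    obtain ⟨A, hA0, hApow⟩ : ∃ A : ℝ, 0 < A ∧ A ^ k = ∏ i, ((trace B (S i)).card : ℝ) := by
      refine ⟨(∏ i, ((trace B (S i)).card : ℝ)) ^ (1 / (k : ℝ)), Real.rpow_pos_of_pos hAprod _, ?_⟩
      rw [← Real.rpow_natCast, ← Real.rpow_mul hAprod.le, one_div_mul_cancel hk'.ne',
        Real.rpow_one]
    obtain ⟨Bj, hBj0, hBj1⟩ : ∃ Bj : Fin 2 → Finset (Finset V), Bj 0 = B0 ∧ Bj 1 = B1 :=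
      ⟨![B0, B1], rfl, rfl⟩
    obtain ⟨b, hb⟩ : ∃ b : Fin 2 → ι → ℝ,
      ∀ j i, b j i = ((trace (Bj j) (S i)).card : ℝ) / (trace B (S i)).card := ⟨_, fun _ _ => rfl⟩
    obtain ⟨z, hz⟩ : ∃ z : Fin 2 → ℝ, ∀ j, z j = ((Bj j).card : ℝ) / A := ⟨_, fun _ => rfl⟩
    have hb0 : ∀ j i, 0 ≤ b j i := fun j i => by rw [hb]; positivity
    have hb1 : ∀ j i, b j i ≤ 1 := by
      intro j i
      have hpos : (0 : ℝ) < (trace B (S i)).card := by exact_mod_cast hApos i
      rw [hb, div_le_one hpos]
      fin_cases j
      · simp only [Fin.zero_eta, hBj0]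
        exact_mod_cast htr_out0 i
      · simp only [Fin.mk_one, hBj1]
        by_cases hi : v ∈ S i
        · have := htr_in i hi
          have h2 : (trace B1 (S i)).card ≤ (trace B (S i)).card := by omega
          exact_mod_cast h2
        · exact_mod_cast htr_out1 i hi
    have hzk : ∀ j, (z j) ^ k ≤ ∏ i ∈ I, b j i := by
      intro j
      have h1 : (((Bj j).card : ℕ) : ℝ) ^ k ≤ ∏ i, ((trace (Bj j) (S i)).card : ℝ) := by
        fin_cases j
        · simp only [Fin.zero_eta, hBj0]
          exact_mod_cast ih0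
        · simp only [Fin.mk_one, hBj1]
          exact_mod_cast ih1
      calc (z j) ^ k = ((Bj j).card : ℝ) ^ k / ∏ i, ((trace B (S i)).card : ℝ) := by
            rw [hz, div_pow, hApow]
        _ ≤ (∏ i, ((trace (Bj j) (S i)).card : ℝ)) / ∏ i, ((trace B (S i)).card : ℝ) :=
            div_le_div_of_nonneg_right h1 hAprod.le
        _ = ∏ i, b j i := by
            rw [← Finset.prod_div_distrib]
            exact Finset.prod_congr rfl fun i _ => (hb j i).symm
        _ ≤ ∏ i ∈ I, b j i := by
            rw [← Finset.prod_mul_prod_compl I (fun i => b j i)]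
            have h2 : ∏ i ∈ Iᶜ, b j i ≤ 1 :=
              Finset.prod_le_one (fun i _ => hb0 j i) (fun i _ => hb1 j i)
            have h3 : 0 ≤ ∏ i ∈ I, b j i := Finset.prod_nonneg fun i _ => hb0 j i
            calc (∏ i ∈ I, b j i) * ∏ i ∈ Iᶜ, b j i ≤ (∏ i ∈ I, b j i) * 1 :=
                  mul_le_mul_of_nonneg_left h2 h3
              _ = _ := mul_one _
    have hsum : ∀ i ∈ I, b 0 i + b 1 i ≤ 1 := by
      intro i hi
      have hpos : (0 : ℝ) < (trace B (S i)).card := by exact_mod_cast hApos i
      rw [hb, hb, ← add_div, div_le_one hpos, hBj0, hBj1]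
      exact_mod_cast htr_in i (hIv i hi)
    have key := amgm_core I k hk hIcard b (fun j i _ => hb0 j i) hsum z
      (fun j => by rw [hz]; positivity) hzk
    have h5 : (B.card : ℝ) ≤ A := by
      rw [hz, hz, ← add_div, div_le_one hA0, hBj0, hBj1] at key
      have : ((B.card : ℕ) : ℝ) = (B0.card : ℝ) + (B1.card : ℝ) := by
        rw [hcard]; push_cast; ring
      rw [this]
      exact key
    have h6 : ((B.card : ℕ) : ℝ) ^ k ≤ ∏ i, ((trace B (S i)).card : ℝ) := by
      rw [← hApow]
      exact pow_le_pow_left₀ (by positivity) h5 k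
    exact_mod_cast h6

end Pool.Agent.H28.Shearer
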