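import Mathlib
import Pool.Agent.H28.Shearer

open scoped BigOperators

namespace Pool.Agent.H28.Insertion

open Pool.Agent.H28.Shearer

variable {V ι : Type*} [DecidableEq V] [Fintype ι]

/-- number of windows showing the pattern -/
def pat (T P : ι → Finset V) (H : Finset V) : ℕ := (Finset.univ.filter fun i => H ∩ T i = P i).card

/-- members of the family with at most `m` windows showing the pattern -/
def low (T P : ι → Finset V) (I : Finset (Finset V)) (m : ℕ) : Finset (Finset V) :=
  I.filter fun H => pat T P H ≤ m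

lemma low_subset (T P : ι → Finset V) (I : Finset (Finset V)) (m : ℕ) : low T P I m ⊆ I :=
  Finset.filter_subset _ _

/-- clearing a window and inserting the pattern creates few new patterns -/
lemma pat_insert (W T P : ι → Finset V) (M : ℕ)
    (hM : ∀ i, (Finset.univ.filter fun j => (T j ∩ W i).Nonempty).card ≤ M)
    (hPW : ∀ i, P i ⊆ W i) (H : Finset V) (i : ι) :
    pat T P ((H \ W i) ∪ P i) ≤ pat T P H + M := by
  classical
  unfold pat
  refine le_trans (Finset.card_le_card (t := (Finset.univ.filter fun j => H ∩ T j = P j) ∪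
    (Finset.univ.filter fun j => (T j ∩ W i).Nonempty)) ?_) ?_
  · intro j hj
    rw [Finset.mem_filter] at hj
    rw [Finset.mem_union, Finset.mem_filter, Finset.mem_filter]
    by_cases hne : (T j ∩ W i).Nonempty
    · exact Or.inr ⟨Finset.mem_univ _, hne⟩
    · left
      refine ⟨Finset.mem_univ _, ?_⟩
      rw [← hj.2]
      rw [Finset.not_nonempty_iff_eq_empty] at hne
      have hd : ∀ x ∈ T j, x ∉ W i := by
        intro x hx hxW
        have : x ∈ T j ∩ W i := Finset.mem_inter.mpr ⟨hx, hxW⟩
        rw [hne] at this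
        simp at this
      ext x
      simp only [Finset.mem_inter, Finset.mem_union, Finset.mem_sdiff]
      constructor
      · rintro ⟨hxH, hxT⟩
        exact ⟨Or.inl ⟨hxH, hd x hxT⟩, hxT⟩
      · rintro ⟨h | h, hxT⟩
        · exact ⟨h.1, hxT⟩
        · exact absurd (hPW i h) (hd x hxT)
  · refine (Finset.card_union_le _ _).trans (Nat.add_le_add_left (hM i) _)

/-- double counting -/
lemma sum_trace_le (W T P : ι → Finset V) (Base : Finset V) (I : Finset (Finset V)) (M : ℕ)
    (hM : ∀ i, (Finset.univ.filter fun j => (T j ∩ W i).Nonempty).card ≤ M)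
    (hPT : ∀ i, P i ⊆ T i) (hTW : ∀ i, T i ⊆ W i)
    (hI : ∀ H ∈ I, H ⊆ Base)
    (hins : ∀ H ∈ I, ∀ i, (H \ W i) ∪ P i ∈ I) (j : ℕ) :
    ∑ i, (trace (low T P I (j * M)) (Base \ W i)).card ≤
      (j + 1) * M * (low T P I ((j + 1) * M)).card := by
  classical
  have hPW : ∀ i, P i ⊆ W i := fun i => (hPT i).trans (hTW i)
  calc ∑ i, (trace (low T P I (j * M)) (Base \ W i)).card
      ≤ ∑ i, ((low T P I ((j + 1) * M)).filter fun H => H ∩ T i = P i).card := by
        refine Finset.sum_le_sum fun i _ => ?_
        refine Finset.card_le_card_of_injOn (fun X => X ∪ P i) ?_ ?_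
        · intro X hX
          rw [Finset.mem_coe, trace, Finset.mem_image] at hX
          obtain ⟨H, hH, rfl⟩ := hX
          rw [low, Finset.mem_filter] at hH
          have hsub := hI H hH.1
          have e : H ∩ (Base \ W i) = H \ W i := by
            ext x
            simp only [Finset.mem_inter, Finset.mem_sdiff]
            constructor
            · rintro ⟨h1, _, h3⟩; exact ⟨h1, h3⟩
            · rintro ⟨h1, h3⟩; exact ⟨h1, hsub h1, h3⟩
          simp only [e]
          rw [Finset.mem_coe, Finset.mem_filter, low, Finset.mem_filter]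
          refine ⟨⟨hins H hH.1 i, ?_⟩, ?_⟩
          · refine (pat_insert W T P M hM hPW H i).trans ?_
            calc pat T P H + M ≤ j * M + M := Nat.add_le_add_right hH.2 _
              _ = (j + 1) * M := by ring
          · ext x
            simp only [Finset.mem_inter, Finset.mem_union, Finset.mem_sdiff]
            constructor
            · rintro ⟨h | h, hxT⟩
              · exact absurd (hTW i hxT) h.2
              · exact h
            · intro h
              exact ⟨Or.inr h, hPT i h⟩
        · intro X hX Y hY hXY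
          rw [Finset.mem_coe, trace, Finset.mem_image] at hX hY
          obtain ⟨H, _, rfl⟩ := hX
          obtain ⟨H', _, rfl⟩ := hY
          have key : ∀ Z : Finset V, (Z ∩ (Base \ W i) ∪ P i) \ W i = Z ∩ (Base \ W i) := by
            intro Z
            ext x
            simp only [Finset.mem_inter, Finset.mem_union, Finset.mem_sdiff]
            constructor
            · rintro ⟨h | h, hx⟩
              · exact h
              · exact absurd (hPW i h) hx
            · rintro h
              exact ⟨Or.inl h, h.2.2⟩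
          rw [← key H, ← key H']
          simp only at hXY
          rw [hXY]
    _ = ∑ H ∈ low T P I ((j + 1) * M), pat T P H := by
        simp only [pat, Finset.card_filter]
        rw [Finset.sum_comm]
    _ ≤ ∑ _H ∈ low T P I ((j + 1) * M), (j + 1) * M := by
        refine Finset.sum_le_sum fun H hH => ?_
        rw [low, Finset.mem_filter] at hH
        exact hH.2
    _ = _ := by rw [Finset.sum_const, smul_eq_mul]; ring

/-- one step: the family with few patterns is much smaller than the next one -/
lemma step_pow (W T P : ι → Finset V) (Base : Finset V) (I : Finset (Finset V)) (M k : ℕ) (hk : 0 < k)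
    (hM : ∀ i, (Finset.univ.filter fun j => (T j ∩ W i).Nonempty).card ≤ M)
    (hPT : ∀ i, P i ⊆ T i) (hTW : ∀ i, T i ⊆ W i)
    (hI : ∀ H ∈ I, H ⊆ Base)
    (hins : ∀ H ∈ I, ∀ i, (H \ W i) ∪ P i ∈ I)
    (hcov : ∀ v ∈ Base, k ≤ (Finset.univ.filter fun i => v ∈ Base \ W i).card)
    [Nonempty ι] (j : ℕ) :
    ((low T P I (j * M)).card : ℝ) ^ ((k : ℝ) / Fintype.card ι) ≤
      (j + 1) * M * (low T P I ((j + 1) * M)).card / Fintype.card ι := by
  classical
  have hsh := shearer (fun i => Base \ W i) k hk Base hcov (low T P I (j * M))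
    (fun H hH => hI H (low_subset _ _ _ _ hH))
  have hsum := sum_trace_le W T P Base I M hM hPT hTW hI hins j
  have hc : (0 : ℝ) < Fintype.card ι := by exact_mod_cast Fintype.card_pos
  set a : ι → ℝ := fun i => ((trace (low T P I (j * M)) (Base \ W i)).card : ℝ) with ha
  have ha0 : ∀ i, 0 ≤ a i := fun i => Nat.cast_nonneg _
  have h1 : ((low T P I (j * M)).card : ℝ) ^ k ≤ ∏ i, a i := by
    have : (((low T P I (j * M)).card ^ k : ℕ) : ℝ) ≤
        ((∏ i, (trace (low T P I (j * M)) (Base \ W i)).card : ℕ) : ℝ) := by exact_mod_cast hsh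
    push_cast at this
    exact this
  have h2 : (∑ i, a i) ≤ (j + 1) * M * (low T P I ((j + 1) * M)).card := by
    have : ((∑ i, (trace (low T P I (j * M)) (Base \ W i)).card : ℕ) : ℝ) ≤
      (((j + 1) * M * (low T P I ((j + 1) * M)).card : ℕ) : ℝ) := by exact_mod_cast hsum
    push_cast at this
    exact this
  have h3 := Real.geom_mean_le_arith_mean_weighted (Finset.univ : Finset ι)
    (fun _ => 1 / (Fintype.card ι : ℝ)) a (fun _ _ => by positivity)
    (by rw [Finset.sum_const, nsmul_eq_mul, Finset.card_univ]; field_simp) (fun i _ => ha0 i)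
  have h4 : ((low T P I (j * M)).card : ℝ) ^ ((k : ℝ) / Fintype.card ι) =
      (((low T P I (j * M)).card : ℝ) ^ k) ^ (1 / (Fintype.card ι : ℝ)) := by
    rw [← Real.rpow_natCast, ← Real.rpow_mul (Nat.cast_nonneg _)]
    congr 1
    ring
  rw [h4]
  calc (((low T P I (j * M)).card : ℝ) ^ k) ^ (1 / (Fintype.card ι : ℝ))
      ≤ (∏ i, a i) ^ (1 / (Fintype.card ι : ℝ)) :=
        Real.rpow_le_rpow (by positivity) h1 (by positivity)
    _ = ∏ i, (a i) ^ (1 / (Fintype.card ι : ℝ)) :=
        (Real.finsetProd_rpow _ a (fun i _ => ha0 i) _).symm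
    _ ≤ ∑ i, 1 / (Fintype.card ι : ℝ) * a i := h3
    _ = (∑ i, a i) / Fintype.card ι := by rw [← Finset.mul_sum]; ring
    _ ≤ _ := div_le_div_of_nonneg_right h2 hc.le

/-- the conclusion of the insertion argument -/
theorem low_le (W T P : ι → Finset V) (Base : Finset V) (I : Finset (Finset V)) (M k : ℕ) (hk : 0 < k)
    (hM : ∀ i, (Finset.univ.filter fun j => (T j ∩ W i).Nonempty).card ≤ M)
    (hPT : ∀ i, P i ⊆ T i) (hTW : ∀ i, T i ⊆ W i)
    (hI : ∀ H ∈ I, H ⊆ Base)
    (hins : ∀ H ∈ I, ∀ i, (H \ W i) ∪ P i ∈ I)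
    (hcov : ∀ v ∈ Base, k ≤ (Finset.univ.filter fun i => v ∈ Base \ W i).card)
    (hkι : k ≤ Fintype.card ι)
    [Nonempty ι] (μ : ℝ) (hμ : (M : ℝ) / Fintype.card ι *
      (I.card : ℝ) ^ (1 - (k : ℝ) / Fintype.card ι) ≤ μ) (J : ℕ) :
    ((low T P I 0).card : ℝ) ≤ (J * μ) ^ J * I.card := by
  classical
  have hc : (0 : ℝ) < Fintype.card ι := by exact_mod_cast Fintype.card_pos
  have hμ0 : 0 ≤ μ := le_trans (by positivity) hμ
  set ω : ℝ := 1 - (k : ℝ) / Fintype.card ι with hω
  have hω0 : 0 ≤ ω := by
    rw [hω, sub_nonneg, div_le_one hc]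
    exact_mod_cast hkι
  have hω1 : ω < 1 := by
    rw [hω]
    have : 0 < (k : ℝ) / Fintype.card ι := by
      have : (0 : ℝ) < k := by exact_mod_cast hk
      positivity
    linarith
  have hstep : ∀ j : ℕ, ((low T P I (j * M)).card : ℝ) ≤
      (j + 1) * μ * (low T P I ((j + 1) * M)).card := by
    intro j
    set b : ℝ := ((low T P I (j * M)).card : ℝ) with hb
    have hb0 : 0 ≤ b := Nat.cast_nonneg _
    have hbI : b ≤ I.card := by
      rw [hb]; exact_mod_cast Finset.card_le_card (low_subset _ _ _ _)
    have h1 := step_pow W T P Base I M k hk hM hPT hTW hI hins hcov j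
    rw [← hb] at h1
    have h2 : b = b ^ ((k : ℝ) / Fintype.card ι) * b ^ ω := by
      rcases hb0.eq_or_lt with h0 | hpos
      · rw [← h0]
        have : (0 : ℝ) < (k : ℝ) / Fintype.card ι := by
          have : (0 : ℝ) < k := by exact_mod_cast hk
          positivity
        rw [Real.zero_rpow this.ne', zero_mul]
      · rw [← Real.rpow_add hpos]
        have : (k : ℝ) / Fintype.card ι + ω = 1 := by rw [hω]; ring
        rw [this, Real.rpow_one]
    have h3 : b ^ ω ≤ (I.card : ℝ) ^ ω := Real.rpow_le_rpow hb0 hbI hω0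
    calc b = b ^ ((k : ℝ) / Fintype.card ι) * b ^ ω := h2
      _ ≤ ((j + 1) * M * (low T P I ((j + 1) * M)).card / Fintype.card ι) * (I.card : ℝ) ^ ω :=
          mul_le_mul h1 h3 (Real.rpow_nonneg hb0 _)
            (div_nonneg (mul_nonneg (by positivity) (Nat.cast_nonneg _)) hc.le)
      _ = (j + 1) * ((M : ℝ) / Fintype.card ι * (I.card : ℝ) ^ ω) *
            (low T P I ((j + 1) * M)).card := by ring
      _ ≤ _ := by
          apply mul_le_mul_of_nonneg_right _ (Nat.cast_nonneg _)
          exact mul_le_mul_of_nonneg_left hμ (by positivity)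
  have hind : ∀ j : ℕ, j ≤ J → ((low T P I 0).card : ℝ) ≤ (J * μ) ^ j * (low T P I (j * M)).card := by
    intro j
    induction j with
    | zero => intro _; rw [pow_zero, one_mul, Nat.zero_mul]
    | succ j ih =>
      intro hj
      have h1 := ih (by omega)
      have h2 := hstep j
      have hjJ : ((j : ℝ) + 1) ≤ J := by exact_mod_cast hj
      calc ((low T P I 0).card : ℝ) ≤ (J * μ) ^ j * (low T P I (j * M)).card := h1
        _ ≤ (J * μ) ^ j * ((j + 1) * μ * (low T P I ((j + 1) * M)).card) :=
            mul_le_mul_of_nonneg_left h2 (by positivity)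
        _ ≤ (J * μ) ^ j * (J * μ * (low T P I ((j + 1) * M)).card) := by
            apply mul_le_mul_of_nonneg_left _ (by positivity)
            apply mul_le_mul_of_nonneg_right _ (Nat.cast_nonneg _)
            exact mul_le_mul_of_nonneg_right hjJ hμ0
        _ = (J * μ) ^ (j + 1) * (low T P I ((j + 1) * M)).card := by ring
  refine (hind J le_rfl).trans ?_
  apply mul_le_mul_of_nonneg_left _ (by positivity)
  exact_mod_cast Finset.card_le_card (low_subset _ _ _ _)

end Pool.Agent.H28.Insertion
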