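import Mathlib

open scoped BigOperators

namespace Pool.Agent.H28.KW

variable {V : Type*} [DecidableEq V]

/-- independent sets of a relation -/
def Indep (adj : V → V → Prop) (I : Finset V) : Prop := ∀ a ∈ I, ∀ b ∈ I, ¬ adj a b

open Classical in
/-- Kleitman–Winston counting lemma: if every subset of `Base` with more than `R` elements
spans a vertex adjacent to at least a proportion `β` of it, there are few independent sets. -/
theorem count_indep (adj : V → V → Prop) (hirr : ∀ a, ¬ adj a a)
    (Base : Finset V) (R : ℕ) (β : ℝ) (hβ0 : 0 < β) (hβ1 : β ≤ 1)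
    (hdeg : ∀ U ⊆ Base, R < U.card → ∃ v ∈ U, β * U.card ≤ (U.filter fun u => adj v u).card) :
    ∀ (m : ℕ) (U : Finset V), U.card = m → U ⊆ Base → ∀ q : ℕ, (1 - β) ^ q * U.card ≤ R →
      (U.powerset.filter fun I => Indep adj I).card ≤
        (∑ j ∈ Finset.range (q + 1), m.choose j) * 2 ^ R := by
  intro m
  induction m using Nat.strong_induction_on with
  | _ m ih =>
  intro U hUm hUB q hq
  by_cases hR : U.card ≤ R
  · calc (U.powerset.filter fun I => Indep adj I).card ≤ U.powerset.card :=
          Finset.card_filter_le _ _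
      _ = 2 ^ U.card := Finset.card_powerset U
      _ ≤ 2 ^ R := Nat.pow_le_pow_right (by norm_num) hR
      _ = 1 * 2 ^ R := (one_mul _).symm
      _ ≤ (∑ j ∈ Finset.range (q + 1), m.choose j) * 2 ^ R := by
          apply Nat.mul_le_mul_right
          calc 1 = m.choose 0 := (Nat.choose_zero_right m).symm
            _ ≤ _ := Finset.single_le_sum (f := fun j => m.choose j) (fun _ _ => Nat.zero_le _)
                (Finset.mem_range.mpr (Nat.succ_pos q))
  · push Not at hR
    have hq0 : q ≠ 0 := by
      rintro rfl
      rw [pow_zero, one_mul] at hq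
      have : (U.card : ℝ) ≤ R := hq
      have h2 : U.card ≤ R := by exact_mod_cast this
      omega
    obtain ⟨p, rfl⟩ : ∃ p, q = p + 1 := ⟨q - 1, by omega⟩
    obtain ⟨v, hv, hdv⟩ := hdeg U hUB hR
    set N := U.filter (fun u => adj v u) with hN
    set U1 := U.erase v with hU1
    set U2 := U1 \ N with hU2
    have hU1c : U1.card = m - 1 := by rw [hU1, Finset.card_erase_of_mem hv, hUm]
    have hmpos : 0 < m := by rw [← hUm]; exact Finset.card_pos.mpr ⟨v, hv⟩
    have h1β : 0 ≤ 1 - β := by linarith
    have hvN : v ∉ N := by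
      rw [hN, Finset.mem_filter]
      rintro ⟨_, h⟩
      exact hirr v h
    have hNU1 : N ⊆ U1 := by
      intro x hx
      rw [hU1, Finset.mem_erase]
      refine ⟨?_, (Finset.mem_filter.mp hx).1⟩
      rintro rfl
      exact hvN hx
    have hU2c : U2.card + N.card + 1 = m := by
      have := Finset.card_sdiff_add_card_eq_card hNU1
      rw [← hU2] at this
      omega
    have hU2m : U2.card < m := by omega
    -- recursion
    have hsplit : (U.powerset.filter fun I => Indep adj I).card ≤
        (U1.powerset.filter fun I => Indep adj I).card +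
          (U2.powerset.filter fun I => Indep adj I).card := by
      have hsub : (U.powerset.filter fun I => Indep adj I) ⊆
          (U1.powerset.filter fun I => Indep adj I) ∪
            (U2.powerset.filter fun I => Indep adj I).image (fun I => insert v I) := by
        intro I hI
        rw [Finset.mem_filter, Finset.mem_powerset] at hI
        rw [Finset.mem_union]
        by_cases hvI : v ∈ I
        · right
          rw [Finset.mem_image]
          refine ⟨I.erase v, ?_, Finset.insert_erase hvI⟩
          rw [Finset.mem_filter, Finset.mem_powerset]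
          refine ⟨?_, fun a ha b hb => hI.2 a (Finset.mem_of_mem_erase ha) b
            (Finset.mem_of_mem_erase hb)⟩
          intro x hx
          rw [Finset.mem_erase] at hx
          rw [hU2, Finset.mem_sdiff, hU1, Finset.mem_erase]
          refine ⟨⟨hx.1, hI.1 hx.2⟩, ?_⟩
          rw [hN, Finset.mem_filter]
          rintro ⟨_, h⟩
          exact hI.2 v hvI x hx.2 h
        · left
          rw [Finset.mem_filter, Finset.mem_powerset]
          refine ⟨?_, hI.2⟩
          intro x hx
          rw [hU1, Finset.mem_erase]
          exact ⟨fun h => hvI (h ▸ hx), hI.1 hx⟩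
      calc _ ≤ _ := Finset.card_le_card hsub
        _ ≤ _ := Finset.card_union_le _ _
        _ ≤ _ := Nat.add_le_add_left Finset.card_image_le _
    have hih1 := ih (m - 1) (by omega) U1 hU1c
      ((Finset.erase_subset _ _).trans hUB) (p + 1) (by
        refine le_trans ?_ hq
        apply mul_le_mul_of_nonneg_left _ (pow_nonneg h1β _)
        have : U1.card ≤ U.card := Finset.card_le_card (Finset.erase_subset _ _)
        exact_mod_cast this)
    have hih2 := ih U2.card hU2m U2 rfl
      ((Finset.sdiff_subset.trans (Finset.erase_subset _ _)).trans hUB) p (by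
        have h1 : (U2.card : ℝ) ≤ (1 - β) * U.card := by
          have h2 : (U2.card : ℝ) + N.card + 1 = U.card := by rw [hUm]; exact_mod_cast hU2c
          linarith
        calc (1 - β) ^ p * (U2.card : ℝ) ≤ (1 - β) ^ p * ((1 - β) * U.card) :=
              mul_le_mul_of_nonneg_left h1 (pow_nonneg h1β _)
          _ = (1 - β) ^ (p + 1) * U.card := by ring
          _ ≤ R := hq)
    have hmono : ∑ j ∈ Finset.range (p + 1), (U2.card).choose j ≤
        ∑ j ∈ Finset.range (p + 1), (m - 1).choose j :=
      Finset.sum_le_sum fun j _ => Nat.choose_le_choose j (by omega)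
    have hpascal : ∑ j ∈ Finset.range (p + 1 + 1), m.choose j =
        ∑ j ∈ Finset.range (p + 1 + 1), (m - 1).choose j +
          ∑ j ∈ Finset.range (p + 1), (m - 1).choose j := by
      obtain ⟨m', rfl⟩ : ∃ m', m = m' + 1 := ⟨m - 1, by omega⟩
      simp only [Nat.add_sub_cancel]
      rw [Finset.sum_range_succ' (fun j => (m' + 1).choose j), Finset.sum_range_succ'
        (fun j => m'.choose j)]
      simp only [Nat.choose_succ_succ, Finset.sum_add_distrib, Nat.choose_zero_right]
      ring
    calc (U.powerset.filter fun I => Indep adj I).card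
        ≤ _ := hsplit
      _ ≤ (∑ j ∈ Finset.range (p + 1 + 1), (m - 1).choose j) * 2 ^ R +
          (∑ j ∈ Finset.range (p + 1), (m - 1).choose j) * 2 ^ R :=
          add_le_add hih1 (hih2.trans (Nat.mul_le_mul_right _ hmono))
      _ = _ := by rw [hpascal]; ring

/-- partial sums of binomial coefficients -/
lemma sum_choose_le (N q : ℕ) (hq : 1 ≤ q) (hqN : q ≤ N) :
    ((∑ j ∈ Finset.range (q + 1), N.choose j : ℕ) : ℝ) ≤ (Real.exp 1 * N / q) ^ q := by
  have hq0 : (0 : ℝ) < q := by exact_mod_cast hq
  have hN0 : (0 : ℝ) < N := by exact_mod_cast (lt_of_lt_of_le hq hqN)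
  have ht0 : (0 : ℝ) < q / N := by positivity
  have ht1 : (q : ℝ) / N ≤ 1 := by rw [div_le_one hN0]; exact_mod_cast hqN
  have h1 : ((∑ j ∈ Finset.range (q + 1), N.choose j : ℕ) : ℝ) * ((q : ℝ) / N) ^ q ≤
      (1 + (q : ℝ) / N) ^ N := by
    have e : (1 + (q : ℝ) / N) ^ N = ∑ j ∈ Finset.range (N + 1), ((q : ℝ) / N) ^ j * N.choose j := by
      rw [add_comm, add_pow]
      simp
    rw [e]
    push_cast
    rw [Finset.sum_mul]
    calc ∑ j ∈ Finset.range (q + 1), (N.choose j : ℝ) * ((q : ℝ) / N) ^ q
        ≤ ∑ j ∈ Finset.range (q + 1), ((q : ℝ) / N) ^ j * N.choose j := by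
          refine Finset.sum_le_sum fun j hj => ?_
          rw [mul_comm]
          apply mul_le_mul_of_nonneg_right _ (Nat.cast_nonneg _)
          exact pow_le_pow_of_le_one ht0.le ht1 (by
            have := Finset.mem_range.mp hj; omega)
      _ ≤ _ := by
          apply Finset.sum_le_sum_of_subset_of_nonneg (Finset.range_mono (by omega))
          intro j _ _
          positivity
  have h2 : (1 + (q : ℝ) / N) ^ N ≤ Real.exp q := by
    calc (1 + (q : ℝ) / N) ^ N ≤ (Real.exp (q / N)) ^ N := by
          apply pow_le_pow_left₀ (by positivity)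
          have := Real.add_one_le_exp ((q : ℝ) / N)
          linarith
      _ = Real.exp q := by
          rw [← Real.exp_nat_mul]; congr 1; field_simp
  have h3 : (Real.exp 1 * N / q) ^ q * ((q : ℝ) / N) ^ q = Real.exp q := by
    rw [← mul_pow]
    have : Real.exp 1 * N / q * (q / N) = Real.exp 1 := by field_simp
    rw [this, ← Real.exp_nat_mul, mul_one]
  have h4 : 0 < ((q : ℝ) / N) ^ q := by positivity
  have h5 := h1.trans h2
  rw [← h3] at h5
  exact le_of_mul_le_mul_right h5 h4

end Pool.Agent.H28.KW
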