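import Mathlib
import Pool.Agent.H28.KW
import Pool.Agent.H28.Shearer

open scoped BigOperators

namespace Pool.Agent.H28.Johnson

/-- the `r`-subsets of `Fin n` -/
def Base (n r : ℕ) : Finset (Finset (Fin n)) := (Finset.univ : Finset (Fin n)).powersetCard r

lemma mem_Base {n r : ℕ} {S : Finset (Fin n)} : S ∈ Base n r ↔ S.card = r := by
  simp [Base, Finset.mem_powersetCard]

lemma card_Base (n r : ℕ) : (Base n r).card = n.choose r := by simp [Base]

/-- adjacency in the Johnson graph (for sets with `r` elements) -/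
def adj {n : ℕ} (r : ℕ) (S T : Finset (Fin n)) : Prop := S ≠ T ∧ r ≤ (S ∩ T).card + 1

lemma adj_irrefl {n r : ℕ} (S : Finset (Fin n)) : ¬ adj r S S := fun h => h.1 rfl

lemma adj_symm {n r : ℕ} {S T : Finset (Fin n)} (h : adj r S T) : adj r T S :=
  ⟨h.1.symm, by rw [Finset.inter_comm]; exact h.2⟩

open Classical in
lemma supersat {n r : ℕ} (hr : 1 ≤ r) (hrn : r ≤ n) (U : Finset (Finset (Fin n))) (hU : U ⊆ Base n r)
    (hne : U.Nonempty) :
    ∃ v ∈ U, (r : ℝ) ^ 2 * U.card / (n.choose (r - 1)) - r ≤ (U.filter fun u => adj r v u).card := by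
  set F := (Finset.univ : Finset (Fin n)).powersetCard (r - 1) with hF
  have hFcard : F.card = n.choose (r - 1) := by simp [hF]
  have hFpos : 0 < n.choose (r - 1) := Nat.choose_pos (by omega)
  set a : Finset (Fin n) → ℕ := fun f => (U.filter fun v => f ⊆ v).card with ha
  -- first moment
  have h1 : ∑ f ∈ F, a f = r * U.card := by
    have : ∑ f ∈ F, a f = ∑ v ∈ U, (F.filter fun f => f ⊆ v).card := by
      simp only [ha, Finset.card_filter]
      rw [Finset.sum_comm]
    rw [this]
    have h2 : ∀ v ∈ U, (F.filter fun f => f ⊆ v).card = r := by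
      intro v hv
      have hvr : v.card = r := mem_Base.mp (hU hv)
      have : F.filter (fun f => f ⊆ v) = v.powersetCard (r - 1) := by
        ext f
        simp only [hF, Finset.mem_filter, Finset.mem_powersetCard, Finset.subset_univ, true_and]
        tauto
      rw [this, Finset.card_powersetCard, hvr]
      obtain ⟨r', rfl⟩ : ∃ r', r = r' + 1 := ⟨r - 1, by omega⟩
      simp
    rw [Finset.sum_congr rfl h2, Finset.sum_const, smul_eq_mul, mul_comm]
  -- second moment
  have h2 : ∑ f ∈ F, (a f) ^ 2 = ∑ v ∈ U, ∑ u ∈ U, (F.filter fun f => f ⊆ v ∧ f ⊆ u).card := by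
    have e1 : ∀ f ∈ F, (a f) ^ 2 = ∑ v ∈ U, ∑ u ∈ U, if f ⊆ v ∧ f ⊆ u then 1 else 0 := by
      intro f _
      simp only [ha]
      rw [sq, Finset.card_filter, Finset.sum_mul_sum]
      refine Finset.sum_congr rfl fun v _ => Finset.sum_congr rfl fun u _ => ?_
      by_cases h1 : f ⊆ v <;> by_cases h2 : f ⊆ u <;> simp [h1, h2]
    rw [Finset.sum_congr rfl e1, Finset.sum_comm]
    refine Finset.sum_congr rfl fun v _ => ?_
    rw [Finset.sum_comm]
    refine Finset.sum_congr rfl fun u _ => ?_
    rw [Finset.card_filter]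
  have h3 : ∀ v ∈ U, ∑ u ∈ U, (F.filter fun f => f ⊆ v ∧ f ⊆ u).card ≤
      r + (U.filter fun u => adj r v u).card := by
    intro v hv
    have hvr : v.card = r := mem_Base.mp (hU hv)
    have e : ∀ u ∈ U, (F.filter fun f => f ⊆ v ∧ f ⊆ u).card ≤
        (if u = v then r else 0) + (if adj r v u then 1 else 0) := by
      intro u hu
      have hur : u.card = r := mem_Base.mp (hU hu)
      have hfil : F.filter (fun f => f ⊆ v ∧ f ⊆ u) = (v ∩ u).powersetCard (r - 1) := by
        ext f
        simp only [hF, Finset.mem_filter, Finset.mem_powersetCard, Finset.subset_univ, true_and,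
          Finset.subset_inter_iff]
        tauto
      rw [hfil, Finset.card_powersetCard]
      by_cases huv : u = v
      · subst huv
        simp only [if_true, Finset.inter_self]
        have : ¬ adj r u u := adj_irrefl u
        simp only [this, if_false, add_zero]
        rw [hur]
        obtain ⟨r', rfl⟩ : ∃ r', r = r' + 1 := ⟨r - 1, by omega⟩
        simp
      · simp only [huv, if_false, zero_add]
        have hlt : (v ∩ u).card < r := by
          have hsub : v ∩ u ⊂ v := by
            refine (Finset.inter_subset_left).ssubset_of_ne ?_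
            intro h
            have hvu : v ⊆ u := Finset.inter_eq_left.mp h
            exact huv (Finset.eq_of_subset_of_card_le hvu (by omega)).symm
          calc (v ∩ u).card < v.card := Finset.card_lt_card hsub
            _ = r := hvr
        by_cases hadj : adj r v u
        · simp only [hadj, if_true]
          have h5 : (v ∩ u).card = r - 1 := by have := hadj.2; omega
          rw [h5, Nat.choose_self]
        · simp only [hadj, if_false]
          have h5 : (v ∩ u).card < r - 1 := by
            by_contra hcon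
            exact hadj ⟨Ne.symm huv, by omega⟩
          rw [Nat.choose_eq_zero_of_lt h5]
    refine (Finset.sum_le_sum e).trans ?_
    rw [Finset.sum_add_distrib, Finset.sum_ite_eq' U v (fun _ => r), if_pos hv,
      ← Finset.card_filter]
  -- Cauchy–Schwarz
  have hcs : ((r : ℝ) * U.card) ^ 2 ≤ (n.choose (r - 1)) *
      ∑ v ∈ U, ((r : ℝ) + (U.filter fun u => adj r v u).card) := by
    have h4 := sq_sum_le_card_mul_sum_sq (s := F) (f := fun f => (a f : ℝ))
    have h5 : (∑ f ∈ F, (a f : ℝ)) = (r : ℝ) * U.card := by exact_mod_cast h1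
    have h6 : (∑ f ∈ F, (a f : ℝ) ^ 2) ≤ ∑ v ∈ U, ((r : ℝ) + (U.filter fun u => adj r v u).card) := by
      have : (∑ f ∈ F, (a f) ^ 2) ≤ ∑ v ∈ U, (r + (U.filter fun u => adj r v u).card) := by
        rw [h2]; exact Finset.sum_le_sum h3
      exact_mod_cast this
    rw [h5, hFcard] at h4
    exact h4.trans (mul_le_mul_of_nonneg_left h6 (Nat.cast_nonneg _))
  by_contra hcon
  push Not at hcon
  have hlt : ∑ v ∈ U, ((r : ℝ) + (U.filter fun u => adj r v u).card) <
      ∑ _v ∈ U, (r : ℝ) ^ 2 * U.card / (n.choose (r - 1)) := by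
    apply Finset.sum_lt_sum_of_nonempty hne
    intro v hv
    have := hcon v hv
    linarith
  rw [Finset.sum_const, nsmul_eq_mul] at hlt
  have hCpos : (0 : ℝ) < n.choose (r - 1) := by exact_mod_cast hFpos
  have : (n.choose (r - 1) : ℝ) * ∑ v ∈ U, ((r : ℝ) + (U.filter fun u => adj r v u).card) <
      ((r : ℝ) * U.card) ^ 2 := by
    calc _ < (n.choose (r - 1) : ℝ) * (U.card * ((r : ℝ) ^ 2 * U.card / (n.choose (r - 1)))) :=
          mul_lt_mul_of_pos_left hlt hCpos
      _ = ((r : ℝ) * U.card) ^ 2 := by field_simp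
  linarith

open Classical in
/-- large sets of vertices span a vertex of large degree -/
lemma deg_large {n r : ℕ} (hr : 1 ≤ r) (hrn : r ≤ n) (δ : ℝ) (hδ : 0 < δ)
    (U : Finset (Finset (Fin n))) (hU : U ⊆ Base n r)
    (hbig : (1 + δ) * (n.choose r : ℝ) ≤ U.card * (n - r + 1 : ℝ)) :
    ∃ v ∈ U, (δ * r * (n - r + 1) / ((1 + δ) * n.choose r)) * U.card ≤
      (U.filter fun u => adj r v u).card := by
  have hrn' : (r : ℝ) ≤ n := by exact_mod_cast hrn
  have hnr : (0 : ℝ) < n - r + 1 := by linarith
  have hN : (0 : ℝ) < n.choose r := by exact_mod_cast Nat.choose_pos hrn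
  have hr0 : (0 : ℝ) < r := by exact_mod_cast hr
  have hne : U.Nonempty := by
    rw [Finset.nonempty_iff_ne_empty]
    rintro rfl
    simp at hbig
    have : 0 < (1 + δ) * (n.choose r : ℝ) := by positivity
    linarith
  obtain ⟨v, hv, h⟩ := supersat hr hrn U hU hne
  refine ⟨v, hv, le_trans ?_ h⟩
  have hrel : (n.choose (r - 1) : ℝ) * (n - r + 1) = n.choose r * r := by
    obtain ⟨r', rfl⟩ : ∃ r', r = r' + 1 := ⟨r - 1, by omega⟩
    have := Nat.choose_succ_right_eq n r'
    have h2 : ((n.choose (r' + 1) * (r' + 1) : ℕ) : ℝ) = ((n.choose r' * (n - r') : ℕ) : ℝ) := by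
      exact_mod_cast this
    push_cast at h2
    rw [Nat.cast_sub (by omega)] at h2
    simp only [Nat.add_sub_cancel]
    push_cast
    linarith
  have hC1 : (0 : ℝ) < n.choose (r - 1) := by exact_mod_cast Nat.choose_pos (by omega)
  have hCeq : (n.choose (r - 1) : ℝ) = n.choose r * r / (n - r + 1) := by
    rw [eq_div_iff hnr.ne', hrel]
  rw [hCeq]
  have e1 : (r : ℝ) ^ 2 * U.card / (n.choose r * r / (n - r + 1)) - r =
      r * (U.card * (n - r + 1) / n.choose r - 1) := by
    field_simp
  rw [e1]
  set y := (U.card : ℝ) * (n - r + 1) / n.choose r with hy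
  have hy1 : 1 + δ ≤ y := by
    rw [hy, le_div_iff₀ hN]; exact hbig
  have e2 : δ * r * (n - r + 1) / ((1 + δ) * n.choose r) * U.card = r * (δ / (1 + δ) * y) := by
    rw [hy]; field_simp
  rw [e2]
  apply mul_le_mul_of_nonneg_left _ hr0.le
  rw [div_mul_eq_mul_div, div_le_iff₀ (by positivity)]
  nlinarith

end Pool.Agent.H28.Johnson
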