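import Mathlib
import Pool.Agent.H28.Johnson
import Pool.Agent.H28.Insertion

open scoped BigOperators

namespace Pool.Agent.H28.Windows

open Pool.Agent.H28.Johnson Pool.Agent.H28.Shearer Pool.Agent.H28.Insertion Pool.Agent.H28.KW

variable {n : ℕ}

/-- action of permutations on sets of points -/
def act (π : Equiv.Perm (Fin n)) : Finset (Fin n) ≃ Finset (Fin n) := Equiv.finsetCongr π

lemma act_apply (π : Equiv.Perm (Fin n)) (S : Finset (Fin n)) : act π S = S.map π.toEmbedding := rfl

lemma card_act (π : Equiv.Perm (Fin n)) (S : Finset (Fin n)) : (act π S).card = S.card := by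
  rw [act_apply, Finset.card_map]

lemma act_mem_Base {r : ℕ} {π : Equiv.Perm (Fin n)} {S : Finset (Fin n)} :
    act π S ∈ Base n r ↔ S ∈ Base n r := by
  rw [mem_Base, mem_Base, card_act]

lemma act_inter (π : Equiv.Perm (Fin n)) (S T : Finset (Fin n)) :
    act π (S ∩ T) = act π S ∩ act π T := by
  simp only [act_apply, Finset.map_inter]

lemma adj_act {r : ℕ} (π : Equiv.Perm (Fin n)) {S T : Finset (Fin n)} :
    adj r (act π S) (act π T) ↔ adj r S T := by
  unfold adj
  rw [← act_inter, card_act, (act π).injective.ne_iff]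

lemma act_mul (σ π : Equiv.Perm (Fin n)) (S : Finset (Fin n)) : act (σ * π) S = act σ (act π S) := by
  simp only [act_apply, Finset.map_map]
  rfl

lemma exists_act {r : ℕ} {S T : Finset (Fin n)} (hS : S ∈ Base n r) (hT : T ∈ Base n r) :
    ∃ σ : Equiv.Perm (Fin n), act σ S = T := by
  classical
  rw [mem_Base] at hS hT
  have e1 : Fintype.card {x // x ∈ S} = Fintype.card {x // x ∈ T} := by
    simp [hS, hT]
  obtain ⟨e⟩ := Fintype.card_eq.mp e1
  refine ⟨e.extendSubtype, ?_⟩
  have hsub : act e.extendSubtype S ⊆ T := by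
    intro y hy
    rw [act_apply, Finset.mem_map] at hy
    obtain ⟨x, hx, rfl⟩ := hy
    exact Equiv.extendSubtype_mem e x hx
  exact Finset.eq_of_subset_of_card_le hsub (by rw [card_act, hS, hT])

/-- number of permutations carrying `S` to `T` -/
lemma card_carry {r : ℕ} {S T : Finset (Fin n)} (hS : S ∈ Base n r) (hT : T ∈ Base n r) :
    (Finset.univ.filter fun π : Equiv.Perm (Fin n) => act π S = T).card * n.choose r =
      Fintype.card (Equiv.Perm (Fin n)) := by
  classical
  have hconst : ∀ T' ∈ Base n r,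
      (Finset.univ.filter fun π : Equiv.Perm (Fin n) => act π S = T').card =
      (Finset.univ.filter fun π : Equiv.Perm (Fin n) => act π S = T).card := by
    intro T' hT'
    obtain ⟨σ, hσ⟩ := exists_act hT' hT
    refine Finset.card_bij (fun π _ => σ * π) ?_ ?_ ?_
    · intro π hπ
      rw [Finset.mem_filter] at hπ ⊢
      exact ⟨Finset.mem_univ _, by rw [act_mul, hπ.2, hσ]⟩
    · intro a _ b _ h
      exact mul_left_cancel h
    · intro π hπ
      rw [Finset.mem_filter] at hπ
      refine ⟨σ⁻¹ * π, ?_, by rw [mul_inv_cancel_left]⟩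
      rw [Finset.mem_filter]
      refine ⟨Finset.mem_univ _, ?_⟩
      apply (act σ).injective
      rw [← act_mul, mul_inv_cancel_left, hπ.2, hσ]
  have hsum : ∑ T' ∈ Base n r, (Finset.univ.filter fun π : Equiv.Perm (Fin n) => act π S = T').card =
      Fintype.card (Equiv.Perm (Fin n)) := by
    rw [← Finset.card_univ, ← Finset.card_eq_sum_card_fiberwise (f := fun π => act π S)]
    intro π _
    exact act_mem_Base.mpr hS
  rw [Finset.sum_congr rfl hconst, Finset.sum_const, card_Base, smul_eq_mul] at hsum
  rw [mul_comm]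
  exact hsum

/-- translate of a family -/
def wnd (X : Finset (Finset (Fin n))) (π : Equiv.Perm (Fin n)) : Finset (Finset (Fin n)) :=
  X.map (act π).toEmbedding

lemma mem_wnd {X : Finset (Finset (Fin n))} {π : Equiv.Perm (Fin n)} {t : Finset (Fin n)} :
    t ∈ wnd X π ↔ ∃ x ∈ X, act π x = t := by
  rw [wnd, Finset.mem_map]
  rfl

lemma act_mem_wnd {X : Finset (Finset (Fin n))} {π : Equiv.Perm (Fin n)} {t : Finset (Fin n)} :
    act π t ∈ wnd X π ↔ t ∈ X := by
  rw [mem_wnd]
  constructor
  · rintro ⟨x, hx, h⟩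
    rwa [← (act π).injective h]
  · intro h
    exact ⟨t, h, rfl⟩

/-- number of windows containing a point -/
lemma card_cover {r : ℕ} {X : Finset (Finset (Fin n))} (hX : X ⊆ Base n r) {t : Finset (Fin n)}
    (ht : t ∈ Base n r) :
    (Finset.univ.filter fun π : Equiv.Perm (Fin n) => t ∈ wnd X π).card * n.choose r =
      X.card * Fintype.card (Equiv.Perm (Fin n)) := by
  classical
  have e : (Finset.univ.filter fun π : Equiv.Perm (Fin n) => t ∈ wnd X π) =
      X.biUnion fun x => Finset.univ.filter fun π : Equiv.Perm (Fin n) => act π x = t := by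
    ext π
    simp only [Finset.mem_filter, Finset.mem_univ, true_and, Finset.mem_biUnion, mem_wnd]
  rw [e, Finset.card_biUnion, Finset.sum_mul]
  · rw [Finset.sum_congr rfl (fun x hx => card_carry (hX hx) ht), Finset.sum_const, smul_eq_mul]
  · intro x _ y _ hxy
    rw [Function.onFun, Finset.disjoint_left]
    intro π h1 h2
    rw [Finset.mem_filter] at h1 h2
    exact hxy ((act π).injective (h1.2.trans h2.2.symm))

/-- number of windows meeting a given window -/
lemma card_meet {r : ℕ} {X Y : Finset (Finset (Fin n))} (hX : X ⊆ Base n r)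
    (hY : Y ⊆ Base n r) :
    (Finset.univ.filter fun π : Equiv.Perm (Fin n) => (wnd X π ∩ Y).Nonempty).card * n.choose r ≤
      Y.card * (X.card * Fintype.card (Equiv.Perm (Fin n))) := by
  classical
  have hsub : (Finset.univ.filter fun π : Equiv.Perm (Fin n) => (wnd X π ∩ Y).Nonempty) ⊆
      Y.biUnion fun t => Finset.univ.filter fun π : Equiv.Perm (Fin n) => t ∈ wnd X π := by
    intro π hπ
    rw [Finset.mem_filter] at hπ
    obtain ⟨t, ht⟩ := hπ.2
    rw [Finset.mem_inter] at ht
    rw [Finset.mem_biUnion]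
    exact ⟨t, ht.2, Finset.mem_filter.mpr ⟨Finset.mem_univ _, ht.1⟩⟩
  calc _ ≤ (Y.biUnion fun t => Finset.univ.filter fun π : Equiv.Perm (Fin n) => t ∈ wnd X π).card *
        n.choose r := Nat.mul_le_mul_right _ (Finset.card_le_card hsub)
    _ ≤ (∑ t ∈ Y, (Finset.univ.filter fun π : Equiv.Perm (Fin n) => t ∈ wnd X π).card) *
        n.choose r := Nat.mul_le_mul_right _ Finset.card_biUnion_le
    _ = ∑ t ∈ Y, X.card * Fintype.card (Equiv.Perm (Fin n)) := by
        rw [Finset.sum_mul]
        exact Finset.sum_congr rfl fun t ht => card_cover hX (hY ht)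
    _ = _ := by rw [Finset.sum_const, smul_eq_mul]

lemma card_wnd (X : Finset (Finset (Fin n))) (π : Equiv.Perm (Fin n)) : (wnd X π).card = X.card := by
  rw [wnd, Finset.card_map]

lemma wnd_subset_Base {r : ℕ} {X : Finset (Finset (Fin n))} (hX : X ⊆ Base n r)
    (π : Equiv.Perm (Fin n)) : wnd X π ⊆ Base n r := by
  intro t ht
  obtain ⟨x, hx, rfl⟩ := mem_wnd.mp ht
  exact act_mem_Base.mpr (hX hx)

lemma wnd_mono {X Y : Finset (Finset (Fin n))} (h : X ⊆ Y) (π : Equiv.Perm (Fin n)) :
    wnd X π ⊆ wnd Y π := Finset.map_subset_map.mpr h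

open Classical in
/-- degree bound in the Johnson graph -/
lemma card_nbr {r : ℕ} {p : Finset (Fin n)} (hp : p ∈ Base n r) :
    ((Base n r).filter fun u => adj r p u).card ≤ r * (n - r) := by
  rw [mem_Base] at hp
  have hsub : ((Base n r).filter fun u => adj r p u) ⊆
      (p ×ˢ pᶜ).image (fun xy : Fin n × Fin n => insert xy.2 (p.erase xy.1)) := by
    intro u hu
    rw [Finset.mem_filter, mem_Base] at hu
    obtain ⟨huc, hne, hadj⟩ := hu
    have h1 : (p ∩ u).card + 1 = r := by
      have hle : (p ∩ u).card ≤ r := by rw [← hp]; exact Finset.card_le_card Finset.inter_subset_left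
      have hne2 : (p ∩ u).card ≠ r := by
        intro h
        have h2 : p ∩ u = p := Finset.eq_of_subset_of_card_le Finset.inter_subset_left (by omega)
        have h3 : p ⊆ u := Finset.inter_eq_left.mp h2
        exact hne (Finset.eq_of_subset_of_card_le h3 (by omega))
      omega
    have h2 : (p \ u).card = 1 := by
      have := Finset.card_sdiff_add_card_inter p u
      omega
    have h3 : (u \ p).card = 1 := by
      have := Finset.card_sdiff_add_card_inter u p
      rw [Finset.inter_comm] at this
      omega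
    obtain ⟨x, hx⟩ := Finset.card_eq_one.mp h2
    obtain ⟨y, hy⟩ := Finset.card_eq_one.mp h3
    have hxp : x ∈ p \ u := by rw [hx]; exact Finset.mem_singleton_self x
    have hyu : y ∈ u \ p := by rw [hy]; exact Finset.mem_singleton_self y
    rw [Finset.mem_sdiff] at hxp hyu
    rw [Finset.mem_image]
    refine ⟨(x, y), ?_, ?_⟩
    · rw [Finset.mem_product, Finset.mem_compl]
      exact ⟨hxp.1, hyu.2⟩
    · ext z
      simp only [Finset.mem_insert, Finset.mem_erase]
      constructor
      · rintro (rfl | ⟨hzx, hzp⟩)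
        · exact hyu.1
        · by_contra hzu
          have : z ∈ p \ u := Finset.mem_sdiff.mpr ⟨hzp, hzu⟩
          rw [hx, Finset.mem_singleton] at this
          exact hzx this
      · intro hzu
        by_cases hzp : z ∈ p
        · right
          refine ⟨?_, hzp⟩
          rintro rfl
          exact hxp.2 hzu
        · left
          have : z ∈ u \ p := Finset.mem_sdiff.mpr ⟨hzu, hzp⟩
          rw [hy, Finset.mem_singleton] at this
          exact this
  calc _ ≤ ((p ×ˢ pᶜ).image (fun xy : Fin n × Fin n => insert xy.2 (p.erase xy.1))).card :=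
        Finset.card_le_card hsub
    _ ≤ (p ×ˢ pᶜ).card := Finset.card_image_le
    _ = r * (n - r) := by rw [Finset.card_product, hp, Finset.card_compl, Fintype.card_fin, hp]

open Classical in
/-- stable families of `r`-sets -/
noncomputable def stables (n r : ℕ) : Finset (Finset (Finset (Fin n))) :=
  (Base n r).powerset.filter fun H => Indep (adj r) H

lemma mem_stables {r : ℕ} {H : Finset (Finset (Fin n))} :
    H ∈ stables n r ↔ H ⊆ Base n r ∧ Indep (adj r) H := by
  classical
  rw [stables, Finset.mem_filter, Finset.mem_powerset]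

/-- Insertion argument in the Johnson graph. -/
theorem few_patterns {r : ℕ} (T0 P0 W0 : Finset (Finset (Fin n))) (hrn : r ≤ n)
    (hPT : P0 ⊆ T0) (hTW : T0 ⊆ W0) (hWB : W0 ⊆ Base n r)
    (hP : Indep (adj r) P0) (hclosed : ∀ p ∈ P0, ∀ u ∈ Base n r, adj r p u → u ∈ W0)
    (hWN : W0.card < n.choose r) (μ : ℝ)
    (hμ : (T0.card * W0.card : ℝ) / n.choose r *
      ((stables n r).card : ℝ) ^ ((W0.card : ℝ) / n.choose r) ≤ μ) (J : ℕ) :
    (((stables n r).filter fun H => ∀ π : Equiv.Perm (Fin n), H ∩ wnd T0 π ≠ wnd P0 π).card : ℝ) ≤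
      (J * μ) ^ J * (stables n r).card := by
  classical
  set ι := Equiv.Perm (Fin n) with hι
  set N := n.choose r with hN
  have hNpos : 0 < N := Nat.choose_pos hrn
  set F := Fintype.card ι with hF
  have hFpos : 0 < F := Fintype.card_pos
  have hdvd : ∃ κ : ℕ, κ * N = F := by
    obtain ⟨S, hS⟩ : (Base n r).Nonempty := by
      rw [← Finset.card_pos, card_Base]; exact hNpos
    exact ⟨_, card_carry hS hS⟩
  obtain ⟨κ, hκ⟩ := hdvd
  have hκpos : 0 < κ := by
    rcases Nat.eq_zero_or_pos κ with h | h
    · rw [h, zero_mul] at hκ; omega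
    · exact h
  set M := κ * (T0.card * W0.card) with hM
  set k := κ * (N - W0.card) with hk
  have hkpos : 0 < k := Nat.mul_pos hκpos (by omega)
  have hTB : T0 ⊆ Base n r := hTW.trans hWB
  have hPB : P0 ⊆ Base n r := hPT.trans hTB
  have h := low_le (fun π : ι => wnd W0 π) (fun π => wnd T0 π) (fun π => wnd P0 π) (Base n r)
    (stables n r) M k hkpos ?_ ?_ ?_ ?_ ?_ ?_ ?_ μ ?_ J
  · refine le_trans ?_ h
    have : ((stables n r).filter fun H => ∀ π : Equiv.Perm (Fin n), H ∩ wnd T0 π ≠ wnd P0 π) ⊆
        low (fun π : ι => wnd T0 π) (fun π => wnd P0 π) (stables n r) 0 := by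
      intro H hH
      rw [Finset.mem_filter] at hH
      rw [low, Finset.mem_filter]
      refine ⟨hH.1, ?_⟩
      rw [pat, Nat.le_zero, Finset.card_eq_zero, Finset.filter_eq_empty_iff]
      intro π _
      exact hH.2 π
    exact_mod_cast Finset.card_le_card this
  · intro π
    have h1 := card_meet hTB (wnd_subset_Base hWB π)
    rw [card_wnd] at h1
    have h2 : W0.card * (T0.card * F) = M * N := by
      rw [hM, ← hκ]; ring
    rw [← hF, h2] at h1
    exact Nat.le_of_mul_le_mul_right h1 hNpos
  · intro π; exact wnd_mono hPT π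
  · intro π; exact wnd_mono hTW π
  · intro H hH
    exact (mem_stables.mp hH).1
  · intro H hH π
    obtain ⟨hHB, hHI⟩ := mem_stables.mp hH
    rw [mem_stables]
    refine ⟨?_, ?_⟩
    · intro t ht
      rw [Finset.mem_union, Finset.mem_sdiff] at ht
      rcases ht with ht | ht
      · exact hHB ht.1
      · exact wnd_subset_Base hPB π ht
    · have hcross : ∀ a ∈ H \ wnd W0 π, ∀ b ∈ wnd P0 π, ¬ adj r b a := by
        intro a ha b hb hab
        rw [Finset.mem_sdiff] at ha
        obtain ⟨p, hp, rfl⟩ := mem_wnd.mp hb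
        obtain ⟨a', rfl⟩ := (act π).surjective a
        have h1 : adj r p a' := (adj_act π).mp hab
        have h2 : a' ∈ Base n r := act_mem_Base.mp (hHB ha.1)
        exact ha.2 (act_mem_wnd.mpr (hclosed p hp a' h2 h1))
      intro a ha b hb
      rw [Finset.mem_union] at ha hb
      rcases ha with ha | ha <;> rcases hb with hb | hb
      · exact hHI a (Finset.mem_sdiff.mp ha).1 b (Finset.mem_sdiff.mp hb).1
      · intro hab
        exact hcross a ha b hb (adj_symm hab)
      · exact hcross b hb a ha
      · obtain ⟨p, hp, rfl⟩ := mem_wnd.mp ha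
        obtain ⟨q, hq, rfl⟩ := mem_wnd.mp hb
        rw [adj_act]
        exact hP p hp q hq
  · intro v hv
    have h1 := card_cover hWB hv
    have e : (Finset.univ.filter fun π : ι => v ∈ Base n r \ wnd W0 π) =
        Finset.univ \ (Finset.univ.filter fun π : ι => v ∈ wnd W0 π) := by
      ext π
      simp [hv]
    rw [e, Finset.card_sdiff_of_subset (Finset.filter_subset _ _), Finset.card_univ]
    have h2 : (Finset.univ.filter fun π : ι => v ∈ wnd W0 π).card = κ * W0.card := by
      apply Nat.eq_of_mul_eq_mul_right hNpos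
      rw [h1, ← hF, ← hκ]; ring
    rw [h2, ← hF, ← hκ, hk, Nat.mul_sub]
  · rw [← hF, ← hκ, hk]
    exact Nat.mul_le_mul_left _ (Nat.sub_le _ _)
  · refine le_trans (le_of_eq ?_) hμ
    have hNr : (0 : ℝ) < N := by exact_mod_cast hNpos
    have hκr : (0 : ℝ) < κ := by exact_mod_cast hκpos
    have e1 : (F : ℝ) = κ * N := by rw [← hκ]; push_cast; ring
    rw [← hF, e1]
    congr 1
    · rw [hM]; push_cast; field_simp
    · congr 1
      rw [hk]
      push_cast
      rw [Nat.cast_sub hWN.le]
      field_simp
      ring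

end Pool.Agent.H28.Windows
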