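import Mathlib
import Pool.Agent.H28.Windows

open scoped BigOperators

namespace Pool.Agent.H28.StableCount

open Pool.Agent.H28.Johnson Pool.Agent.H28.KW Pool.Agent.H28.Windows

/-- upper bound for the number of stable families of `r`-sets -/
theorem log_stables_le {n r : ℕ} (hr : 1 ≤ r) (hrn : r ≤ n) (δ : ℝ) (hδ : 0 < δ) (hδ1 : δ ≤ 1)
    (hL : 3 / 2 ≤ Real.log n) (hD : (n - r + 1 : ℝ) ≤ δ * n.choose r)
    (hrD : (r : ℝ) * (n - r + 1) ≤ n.choose r)
    (hbig : 2 * Real.log n * (1 + δ) ≤ δ * (r * (n - r + 1))) :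
    Real.log (stables n r).card ≤
      (1 + δ) * (n.choose r / (n - r + 1)) * (Real.log 2 + 4 * Real.log n ^ 2 / (δ * r)) := by
  classical
  set N := n.choose r with hN
  have hNpos : 0 < N := Nat.choose_pos hrn
  have hNr : (0 : ℝ) < N := by exact_mod_cast hNpos
  have hrn' : (r : ℝ) ≤ n := by exact_mod_cast hrn
  have hr0 : (0 : ℝ) < r := by exact_mod_cast hr
  have hr1 : (1 : ℝ) ≤ r := by exact_mod_cast hr
  set D : ℝ := n - r + 1 with hDdef
  have hD1 : 1 ≤ D := by rw [hDdef]; linarith
  have hD0 : 0 < D := by linarith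
  set L := Real.log n with hLdef
  have hL0 : 0 < L := by linarith
  have hn0 : (0 : ℝ) < n := by linarith
  have hDn : D ≤ n := by rw [hDdef]; linarith
  set β : ℝ := δ * r * D / ((1 + δ) * N) with hβ
  have hβ0 : 0 < β := by rw [hβ]; positivity
  have hβ1 : β ≤ 1 := by
    rw [hβ, div_le_one (by positivity)]
    nlinarith
  set R := ⌊(1 + δ) * N / D⌋₊ with hR
  have hRup : (R : ℝ) ≤ (1 + δ) * N / D := Nat.floor_le (by positivity)
  have hRlow : (N : ℝ) / D ≤ R := by
    have h1 : (1 + δ) * N / D < R + 1 := Nat.lt_floor_add_one _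
    have h2 : (1 + δ) * N / D = N / D + δ * N / D := by ring
    have h3 : 1 ≤ δ * N / D := by rw [le_div_iff₀ hD0]; linarith
    linarith
  set q := ⌈L / β⌉₊ with hq
  have hqlow : L / β ≤ q := Nat.le_ceil _
  have hLβ : 1 ≤ L / β := by rw [le_div_iff₀ hβ0]; linarith
  have hqup : (q : ℝ) ≤ 2 * (L / β) := by
    have := (Nat.ceil_lt_add_one (show 0 ≤ L / β by positivity)).le
    linarith
  have hq1 : 1 ≤ q := by
    have : (1 : ℝ) ≤ q := hLβ.trans hqlow
    exact_mod_cast this
  have hq0 : (0 : ℝ) < q := by exact_mod_cast hq1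
  have hqN : q ≤ N := by
    have h1 : 2 * (L / β) = 2 * L * (1 + δ) * N / (δ * (r * D)) := by
      rw [hβ]; field_simp
    have h2 : 2 * L * (1 + δ) * N / (δ * (r * D)) ≤ N := by
      rw [div_le_iff₀ (by positivity)]
      nlinarith
    have : (q : ℝ) ≤ N := hqup.trans (h1.le.trans h2)
    exact_mod_cast this
  -- Kleitman–Winston
  have hkw := count_indep (adj r) (adj_irrefl (n := n)) (Base n r) R β hβ0 hβ1
    (by
      intro U hU hRU
      have h1 : (1 + δ) * N / D < U.card := by
        have h1 : (1 + δ) * N / D < R + 1 := Nat.lt_floor_add_one _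
        have h2 : (R : ℝ) + 1 ≤ U.card := by exact_mod_cast hRU
        linarith
      have h2 : (1 + δ) * (n.choose r : ℝ) ≤ U.card * (n - r + 1 : ℝ) := by
        rw [div_lt_iff₀ hD0] at h1
        exact h1.le
      obtain ⟨v, hv, h⟩ := deg_large hr hrn δ hδ U hU h2
      refine ⟨v, hv, ?_⟩
      convert h using 4)
    N (Base n r) (card_Base n r) (Finset.Subset.refl _) q
    (by
      rw [card_Base]
      have h1 : (1 - β) ^ q ≤ 1 / n := by
        calc (1 - β) ^ q ≤ (Real.exp (-β)) ^ q := by
              apply pow_le_pow_left₀ (by linarith)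
              have := Real.add_one_le_exp (-β)
              linarith
          _ = Real.exp (-(β * q)) := by rw [← Real.exp_nat_mul]; ring_nf
          _ ≤ Real.exp (-L) := by
              apply Real.exp_le_exp.mpr
              have : L ≤ β * q := by
                rw [div_le_iff₀ hβ0] at hqlow
                linarith
              linarith
          _ = 1 / n := by rw [Real.exp_neg, hLdef, Real.exp_log hn0, one_div]
      calc (1 - β) ^ q * (N : ℝ) ≤ 1 / n * N := mul_le_mul_of_nonneg_right h1 hNr.le
        _ = N / n := by ring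
        _ ≤ N / D := div_le_div_of_nonneg_left hNr.le hD0 hDn
        _ ≤ R := hRlow)
  have hst : (stables n r).card ≤ (∑ j ∈ Finset.range (q + 1), N.choose j) * 2 ^ R := by
    refine le_trans (le_of_eq ?_) hkw
    rw [stables]
  have hsum := sum_choose_le N q hq1 hqN
  have hpos : 0 < (stables n r).card := by
    apply Finset.card_pos.mpr
    exact ⟨∅, mem_stables.mpr ⟨Finset.empty_subset _, fun a ha => by simp at ha⟩⟩
  have h1 : ((stables n r).card : ℝ) ≤ (Real.exp 1 * N / q) ^ q * 2 ^ R := by
    have : ((stables n r).card : ℝ) ≤ ((∑ j ∈ Finset.range (q + 1), N.choose j : ℕ) : ℝ) * 2 ^ R := by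
      exact_mod_cast hst
    exact this.trans (mul_le_mul_of_nonneg_right hsum (by positivity))
  have h2 : Real.log (stables n r).card ≤ q * Real.log (Real.exp 1 * N / q) + R * Real.log 2 := by
    have h3 := Real.log_le_log (by exact_mod_cast hpos) h1
    rw [Real.log_mul (by positivity) (by positivity), Real.log_pow, Real.log_pow] at h3
    exact h3
  have h3 : Real.log (Real.exp 1 * N / q) ≤ 2 * L := by
    have h4 : Real.exp 1 * N / q ≤ n ^ 2 := by
      rw [div_le_iff₀ hq0]
      have h5 : Real.exp 1 * N ≤ n ^ 2 * (L / β) := by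
        have h6 : (n : ℝ) ^ 2 * (L / β) = n ^ 2 * L * ((1 + δ) * N) / (δ * r * D) := by
          rw [hβ]; field_simp
        rw [h6, le_div_iff₀ (by positivity)]
        have h7 : Real.exp 1 ≤ 3 := Real.exp_one_lt_d9.le.trans (by norm_num)
        have h8 : (r : ℝ) * D ≤ n ^ 2 := by
          rw [sq]; exact mul_le_mul hrn' hDn hD0.le hn0.le
        calc Real.exp 1 * N * (δ * r * D) = (Real.exp 1 * δ) * (r * D) * N := by ring
          _ ≤ (3 * δ) * n ^ 2 * N := by
              apply mul_le_mul_of_nonneg_right _ hNr.le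
              apply mul_le_mul _ h8 (by positivity) (by positivity)
              exact mul_le_mul_of_nonneg_right h7 hδ.le
          _ ≤ (L * (1 + δ)) * n ^ 2 * N := by
              apply mul_le_mul_of_nonneg_right _ hNr.le
              apply mul_le_mul_of_nonneg_right _ (by positivity)
              nlinarith
          _ = n ^ 2 * L * ((1 + δ) * N) := by ring
      exact h5.trans (mul_le_mul_of_nonneg_left hqlow (by positivity))
    calc Real.log (Real.exp 1 * N / q) ≤ Real.log (n ^ 2) := Real.log_le_log (by positivity) h4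
      _ = 2 * L := by rw [Real.log_pow, hLdef]; norm_num
  have hln2 : 0 ≤ Real.log 2 := Real.log_nonneg (by norm_num)
  calc Real.log (stables n r).card ≤ q * Real.log (Real.exp 1 * N / q) + R * Real.log 2 := h2
    _ ≤ q * (2 * L) + ((1 + δ) * N / D) * Real.log 2 :=
        add_le_add (mul_le_mul_of_nonneg_left h3 hq0.le) (mul_le_mul_of_nonneg_right hRup hln2)
    _ ≤ (2 * (L / β)) * (2 * L) + ((1 + δ) * N / D) * Real.log 2 := by
        apply add_le_add _ le_rfl
        exact mul_le_mul_of_nonneg_right hqup (by positivity)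
    _ = (1 + δ) * (N / D) * (Real.log 2 + 4 * L ^ 2 / (δ * r)) := by
        rw [hβ]; field_simp; ring

/-- lower bound for binomial coefficients -/
lemma choose_mode (r k : ℕ) : (13 * r).choose k * 12 ^ (13 * r - k) ≤ (13 * r).choose r * 12 ^ (12 * r) := by
  have hstep : ∀ k, k < 13 * r → ((13 * r).choose (k + 1) * 12 ^ (13 * r - (k + 1))) * (12 * (k + 1)) =
      ((13 * r).choose k * 12 ^ (13 * r - k)) * (13 * r - k) := by
    intro k hk
    have h1 := Nat.choose_succ_right_eq (13 * r) k
    have h2 : 12 ^ (13 * r - k) = 12 ^ (13 * r - (k + 1)) * 12 := by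
      rw [← pow_succ]; congr 1; omega
    calc ((13 * r).choose (k + 1) * 12 ^ (13 * r - (k + 1))) * (12 * (k + 1))
        = ((13 * r).choose (k + 1) * (k + 1)) * (12 ^ (13 * r - (k + 1)) * 12) := by ring
      _ = ((13 * r).choose k * (13 * r - k)) * 12 ^ (13 * r - k) := by rw [h1, h2]
      _ = _ := by ring
  -- increasing up to r
  have hinc : ∀ j, j ≤ r → (13 * r).choose (r - j) * 12 ^ (13 * r - (r - j)) ≤
      (13 * r).choose r * 12 ^ (13 * r - r) := by
    intro j
    induction j with
    | zero => intro _; simp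
    | succ j ih =>
      intro hj
      have h1 := ih (by omega)
      refine le_trans ?_ h1
      have h2 := hstep (r - (j + 1)) (by omega)
      have e : r - (j + 1) + 1 = r - j := by omega
      rw [e] at h2
      have h3 : 12 * (r - j) ≤ 13 * r - (r - (j + 1)) := by omega
      have h4 : 0 < 12 * (r - j) := by omega
      by_contra hcon
      push Not at hcon
      have h5 : ((13 * r).choose (r - j) * 12 ^ (13 * r - (r - j))) * (12 * (r - j)) <
          ((13 * r).choose (r - (j + 1)) * 12 ^ (13 * r - (r - (j + 1)))) *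
            (13 * r - (r - (j + 1))) := by
        calc _ < ((13 * r).choose (r - (j + 1)) * 12 ^ (13 * r - (r - (j + 1)))) * (12 * (r - j)) :=
              Nat.mul_lt_mul_of_pos_right hcon h4
          _ ≤ _ := Nat.mul_le_mul_left _ h3
      omega
  have hdec : ∀ j, r + j ≤ 13 * r → (13 * r).choose (r + j) * 12 ^ (13 * r - (r + j)) ≤
      (13 * r).choose r * 12 ^ (13 * r - r) := by
    intro j
    induction j with
    | zero => intro _; simp
    | succ j ih =>
      intro hj
      have h1 := ih (by omega)
      refine le_trans ?_ h1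
      have h2 := hstep (r + j) (by omega)
      have e : r + j + 1 = r + (j + 1) := by omega
      rw [e] at h2
      have h3 : 13 * r - (r + j) ≤ 12 * (r + (j + 1)) := by omega
      have h4 : 0 < 12 * (r + (j + 1)) := by omega
      by_contra hcon
      push Not at hcon
      have h5 : ((13 * r).choose (r + j) * 12 ^ (13 * r - (r + j))) * (13 * r - (r + j)) <
          ((13 * r).choose (r + (j + 1)) * 12 ^ (13 * r - (r + (j + 1)))) * (12 * (r + (j + 1))) := by
        calc _ ≤ ((13 * r).choose (r + j) * 12 ^ (13 * r - (r + j))) * (12 * (r + (j + 1))) :=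
              Nat.mul_le_mul_left _ h3
          _ < _ := Nat.mul_lt_mul_of_pos_right hcon h4
      omega
  have e12 : 13 * r - r = 12 * r := by omega
  rw [e12] at hinc hdec
  rcases le_or_gt k r with hk | hk
  · have := hinc (r - k) (by omega)
    have e : r - (r - k) = k := by omega
    rw [e] at this
    exact this
  · rcases le_or_gt k (13 * r) with hk2 | hk2
    · have := hdec (k - r) (by omega)
      have e : r + (k - r) = k := by omega
      rw [e] at this
      exact this
    · rw [Nat.choose_eq_zero_of_lt hk2, zero_mul]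
      exact Nat.zero_le _

lemma choose_lower_nat (r : ℕ) : 13 ^ (13 * r) ≤ (13 * r + 1) * ((13 * r).choose r * 12 ^ (12 * r)) := by
  have h := add_pow 1 12 (13 * r)
  simp only [one_pow, one_mul] at h
  calc 13 ^ (13 * r) = (1 + 12) ^ (13 * r) := by norm_num
    _ = ∑ m ∈ Finset.range (13 * r + 1), 12 ^ (13 * r - m) * (13 * r).choose m := h
    _ ≤ ∑ _m ∈ Finset.range (13 * r + 1), (13 * r).choose r * 12 ^ (12 * r) := by
        refine Finset.sum_le_sum fun m _ => ?_
        rw [mul_comm]
        exact choose_mode r m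
    _ = _ := by rw [Finset.sum_const, Finset.card_range, smul_eq_mul]

lemma log_choose_lower {n r : ℕ} (h : 13 * r ≤ n) :
    61 / 12 * Real.log 2 * r ≤ Real.log (n.choose r) + Real.log (13 * r + 1) := by
  have h1 := choose_lower_nat r
  have h2 : (13 * r).choose r ≤ n.choose r := Nat.choose_le_choose r h
  have h3 : 13 ^ (13 * r) ≤ (13 * r + 1) * (n.choose r * 12 ^ (12 * r)) :=
    h1.trans (Nat.mul_le_mul_left _ (Nat.mul_le_mul_right _ h2))
  have hCpos : 0 < n.choose r := Nat.choose_pos (by omega)
  have hC : (0 : ℝ) < n.choose r := by exact_mod_cast hCpos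
  have h4 : ((13 : ℝ) ^ (13 * r)) ≤ (13 * r + 1) * (n.choose r * 12 ^ (12 * r)) := by
    exact_mod_cast h3
  have h5 := Real.log_le_log (by positivity) h4
  rw [Real.log_mul (by positivity) (by positivity), Real.log_mul (by positivity) (by positivity),
    Real.log_pow, Real.log_pow] at h5
  push_cast at h5
  have h6 : 61 * Real.log 2 ≤ 12 * (13 * Real.log 13 - 12 * Real.log 12) := by
    have h7 : ((2 : ℝ) ^ 61) * 12 ^ 144 ≤ 13 ^ 156 := by norm_num
    have h8 := Real.log_le_log (by positivity) h7
    rw [Real.log_mul (by positivity) (by positivity), Real.log_pow, Real.log_pow, Real.log_pow] at h8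
    push_cast at h8
    linarith
  have hr0 : (0 : ℝ) ≤ r := Nat.cast_nonneg r
  nlinarith

lemma log_choose_lower' {n r : ℕ} (hr : 1 ≤ r) (hrn : r ≤ n) :
    r * Real.log ((n + 1 - r) / r) ≤ Real.log (n.choose r) := by
  have h1 := Nat.pow_le_choose (α := ℝ) r n
  have hr0 : (0 : ℝ) < r := by exact_mod_cast hr
  have hrn' : (r : ℝ) ≤ n := by exact_mod_cast hrn
  have h2 : ((r.factorial : ℕ) : ℝ) ≤ (r : ℝ) ^ r := by exact_mod_cast Nat.factorial_le_pow r
  have hf : (0 : ℝ) < r.factorial := by exact_mod_cast Nat.factorial_pos r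
  have hC : (0 : ℝ) < n.choose r := by exact_mod_cast Nat.choose_pos hrn
  have h3 : (((n : ℝ) + 1 - r) / r) ^ r ≤ n.choose r := by
    rw [div_pow, div_le_iff₀ (by positivity)]
    have h4 : (((n + 1 - r : ℕ) : ℝ)) = (n : ℝ) + 1 - r := by
      rw [Nat.cast_sub (by omega)]; push_cast; ring
    have h5 : ((n : ℝ) + 1 - r) ^ r / r.factorial ≤ n.choose r := by
      rw [← h4]
      exact_mod_cast h1
    rw [div_le_iff₀ hf] at h5
    exact h5.trans (mul_le_mul_of_nonneg_left h2 hC.le)
  have hpos : 0 < ((n : ℝ) + 1 - r) / r := by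
    apply div_pos _ hr0
    linarith
  have h4 := Real.log_le_log (by positivity) h3
  rwa [Real.log_pow] at h4

end Pool.Agent.H28.StableCount
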