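import Mathlib
import Pool.Agent.H28.Windows

open scoped BigOperators

namespace Pool.Agent.H28.SPMatroid

open Pool.Agent.H28.Johnson Pool.Agent.H28.KW Pool.Agent.H28.Windows

/-- A matroid is paving if every circuit has at least as many elements as the rank. -/
def Paving {α : Type*} (M : Matroid α) : Prop := ∀ C : Set α, M.IsCircuit C → M.eRank ≤ C.encard

/-- A matroid is sparse paving if it and its dual are paving. -/
def SparsePaving {α : Type*} (M : Matroid α) : Prop := Paving M ∧ Paving M✶

lemma Paving.indep {α : Type*} {M : Matroid α} (h : Paving M) {X : Set α} (hXE : X ⊆ M.E)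
    (hX : X.encard < M.eRank) : M.Indep X := by
  by_contra hcon
  have hdep : M.Dep X := ⟨hcon, hXE⟩
  obtain ⟨C, hCX, hC⟩ := hdep.exists_isCircuit_subset
  have h1 := h C hC
  have h2 : C.encard ≤ X.encard := Set.encard_le_encard hCX
  exact absurd (h1.trans h2) (not_le.mpr hX)

variable {n : ℕ}

open Classical in
/-- nonbases of rank `r` -/
noncomputable def nb (r : ℕ) (M : Matroid (Fin n)) : Finset (Finset (Fin n)) :=
  (Base n r).filter fun S => ¬ M.Indep (S : Set (Fin n))

lemma mem_nb {r : ℕ} {M : Matroid (Fin n)} {S : Finset (Fin n)} :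
    S ∈ nb r M ↔ S.card = r ∧ ¬ M.Indep (S : Set (Fin n)) := by
  classical
  rw [nb, Finset.mem_filter, mem_Base]

/-- the class of matroids under consideration -/
def SP (r : ℕ) (M : Matroid (Fin n)) : Prop := M.E = Set.univ ∧ SparsePaving M ∧ M.eRank = (r : ℕ∞)

lemma SP.indep_iff {r : ℕ} {M : Matroid (Fin n)} (h : SP r M) (S : Finset (Fin n)) :
    M.Indep (S : Set (Fin n)) ↔ S.card < r ∨ (S.card = r ∧ S ∉ nb r M) := by
  obtain ⟨hE, ⟨hp, _⟩, hr⟩ := h
  rcases lt_trichotomy S.card r with hlt | heq | hgt
  · simp only [hlt, true_or, iff_true]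
    apply hp.indep (by rw [hE]; exact Set.subset_univ _)
    rw [hr, Set.encard_coe_eq_coe_finsetCard]
    exact_mod_cast hlt
  · rw [mem_nb]
    simp only [heq, lt_irrefl, false_or, true_and, not_not]
  · have : ¬ M.Indep (S : Set (Fin n)) := by
      intro hI
      have h1 := hI.encard_le_eRank
      rw [hr, Set.encard_coe_eq_coe_finsetCard] at h1
      have : S.card ≤ r := by exact_mod_cast h1
      omega
    simp only [this, false_iff, not_or, not_and]
    exact ⟨by omega, fun h => by omega⟩

lemma SP.ext {r : ℕ} {M N : Matroid (Fin n)} (hM : SP r M) (hN : SP r N) (h : nb r M = nb r N) :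
    M = N := by
  refine Matroid.ext_indep (hM.1.trans hN.1.symm) ?_
  intro I _
  have h1 := hM.indep_iff I.toFinite.toFinset
  have h2 := hN.indep_iff I.toFinite.toFinset
  rw [Set.Finite.coe_toFinset] at h1 h2
  rw [h1, h2, h]

lemma SP.rank_le {r : ℕ} {M : Matroid (Fin n)} (h : SP r M) : r ≤ n := by
  have h1 := M.eRank_le_encard_ground
  rw [h.2.2, h.1, Set.encard_univ, ENat.card_eq_coe_fintype_card, Fintype.card_fin] at h1
  exact_mod_cast h1

lemma dual_eRank {r : ℕ} {M : Matroid (Fin n)} (hE : M.E = Set.univ) (hr : M.eRank = (r : ℕ∞)) :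
    M✶.eRank = ((n - r : ℕ) : ℕ∞) := by
  obtain ⟨B, hB⟩ := M.exists_isBase
  have h1 : B.encard = r := by rw [hB.encard_eq_eRank, hr]
  have h2 : M✶.IsBase (M.E \ B) := hB.compl_isBase_dual
  rw [← h2.encard_eq_eRank, hE, ← Set.compl_eq_univ_sdiff]
  have h3 : Bᶜ.ncard = n - B.ncard := by
    rw [Set.ncard_compl, Nat.card_eq_fintype_card, Fintype.card_fin]
  have h4 : B.ncard = r := by
    rw [Set.ncard, h1]; rfl
  rw [← Set.Finite.cast_ncard_eq (Set.toFinite _), h3, h4]

lemma SP.stable {r : ℕ} {M : Matroid (Fin n)} (h : SP r M) : nb r M ∈ stables n r := by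
  classical
  rw [mem_stables]
  refine ⟨fun S hS => by rw [mem_Base]; exact (mem_nb.mp hS).1, ?_⟩
  intro S hS T hT hadj
  rw [mem_nb] at hS hT
  obtain ⟨hE, ⟨hp, hpd⟩, hr⟩ := h
  have hST : (S ∩ T).card < r := by
    have hle : (S ∩ T).card ≤ r := by rw [← hS.1]; exact Finset.card_le_card Finset.inter_subset_left
    rcases hle.lt_or_eq with h | h
    · exact h
    · exfalso
      have h2 : S ∩ T = S := Finset.eq_of_subset_of_card_le Finset.inter_subset_left (by omega)
      have h3 : S ⊆ T := Finset.inter_eq_left.mp h2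
      exact hadj.1 (Finset.eq_of_subset_of_card_le h3 (by omega))
  have hc1 : (S ∩ T).card + 1 = r := by have := hadj.2; omega
  have hf : M.Indep ((S ∩ T : Finset (Fin n)) : Set (Fin n)) := by
    apply hp.indep (by rw [hE]; exact Set.subset_univ _)
    rw [hr, Set.encard_coe_eq_coe_finsetCard]
    exact_mod_cast hST
  -- both sets lie in the closure of the intersection
  have hcl : ∀ U : Finset (Fin n), U.card = r → ¬ M.Indep (U : Set (Fin n)) → S ∩ T ⊆ U →
      (U : Set (Fin n)) ⊆ M.closure ((S ∩ T : Finset (Fin n)) : Set (Fin n)) := by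
    intro U hU hUd hsub
    have hd : (U \ (S ∩ T)).card = 1 := by
      rw [Finset.card_sdiff_of_subset hsub]; omega
    obtain ⟨x, hx⟩ := Finset.card_eq_one.mp hd
    have hUx : U = insert x (S ∩ T) := by
      rw [Finset.insert_eq, ← hx, Finset.sdiff_union_of_subset hsub]
    have hxn : x ∉ S ∩ T := by
      have : x ∈ U \ (S ∩ T) := by rw [hx]; exact Finset.mem_singleton_self x
      exact (Finset.mem_sdiff.mp this).2
    rw [hUx, Finset.coe_insert] at hUd
    have hxcl : x ∈ M.closure ((S ∩ T : Finset (Fin n)) : Set (Fin n)) := by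
      rw [hf.mem_closure_iff]
      left
      exact ⟨hUd, by rw [hE]; exact Set.subset_univ _⟩
    rw [hUx, Finset.coe_insert]
    apply Set.insert_subset hxcl
    exact M.subset_closure _ (by rw [hE]; exact Set.subset_univ _)
  have hS' := hcl S hS.1 hS.2 Finset.inter_subset_left
  have hT' := hcl T hT.1 hT.2 Finset.inter_subset_right
  have hun : ((S ∪ T : Finset (Fin n)) : Set (Fin n)) ⊆
      M.closure ((S ∩ T : Finset (Fin n)) : Set (Fin n)) := by
    rw [Finset.coe_union]; exact Set.union_subset hS' hT'
  have hcardU : (S ∪ T).card = r + 1 := by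
    have := Finset.card_union_add_card_inter S T
    omega
  -- the complement of the union is coindependent
  have hdr := dual_eRank hE hr
  have hn : r + 1 ≤ n := by
    have := Finset.card_le_univ (S ∪ T)
    rw [hcardU, Fintype.card_fin] at this
    exact this
  have hco : M✶.Indep (((S ∪ T)ᶜ : Finset (Fin n)) : Set (Fin n)) := by
    apply hpd.indep
    · rw [Matroid.dual_ground, hE]; exact Set.subset_univ _
    · rw [hdr, Set.encard_coe_eq_coe_finsetCard, Finset.card_compl, Fintype.card_fin, hcardU]
      exact_mod_cast (by omega : n - (r + 1) < n - r)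
  have hsp : M.Spanning ((S ∪ T : Finset (Fin n)) : Set (Fin n)) := by
    have := Matroid.Coindep.compl_spanning hco
    rwa [hE, ← Set.compl_eq_univ_sdiff, Finset.coe_compl, compl_compl] at this
  have hrk : M.eRank ≤ M.eRk ((S ∩ T : Finset (Fin n)) : Set (Fin n)) := by
    rw [← M.eRk_closure_eq ((S ∩ T : Finset (Fin n)) : Set (Fin n))]
    have h1 := M.eRk_mono hun
    have h2 : M.eRk ((S ∪ T : Finset (Fin n)) : Set (Fin n)) = M.eRank := hsp.eRk_eq
    rw [h2] at h1
    exact h1
  have hrk2 := M.eRk_le_encard ((S ∩ T : Finset (Fin n)) : Set (Fin n))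
  rw [Set.encard_coe_eq_coe_finsetCard] at hrk2
  rw [hr] at hrk
  have : r ≤ (S ∩ T).card := by exact_mod_cast hrk.trans hrk2
  omega

/-- extend a small set to an `r`-set outside a stable family -/
lemma exists_base_between {r : ℕ} {H : Finset (Finset (Fin n))} (hH : H ∈ stables n r)
    {A B : Finset (Fin n)} (hAB : A ⊆ B) (hA : A.card < r) (hB : r < B.card) :
    ∃ S : Finset (Fin n), A ⊆ S ∧ S ⊆ B ∧ S.card = r ∧ S ∉ H := by
  classical
  obtain ⟨f, hAf, hfB, hf⟩ := Finset.exists_subsuperset_card_eq hAB (n := r - 1)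
    (by omega) (by omega)
  have h2 : 1 < (B \ f).card := by rw [Finset.card_sdiff_of_subset hfB]; omega
  obtain ⟨x, hx, y, hy, hxy⟩ := Finset.one_lt_card.mp h2
  rw [Finset.mem_sdiff] at hx hy
  have hcx : (insert x f).card = r := by rw [Finset.card_insert_of_notMem hx.2, hf]; omega
  have hcy : (insert y f).card = r := by rw [Finset.card_insert_of_notMem hy.2, hf]; omega
  by_cases h : insert x f ∈ H
  · refine ⟨insert y f, hAf.trans (Finset.subset_insert _ _), ?_, hcy, ?_⟩
    · exact Finset.insert_subset hy.1 hfB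
    · intro h'
      have hadj : adj r (insert x f) (insert y f) := by
        refine ⟨?_, ?_⟩
        · intro heq
          have : x ∈ insert y f := by rw [← heq]; exact Finset.mem_insert_self _ _
          rw [Finset.mem_insert] at this
          rcases this with h | h
          · exact hxy h
          · exact hx.2 h
        · have : f ⊆ insert x f ∩ insert y f :=
            Finset.subset_inter (Finset.subset_insert _ _) (Finset.subset_insert _ _)
          have := Finset.card_le_card this
          omega
      exact (mem_stables.mp hH).2 _ h _ h' hadj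
  · exact ⟨insert x f, hAf.trans (Finset.subset_insert _ _), Finset.insert_subset hx.1 hfB, hcx, h⟩

lemma stable_ne_all {r : ℕ} {H : Finset (Finset (Fin n))} (hH : H ∈ stables n r) (hr : 1 ≤ r)
    (hrn : r < n) : ∃ S : Finset (Fin n), S.card = r ∧ S ∉ H := by
  obtain ⟨S, _, _, h1, h2⟩ := exists_base_between hH (A := ∅) (B := Finset.univ)
    (Finset.empty_subset _) (by simpa using Nat.lt_of_succ_le hr) (by simpa using hrn)
  exact ⟨S, h1, h2⟩

/-- the matroid with a given stable family of nonbases -/
def mk {r : ℕ} {H : Finset (Finset (Fin n))} (hH : H ∈ stables n r) (hr : 1 ≤ r)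
    (hrn : r < n) : Matroid (Fin n) :=
  Matroid.ofIsBaseOfFinite (E := Set.univ) Set.finite_univ
    (fun B => ∃ S : Finset (Fin n), S.card = r ∧ S ∉ H ∧ (S : Set (Fin n)) = B)
    (by
      obtain ⟨S, h1, h2⟩ := stable_ne_all hH hr hrn
      exact ⟨S, S, h1, h2, rfl⟩)
    (by
      classical
      rintro _ _ ⟨S, hS, hSH, rfl⟩ ⟨T, hT, hTH, rfl⟩ a ha
      have haS : a ∈ S := ha.1
      have haT : a ∉ T := ha.2
      have hTS : (T \ S).card = (S \ T).card := by
        have h1 := Finset.card_sdiff_add_card_inter T S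
        have h2 := Finset.card_sdiff_add_card_inter S T
        rw [Finset.inter_comm] at h1
        omega
      have hpos : 0 < (S \ T).card := Finset.card_pos.mpr ⟨a, Finset.mem_sdiff.mpr ⟨haS, haT⟩⟩
      have hnew : ∀ b ∈ T \ S, (insert b (S.erase a)).card = r := by
        intro b hb
        have hbS : b ∉ S := (Finset.mem_sdiff.mp hb).2
        rw [Finset.card_insert_of_notMem (fun h => hbS (Finset.mem_of_mem_erase h)),
          Finset.card_erase_of_mem haS]
        omega
      have hcoe : ∀ b, ((insert b (S.erase a) : Finset (Fin n)) : Set (Fin n)) =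
          insert b ((S : Set (Fin n)) \ {a}) := by
        intro b
        rw [Finset.coe_insert, Finset.coe_erase]
      by_cases h1 : (T \ S).card = 1
      · obtain ⟨b, hb⟩ := Finset.card_eq_one.mp h1
        have hbm : b ∈ T \ S := by rw [hb]; exact Finset.mem_singleton_self b
        have hSa : S \ T = {a} := by
          obtain ⟨a', ha'⟩ := Finset.card_eq_one.mp (hTS ▸ h1)
          have : a ∈ S \ T := Finset.mem_sdiff.mpr ⟨haS, haT⟩
          rw [ha', Finset.mem_singleton] at this
          rw [ha', this]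
        have hTeq : insert b (S.erase a) = T := by
          ext z
          simp only [Finset.mem_insert, Finset.mem_erase]
          constructor
          · rintro (rfl | ⟨hza, hzS⟩)
            · exact (Finset.mem_sdiff.mp hbm).1
            · by_contra hzT
              have : z ∈ S \ T := Finset.mem_sdiff.mpr ⟨hzS, hzT⟩
              rw [hSa, Finset.mem_singleton] at this
              exact hza this
          · intro hzT
            by_cases hzS : z ∈ S
            · right
              refine ⟨?_, hzS⟩
              rintro rfl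
              exact haT hzT
            · left
              have : z ∈ T \ S := Finset.mem_sdiff.mpr ⟨hzT, hzS⟩
              rw [hb, Finset.mem_singleton] at this
              exact this
        refine ⟨b, ⟨(Finset.mem_sdiff.mp hbm).1, (Finset.mem_sdiff.mp hbm).2⟩, T, hT, hTH, ?_⟩
        rw [← hcoe, hTeq]
      · have h2 : 1 < (T \ S).card := by omega
        obtain ⟨b, hb, c, hc, hbc⟩ := Finset.one_lt_card.mp h2
        by_cases hbH : insert b (S.erase a) ∈ H
        · have hcH : insert c (S.erase a) ∉ H := by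
            intro hcH
            have hadj : adj r (insert b (S.erase a)) (insert c (S.erase a)) := by
              refine ⟨?_, ?_⟩
              · intro heq
                have : b ∈ insert c (S.erase a) := by
                  rw [← heq]; exact Finset.mem_insert_self _ _
                rw [Finset.mem_insert] at this
                rcases this with h | h
                · exact hbc h
                · exact (Finset.mem_sdiff.mp hb).2 (Finset.mem_of_mem_erase h)
              · have : S.erase a ⊆ insert b (S.erase a) ∩ insert c (S.erase a) :=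
                  Finset.subset_inter (Finset.subset_insert _ _) (Finset.subset_insert _ _)
                have := Finset.card_le_card this
                rw [Finset.card_erase_of_mem haS] at this
                omega
            exact (mem_stables.mp hH).2 _ hbH _ hcH hadj
          exact ⟨c, ⟨(Finset.mem_sdiff.mp hc).1, (Finset.mem_sdiff.mp hc).2⟩, _, hnew c hc, hcH,
            hcoe c⟩
        · exact ⟨b, ⟨(Finset.mem_sdiff.mp hb).1, (Finset.mem_sdiff.mp hb).2⟩, _, hnew b hb, hbH,
            hcoe b⟩)
    (fun _ _ => Set.subset_univ _)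

lemma mk_isBase {r : ℕ} {H : Finset (Finset (Fin n))} (hH : H ∈ stables n r) (hr : 1 ≤ r)
    (hrn : r < n) (B : Set (Fin n)) : (mk hH hr hrn).IsBase B ↔
      ∃ S : Finset (Fin n), S.card = r ∧ S ∉ H ∧ (S : Set (Fin n)) = B := Iff.rfl

lemma mk_E {r : ℕ} {H : Finset (Finset (Fin n))} (hH : H ∈ stables n r) (hr : 1 ≤ r)
    (hrn : r < n) : (mk hH hr hrn).E = Set.univ := rfl

lemma mk_eRank {r : ℕ} {H : Finset (Finset (Fin n))} (hH : H ∈ stables n r) (hr : 1 ≤ r)
    (hrn : r < n) : (mk hH hr hrn).eRank = (r : ℕ∞) := by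
  obtain ⟨S, h1, h2⟩ := stable_ne_all hH hr hrn
  have hB : (mk hH hr hrn).IsBase (S : Set (Fin n)) := ⟨S, h1, h2, rfl⟩
  rw [← hB.encard_eq_eRank, Set.encard_coe_eq_coe_finsetCard, h1]

lemma mk_paving {r : ℕ} {H : Finset (Finset (Fin n))} (hH : H ∈ stables n r) (hr : 1 ≤ r)
    (hrn : r < n) : Paving (mk hH hr hrn) := by
  classical
  intro C hC
  by_contra hlt
  rw [not_le, mk_eRank] at hlt
  apply hC.dep.not_indep
  set C' := C.toFinite.toFinset with hC'
  have hCC : (C' : Set (Fin n)) = C := Set.Finite.coe_toFinset _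
  rw [← hCC, Set.encard_coe_eq_coe_finsetCard] at hlt
  have hlt' : C'.card < r := by exact_mod_cast hlt
  obtain ⟨S, hCS, _, h1, h2⟩ := exists_base_between hH (A := C') (B := Finset.univ)
    (Finset.subset_univ _) hlt' (by simpa using hrn)
  have hB : (mk hH hr hrn).IsBase (S : Set (Fin n)) := ⟨S, h1, h2, rfl⟩
  rw [← hCC]
  exact hB.indep.subset (by exact_mod_cast hCS)

lemma mk_paving_dual {r : ℕ} {H : Finset (Finset (Fin n))} (hH : H ∈ stables n r) (hr : 1 ≤ r)
    (hrn : r < n) : Paving (mk hH hr hrn)✶ := by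
  classical
  intro C hC
  by_contra hlt
  rw [not_le, dual_eRank (mk_E hH hr hrn) (mk_eRank hH hr hrn)] at hlt
  apply hC.dep.not_indep
  set C' := C.toFinite.toFinset with hC'
  have hCC : (C' : Set (Fin n)) = C := Set.Finite.coe_toFinset _
  rw [← hCC, Set.encard_coe_eq_coe_finsetCard] at hlt
  have hlt' : C'.card < n - r := by exact_mod_cast hlt
  obtain ⟨S, _, hSC, h1, h2⟩ := exists_base_between hH (A := ∅) (B := C'ᶜ)
    (Finset.empty_subset _) (by simpa using Nat.lt_of_succ_le hr)
    (by rw [Finset.card_compl, Fintype.card_fin]; omega)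
  have hB : (mk hH hr hrn).IsBase (S : Set (Fin n)) := ⟨S, h1, h2, rfl⟩
  have h3 := hB.compl_isBase_dual.indep
  rw [← hCC]
  refine h3.subset ?_
  rw [mk_E, ← Set.compl_eq_univ_sdiff, Set.subset_compl_comm]
  intro x hx hx2
  exact (Finset.mem_compl.mp (hSC (by exact_mod_cast hx))) (by exact_mod_cast hx2)

lemma mk_SP {r : ℕ} {H : Finset (Finset (Fin n))} (hH : H ∈ stables n r) (hr : 1 ≤ r)
    (hrn : r < n) : SP r (mk hH hr hrn) :=
  ⟨mk_E hH hr hrn, ⟨mk_paving hH hr hrn, mk_paving_dual hH hr hrn⟩, mk_eRank hH hr hrn⟩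

lemma nb_mk {r : ℕ} {H : Finset (Finset (Fin n))} (hH : H ∈ stables n r) (hr : 1 ≤ r)
    (hrn : r < n) : nb r (mk hH hr hrn) = H := by
  ext S
  rw [mem_nb]
  constructor
  · rintro ⟨hS, hdep⟩
    by_contra hSH
    exact hdep (Matroid.IsBase.indep (M := mk hH hr hrn) ⟨S, hS, hSH, rfl⟩)
  · intro hSH
    have hS : S.card = r := mem_Base.mp ((mem_stables.mp hH).1 hSH)
    refine ⟨hS, fun hI => ?_⟩
    obtain ⟨B, hB, hSB⟩ := hI.exists_isBase_superset
    obtain ⟨T, hT, hTH, rfl⟩ := hB
    have hST : S ⊆ T := by exact_mod_cast hSB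
    have : S = T := Finset.eq_of_subset_of_card_le hST (by omega)
    exact hTH (this ▸ hSH)

open Classical in
/-- counting matroids through their nonbases -/
lemma card_SP_filter {r : ℕ} (hr : 1 ≤ r) (hrn : r < n) (Q : Finset (Finset (Fin n)) → Prop) :
    Nat.card {M : Matroid (Fin n) // SP r M ∧ Q (nb r M)} = ((stables n r).filter Q).card := by
  rw [← Nat.card_eq_finsetCard]
  refine Nat.card_congr ⟨fun M => ⟨nb r M.1, Finset.mem_filter.mpr ⟨M.2.1.stable, M.2.2⟩⟩,
    fun H => ⟨mk (Finset.mem_filter.mp H.2).1 hr hrn, mk_SP _ hr hrn, ?_⟩, ?_, ?_⟩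
  · rw [nb_mk]; exact (Finset.mem_filter.mp H.2).2
  · intro M
    apply Subtype.ext
    apply SP.ext (mk_SP M.2.1.stable hr hrn) M.2.1
    exact nb_mk _ hr hrn
  · intro H
    apply Subtype.ext
    simp only [nb_mk]

end Pool.Agent.H28.SPMatroid
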