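import Mathlib
import Pool.Agent.H28.SPMatroid

open scoped BigOperators

namespace Pool.Agent.H28.V8

open Pool.Agent.H28.Johnson Pool.Agent.H28.KW Pool.Agent.H28.Windows Pool.Agent.H28.SPMatroid

/-- `M` has a minor isomorphic to the Vámos matroid. -/
def HasV8 {n : ℕ} (M : Matroid (Fin n)) : Prop :=
  ∃ C D : Set (Fin n), ∃ φ : Fin 8 → Fin n, Function.Injective φ ∧
    Set.range φ = ((M.contract C).delete D).E ∧
    ∀ I : Finset (Fin 8),
      (((M.contract C).delete D).Indep (φ '' (I : Set (Fin 8))) ↔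
        (I.card ≤ 3 ∨
          (I.card = 4 ∧ I ≠ ({0, 1, 2, 3} : Finset (Fin 8)) ∧
            I ≠ ({0, 1, 4, 5} : Finset (Fin 8)) ∧
            I ≠ ({0, 1, 6, 7} : Finset (Fin 8)) ∧
            I ≠ ({2, 3, 4, 5} : Finset (Fin 8)) ∧
            I ≠ ({2, 3, 6, 7} : Finset (Fin 8)))))

/-- the dependent 4-sets of the Vámos matroid -/
def patt : Finset (Finset (Fin 8)) := {{0, 1, 2, 3}, {0, 1, 4, 5}, {0, 1, 6, 7}, {2, 3, 4, 5},
  {2, 3, 6, 7}}

set_option maxRecDepth 20000 in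
lemma patt_card : ∀ Q ∈ patt, Q.card = 4 := by decide

set_option maxRecDepth 20000 in
lemma card_patt : patt.card = 5 := by decide

set_option maxRecDepth 20000 in
lemma patt_inter : ∀ Q ∈ patt, ∀ Q' ∈ patt, Q ≠ Q' → (Q ∩ Q').card ≤ 2 := by decide

variable {n : ℕ}

instance finite_matroid : Finite (Matroid (Fin n)) := by
  apply Finite.of_injective (fun M : Matroid (Fin n) => (M.E, {I : Set (Fin n) | M.Indep I}))
  intro M N h
  simp only [Prod.mk.injEq] at h
  refine Matroid.ext_indep h.1 (fun I _ => ?_)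
  have := Set.ext_iff.mp h.2 I
  exact this

/-- the location of a potential Vámos minor -/
def loc (Y : Finset (Fin n)) (φ : Fin 8 ↪ Fin n) (Q : Finset (Fin 8)) : Finset (Fin n) := Y ∪ Q.map φ

def T0 (Y : Finset (Fin n)) (φ : Fin 8 ↪ Fin n) : Finset (Finset (Fin n)) :=
  ((Finset.univ : Finset (Fin 8)).powersetCard 4).image (loc Y φ)

def P0 (Y : Finset (Fin n)) (φ : Fin 8 ↪ Fin n) : Finset (Finset (Fin n)) := patt.image (loc Y φ)

open Classical in
noncomputable def W0 (r : ℕ) (Y : Finset (Fin n)) (φ : Fin 8 ↪ Fin n) : Finset (Finset (Fin n)) :=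
  T0 Y φ ∪ (P0 Y φ).biUnion fun p => (Base n r).filter fun u => adj r p u

lemma loc_disj {Y : Finset (Fin n)} {φ : Fin 8 ↪ Fin n} (hd : ∀ i, φ i ∉ Y) (Q : Finset (Fin 8)) :
    Disjoint Y (Q.map φ) := by
  rw [Finset.disjoint_left]
  intro x hx hx2
  rw [Finset.mem_map] at hx2
  obtain ⟨i, _, rfl⟩ := hx2
  exact hd i hx

lemma loc_card {Y : Finset (Fin n)} {φ : Fin 8 ↪ Fin n} (hd : ∀ i, φ i ∉ Y) (Q : Finset (Fin 8)) :
    (loc Y φ Q).card = Y.card + Q.card := by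
  rw [loc, Finset.card_union_of_disjoint (loc_disj hd Q), Finset.card_map]

lemma loc_inj {Y : Finset (Fin n)} {φ : Fin 8 ↪ Fin n} (hd : ∀ i, φ i ∉ Y) :
    Function.Injective (loc Y φ) := by
  intro Q Q' h
  have key : ∀ Q : Finset (Fin 8), (loc Y φ Q) \ Y = Q.map φ := by
    intro Q
    rw [loc, Finset.union_sdiff_left, Finset.sdiff_eq_self_of_disjoint (loc_disj hd Q).symm]
  have h1 := key Q
  rw [h, key Q'] at h1
  exact (Finset.map_injective φ h1).symm

lemma P0_subset_T0 (Y : Finset (Fin n)) (φ : Fin 8 ↪ Fin n) : P0 Y φ ⊆ T0 Y φ := by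
  apply Finset.image_subset_image
  intro Q hQ
  rw [Finset.mem_powersetCard]
  exact ⟨Finset.subset_univ _, patt_card Q hQ⟩

lemma T0_subset_W0 (r : ℕ) (Y : Finset (Fin n)) (φ : Fin 8 ↪ Fin n) : T0 Y φ ⊆ W0 r Y φ :=
  Finset.subset_union_left

lemma T0_subset_Base {r : ℕ} {Y : Finset (Fin n)} {φ : Fin 8 ↪ Fin n} (hd : ∀ i, φ i ∉ Y)
    (hY : Y.card + 4 = r) : T0 Y φ ⊆ Base n r := by
  intro t ht
  rw [T0, Finset.mem_image] at ht
  obtain ⟨Q, hQ, rfl⟩ := ht
  rw [Finset.mem_powersetCard] at hQ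
  rw [mem_Base, loc_card hd, hQ.2, hY]

lemma W0_subset_Base {r : ℕ} {Y : Finset (Fin n)} {φ : Fin 8 ↪ Fin n} (hd : ∀ i, φ i ∉ Y)
    (hY : Y.card + 4 = r) : W0 r Y φ ⊆ Base n r := by
  classical
  apply Finset.union_subset (T0_subset_Base hd hY)
  intro u hu
  rw [Finset.mem_biUnion] at hu
  obtain ⟨p, _, hu⟩ := hu
  exact (Finset.mem_filter.mp hu).1

lemma card_T0 (Y : Finset (Fin n)) (φ : Fin 8 ↪ Fin n) : (T0 Y φ).card ≤ 70 := by
  refine Finset.card_image_le.trans ?_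
  rw [Finset.card_powersetCard]
  decide

lemma card_W0 {r : ℕ} {Y : Finset (Fin n)} {φ : Fin 8 ↪ Fin n} (hd : ∀ i, φ i ∉ Y)
    (hY : Y.card + 4 = r) : (W0 r Y φ).card ≤ 70 + 5 * (r * (n - r)) := by
  classical
  refine (Finset.card_union_le _ _).trans (add_le_add (card_T0 Y φ) ?_)
  refine Finset.card_biUnion_le.trans ?_
  calc ∑ p ∈ P0 Y φ, ((Base n r).filter fun u => adj r p u).card
      ≤ ∑ _p ∈ P0 Y φ, r * (n - r) := Finset.sum_le_sum fun p hp =>
        card_nbr (T0_subset_Base hd hY (P0_subset_T0 Y φ hp))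
    _ = (P0 Y φ).card * (r * (n - r)) := by rw [Finset.sum_const, smul_eq_mul]
    _ ≤ 5 * (r * (n - r)) := Nat.mul_le_mul_right _ (Finset.card_image_le.trans (le_of_eq card_patt))

lemma P0_indep {r : ℕ} {Y : Finset (Fin n)} {φ : Fin 8 ↪ Fin n} (hd : ∀ i, φ i ∉ Y)
    (hY : Y.card + 4 = r) : Indep (adj r) (P0 Y φ) := by
  intro a ha b hb hab
  rw [P0, Finset.mem_image] at ha hb
  obtain ⟨Q, hQ, rfl⟩ := ha
  obtain ⟨Q', hQ', rfl⟩ := hb
  have hne : Q ≠ Q' := fun h => hab.1 (by rw [h])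
  have h1 : loc Y φ Q ∩ loc Y φ Q' = loc Y φ (Q ∩ Q') := by
    rw [loc, loc, loc, Finset.map_inter, Finset.union_inter_distrib_left]
  have h2 := hab.2
  have h3 := patt_inter Q hQ Q' hQ' hne
  rw [h1, loc_card hd] at h2
  omega

lemma W0_closed {r : ℕ} {Y : Finset (Fin n)} {φ : Fin 8 ↪ Fin n} :
    ∀ p ∈ P0 Y φ, ∀ u ∈ Base n r, adj r p u → u ∈ W0 r Y φ := by
  classical
  intro p hp u hu h
  rw [W0, Finset.mem_union]
  right
  rw [Finset.mem_biUnion]
  exact ⟨p, hp, Finset.mem_filter.mpr ⟨hu, h⟩⟩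

/-- a location where the nonbases show the Vámos pattern gives a Vámos minor -/
lemma hasV8_of_loc {r : ℕ} {M : Matroid (Fin n)} (hM : SP r M)
    {Y' : Finset (Fin n)} {ψ : Fin 8 ↪ Fin n} (hd' : ∀ i, ψ i ∉ Y')
    (hY'c : Y'.card + 4 = r)
    (hmem : ∀ Q : Finset (Fin 8), Q.card = 4 → (loc Y' ψ Q ∈ nb r M ↔ Q ∈ patt)) : HasV8 M := by
  classical
  have hE : M.E = Set.univ := hM.1
  have hYI : M.Indep (Y' : Set (Fin n)) := (hM.indep_iff Y').mpr (Or.inl (by omega))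
  have hdisj : ∀ X : Finset (Fin 8), Disjoint (ψ '' (X : Set (Fin 8))) (Y' : Set (Fin n)) := by
    intro X
    rw [Set.disjoint_left]
    rintro _ ⟨i, _, rfl⟩ hi
    exact hd' i (by exact_mod_cast hi)
  refine ⟨(Y' : Set (Fin n)), ((Y' : Set (Fin n)) ∪ Set.range ψ)ᶜ, ψ, ψ.injective, ?_, ?_⟩
  · rw [Matroid.delete_ground, Matroid.contract_ground, hE]
    ext x
    simp only [Set.mem_sdiff, Set.mem_univ, true_and, Set.mem_compl_iff, Set.mem_union, not_not]
    constructor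
    · rintro ⟨i, rfl⟩
      exact ⟨fun h => hd' i (by exact_mod_cast h), Or.inr ⟨i, rfl⟩⟩
    · rintro ⟨h1, h2 | h2⟩
      · exact absurd h2 h1
      · exact h2
  · intro I
    have hset : (ψ '' (I : Set (Fin 8))) ∪ (Y' : Set (Fin n)) =
        ((loc Y' ψ I : Finset (Fin n)) : Set (Fin n)) := by
      rw [loc, Finset.coe_union, Finset.coe_map, Set.union_comm]
    rw [Matroid.delete_indep_iff, hYI.contract_indep_iff, hset, hM.indep_iff, loc_card hd']
    have hdis1 := hdisj I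
    have hdis2 : Disjoint (ψ '' (I : Set (Fin 8))) ((Y' : Set (Fin n)) ∪ Set.range ψ)ᶜ := by
      rw [Set.disjoint_left]
      rintro _ ⟨i, _, rfl⟩ hi
      exact hi (Or.inr ⟨i, rfl⟩)
    simp only [hdis1, hdis2, true_and, and_true]
    have h4 : (I.card = 4 ∧ loc Y' ψ I ∉ nb r M) ↔ (I.card = 4 ∧ I ∉ patt) := by
      constructor
      · rintro ⟨h1, h2⟩; exact ⟨h1, fun h => h2 ((hmem I h1).mpr h)⟩
      · rintro ⟨h1, h2⟩; exact ⟨h1, fun h => h2 ((hmem I h1).mp h)⟩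
    have h5 : (Y'.card + I.card = r ∧ loc Y' ψ I ∉ nb r M) ↔ (I.card = 4 ∧ I ∉ patt) := by
      rw [← h4]
      constructor
      · rintro ⟨h1, h2⟩; exact ⟨by omega, h2⟩
      · rintro ⟨h1, h2⟩; exact ⟨by omega, h2⟩
    rw [h5]
    have h6 : I ∉ patt ↔ (I ≠ ({0, 1, 2, 3} : Finset (Fin 8)) ∧
            I ≠ ({0, 1, 4, 5} : Finset (Fin 8)) ∧
            I ≠ ({0, 1, 6, 7} : Finset (Fin 8)) ∧
            I ≠ ({2, 3, 4, 5} : Finset (Fin 8)) ∧
            I ≠ ({2, 3, 6, 7} : Finset (Fin 8))) := by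
      simp only [patt, Finset.mem_insert, Finset.mem_singleton, not_or, ne_eq]
    rw [h6]
    have h7 : Y'.card + I.card < r ↔ I.card ≤ 3 := by omega
    rw [h7]

/-- a pattern in a translate of the window gives a location -/
lemma loc_of_pattern {r : ℕ} {H : Finset (Finset (Fin n))}
    {Y : Finset (Fin n)} {φ : Fin 8 ↪ Fin n} (hd : ∀ i, φ i ∉ Y)
    (hY : Y.card + 4 = r) (π : Equiv.Perm (Fin n))
    (hpat : H ∩ wnd (T0 Y φ) π = wnd (P0 Y φ) π) :
    ∃ (Y' : Finset (Fin n)) (ψ : Fin 8 ↪ Fin n), (∀ i, ψ i ∉ Y') ∧ Y'.card + 4 = r ∧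
      ∀ Q : Finset (Fin 8), Q.card = 4 → (loc Y' ψ Q ∈ H ↔ Q ∈ patt) := by
  classical
  set Y' := act π Y with hY'
  set ψ : Fin 8 ↪ Fin n := φ.trans π.toEmbedding with hψ
  have hY'c : Y'.card + 4 = r := by rw [hY', card_act, hY]
  have hd' : ∀ i, ψ i ∉ Y' := by
    intro i hi
    rw [hY', act_apply, Finset.mem_map] at hi
    obtain ⟨x, hx, hxe⟩ := hi
    have : x = φ i := π.injective hxe
    exact hd i (this ▸ hx)
  have hloc : ∀ Q : Finset (Fin 8), act π (loc Y φ Q) = loc Y' ψ Q := by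
    intro Q
    rw [act_apply, loc, loc, Finset.map_union, hY', act_apply, hψ, Finset.map_map]
  refine ⟨Y', ψ, hd', hY'c, ?_⟩
  intro Q hQ
  have hT : loc Y' ψ Q ∈ wnd (T0 Y φ) π := by
    rw [← hloc, act_mem_wnd, T0, Finset.mem_image]
    exact ⟨Q, Finset.mem_powersetCard.mpr ⟨Finset.subset_univ _, hQ⟩, rfl⟩
  have h1 : loc Y' ψ Q ∈ H ↔ loc Y' ψ Q ∈ H ∩ wnd (T0 Y φ) π := by
    rw [Finset.mem_inter]; exact ⟨fun h => ⟨h, hT⟩, fun h => h.1⟩
  rw [h1, hpat, ← hloc, act_mem_wnd, P0, Finset.mem_image]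
  constructor
  · rintro ⟨Q', hQ', he⟩
    rwa [← loc_inj hd he]
  · intro h
    exact ⟨Q, h, rfl⟩

/-- a pattern in the nonbases gives a Vámos minor -/
lemma hasV8_of_pattern {r : ℕ} {M : Matroid (Fin n)} (hM : SP r M)
    {Y : Finset (Fin n)} {φ : Fin 8 ↪ Fin n} (hd : ∀ i, φ i ∉ Y)
    (hY : Y.card + 4 = r) (π : Equiv.Perm (Fin n))
    (hpat : nb r M ∩ wnd (T0 Y φ) π = wnd (P0 Y φ) π) : HasV8 M := by
  obtain ⟨Y', ψ, hd', hY'c, hmem⟩ := loc_of_pattern hd hY π hpat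
  exact hasV8_of_loc hM hd' hY'c hmem

/-- the symmetry exchanging the pairs -/
def sig : Equiv.Perm (Fin 8) where
  toFun i := i + 4
  invFun i := i + 4
  left_inv := by decide
  right_inv := by decide

set_option maxRecDepth 100000 in
lemma patt_sig : ∀ Q ∈ (Finset.univ : Finset (Fin 8)).powersetCard 4,
    ((Qᶜ).map sig.toEmbedding ∈ patt ↔ Q ∈ patt) := by decide

lemma SP.dual {r : ℕ} {M : Matroid (Fin n)} (h : SP r M) : SP (n - r) M✶ := by
  refine ⟨by rw [Matroid.dual_ground, h.1], ⟨h.2.1.2, by rw [Matroid.dual_dual]; exact h.2.1.1⟩,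
    dual_eRank h.1 h.2.2⟩

/-- nonbases of the dual are complements of nonbases -/
lemma mem_nb_dual {r : ℕ} {M : Matroid (Fin n)} (h : SP r M) (S : Finset (Fin n)) :
    Sᶜ ∈ nb (n - r) M✶ ↔ S ∈ nb r M := by
  classical
  have hrn := h.rank_le
  rw [mem_nb, mem_nb, Finset.card_compl, Fintype.card_fin]
  have hSn : S.card ≤ n := by
    have := Finset.card_le_univ S
    rwa [Fintype.card_fin] at this
  have h1 : n - S.card = n - r ↔ S.card = r := by omega
  rw [h1]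
  refine and_congr_right fun hS => not_congr ?_
  have hSE : (S : Set (Fin n)) ⊆ M.E := by rw [h.1]; exact Set.subset_univ _
  have hbase : ∀ (k : ℕ) (N : Matroid (Fin n)), N.eRank = (k : ℕ∞) → ∀ T : Finset (Fin n),
      T.card = k → (N.Indep (T : Set (Fin n)) ↔ N.IsBase (T : Set (Fin n))) := by
    intro k N hN T hT
    constructor
    · intro hI
      obtain ⟨B, hB, hTB⟩ := hI.exists_isBase_superset
      have h2 : B.encard = k := by rw [hB.encard_eq_eRank, hN]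
      have h3 : (T : Set (Fin n)).encard = k := by
        rw [Set.encard_coe_eq_coe_finsetCard, hT]
      have h4 : (T : Set (Fin n)) = B :=
        T.finite_toSet.eq_of_subset_of_encard_le hTB (by rw [h2, h3])
      rw [h4]; exact hB
    · intro hB; exact hB.indep
  rw [hbase (n - r) M✶ (dual_eRank h.1 h.2.2) Sᶜ (by rw [Finset.card_compl, Fintype.card_fin, hS]),
    hbase r M h.2.2 S hS, Finset.coe_compl, Set.compl_eq_univ_sdiff, ← h.1]
  exact (Matroid.base_iff_dual_isBase_compl hSE).symm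

/-- a pattern in the dual gives a Vámos minor -/
lemma hasV8_of_dual_pattern {r : ℕ} {M : Matroid (Fin n)} (hM : SP (n - r) M) (hr4 : r + 4 ≤ n)
    {Y : Finset (Fin n)} {φ : Fin 8 ↪ Fin n} (hd : ∀ i, φ i ∉ Y)
    (hY : Y.card + 4 = r) (π : Equiv.Perm (Fin n))
    (hpat : nb r M✶ ∩ wnd (T0 Y φ) π = wnd (P0 Y φ) π) : HasV8 M := by
  classical
  obtain ⟨Y', ψ, hd', hY'c, hmem⟩ := loc_of_pattern hd hY π hpat
  set Y2 : Finset (Fin n) := (Y' ∪ Finset.univ.map ψ)ᶜ with hY2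
  set ψ2 : Fin 8 ↪ Fin n := sig.toEmbedding.trans ψ with hψ2
  have hd2 : ∀ i, ψ2 i ∉ Y2 := by
    intro i hi
    rw [hY2, Finset.mem_compl, Finset.mem_union, not_or] at hi
    exact hi.2 (Finset.mem_map.mpr ⟨sig i, Finset.mem_univ _, rfl⟩)
  have hY2c : Y2.card + 4 = n - r := by
    have h1 := loc_card hd' (Finset.univ : Finset (Fin 8))
    rw [loc] at h1
    rw [hY2, Finset.card_compl, Fintype.card_fin, h1, Finset.card_univ, Fintype.card_fin]
    omega
  refine hasV8_of_loc hM hd2 hY2c ?_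
  intro Q hQ
  have hcomp : (loc Y2 ψ2 Q)ᶜ = loc Y' ψ ((Qᶜ).map sig.toEmbedding) := by
    rw [loc, loc, hY2, Finset.compl_union, compl_compl]
    ext x
    simp only [hψ2, Finset.mem_compl, Finset.mem_union, Finset.mem_inter, Finset.mem_map,
      Finset.mem_univ, true_and, Function.Embedding.trans_apply, Equiv.coe_toEmbedding]
    constructor
    · rintro ⟨h1 | ⟨i, rfl⟩, h2⟩
      · exact Or.inl h1
      · right
        refine ⟨i, ⟨sig.symm i, ?_, by simp⟩, rfl⟩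
        intro hi
        exact h2 ⟨sig.symm i, hi, by simp⟩
    · rintro (h1 | ⟨_, ⟨j, hj, rfl⟩, rfl⟩)
      · refine ⟨Or.inl h1, ?_⟩
        rintro ⟨j, _, rfl⟩
        exact hd' _ h1
      · refine ⟨Or.inr ⟨_, rfl⟩, ?_⟩
        rintro ⟨k, hk, hkj⟩
        have := sig.injective (ψ.injective hkj)
        exact hj (this ▸ hk)
  have hnr : n - (n - r) = r := by omega
  have h1 := mem_nb_dual hM (loc Y2 ψ2 Q)
  rw [hnr, hcomp] at h1
  rw [← h1, hmem _ (by rw [Finset.card_map, Finset.card_compl, Fintype.card_fin, hQ])]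
  exact patt_sig Q (Finset.mem_powersetCard.mpr ⟨Finset.subset_univ _, hQ⟩)

/-- choice of the base location -/
lemma exists_loc {r : ℕ} (hr : 4 ≤ r) (hrn : r + 4 ≤ n) :
    ∃ (Y : Finset (Fin n)) (φ : Fin 8 ↪ Fin n), (∀ i, φ i ∉ Y) ∧ Y.card + 4 = r := by
  classical
  obtain ⟨Y, hY⟩ := Finset.exists_subset_card_eq (s := (Finset.univ : Finset (Fin n))) (n := r - 4)
    (by rw [Finset.card_univ, Fintype.card_fin]; omega)
  have hc : 8 ≤ Yᶜ.card := by rw [Finset.card_compl, Fintype.card_fin, hY.2]; omega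
  obtain ⟨Z, hZ, hZc⟩ := Finset.exists_subset_card_eq hc
  have e : Fin 8 ≃ {x // x ∈ Z} := by
    refine (Fintype.equivFinOfCardEq (by simp [hZc])).symm
  refine ⟨Y, ⟨fun i => (e i : Fin n), fun i j h => e.injective (Subtype.ext h)⟩, ?_, by omega⟩
  intro i hi
  exact (Finset.mem_compl.mp (hZ (e i).2)) hi

/-- few stable families avoid the pattern at all places -/
theorem few_noPattern {r : ℕ} (hrn : r + 4 ≤ n) (μ : ℝ)
    {Y : Finset (Fin n)} {φ : Fin 8 ↪ Fin n} (hd : ∀ i, φ i ∉ Y) (hY : Y.card + 4 = r)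
    (hW : 70 + 5 * (r * (n - r)) < n.choose r)
    (hμ : (70 * (70 + 5 * (r * (n - r)) : ℕ) : ℝ) / n.choose r *
      ((stables n r).card : ℝ) ^ (((70 + 5 * (r * (n - r)) : ℕ) : ℝ) / n.choose r) ≤ μ) (J : ℕ) :
    (Nat.card {M : Matroid (Fin n) // SP r M ∧
      ∀ π : Equiv.Perm (Fin n), nb r M ∩ wnd (T0 Y φ) π ≠ wnd (P0 Y φ) π} : ℝ) ≤
      (J * μ) ^ J * Nat.card {M : Matroid (Fin n) // SP r M} := by
  classical
  have hNpos : 0 < n.choose r := Nat.choose_pos (by omega)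
  have hNr : (0 : ℝ) < n.choose r := by exact_mod_cast hNpos
  have hWc := card_W0 hd hY (n := n)
  have hpos : 1 ≤ ((stables n r).card : ℝ) := by
    have : 0 < (stables n r).card := by
      apply Finset.card_pos.mpr
      exact ⟨∅, mem_stables.mpr ⟨Finset.empty_subset _, fun a ha => by simp at ha⟩⟩
    exact_mod_cast this
  have hfew := few_patterns (T0 Y φ) (P0 Y φ) (W0 r Y φ) (by omega) (P0_subset_T0 Y φ)
    (T0_subset_W0 r Y φ) (W0_subset_Base hd hY) (P0_indep hd hY) W0_closed (by omega) μ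
    (by
      refine le_trans ?_ hμ
      apply mul_le_mul
      · apply div_le_div_of_nonneg_right _ hNr.le
        apply mul_le_mul
        · exact_mod_cast card_T0 Y φ
        · exact_mod_cast hWc
        · positivity
        · positivity
      · apply Real.rpow_le_rpow_of_exponent_le hpos
        apply div_le_div_of_nonneg_right _ hNr.le
        exact_mod_cast hWc
      · positivity
      · positivity) J
  have htot : Nat.card {M : Matroid (Fin n) // SP r M} = (stables n r).card := by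
    have := card_SP_filter (n := n) (r := r) (by omega) (by omega) (fun _ => True)
    simp only [and_true, Finset.filter_true] at this
    convert this using 1
  rw [htot]
  refine le_trans (le_of_eq ?_) hfew
  rw [card_SP_filter (by omega) (by omega)
    (fun H => ∀ π : Equiv.Perm (Fin n), H ∩ wnd (T0 Y φ) π ≠ wnd (P0 Y φ) π)]
  congr 2
  ext H
  simp only [Finset.mem_filter]

/-- the labelled counting statement -/
theorem card_noV8_le {r : ℕ} (hr : 4 ≤ r) (hrn : r + 4 ≤ n) (μ : ℝ)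
    (hW : 70 + 5 * (r * (n - r)) < n.choose r)
    (hμ : (70 * (70 + 5 * (r * (n - r)) : ℕ) : ℝ) / n.choose r *
      ((stables n r).card : ℝ) ^ (((70 + 5 * (r * (n - r)) : ℕ) : ℝ) / n.choose r) ≤ μ) (J : ℕ) :
    (Nat.card {M : Matroid (Fin n) // SP r M ∧ ¬ HasV8 M} : ℝ) ≤
      (J * μ) ^ J * Nat.card {M : Matroid (Fin n) // SP r M} := by
  classical
  obtain ⟨Y, φ, hd, hY⟩ := exists_loc hr hrn
  refine le_trans ?_ (few_noPattern hrn μ hd hY hW hμ J)
  have hle : Nat.card {M : Matroid (Fin n) // SP r M ∧ ¬ HasV8 M} ≤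
      Nat.card {M : Matroid (Fin n) // SP r M ∧
        ∀ π : Equiv.Perm (Fin n), nb r M ∩ wnd (T0 Y φ) π ≠ wnd (P0 Y φ) π} := by
    apply Nat.card_le_card_of_injective
      (fun M : {M : Matroid (Fin n) // SP r M ∧ ¬ HasV8 M} =>
        (⟨M.1, M.2.1, fun π hπ => M.2.2 (hasV8_of_pattern M.2.1 hd hY π hπ)⟩ :
          {M : Matroid (Fin n) // SP r M ∧
            ∀ π : Equiv.Perm (Fin n), nb r M ∩ wnd (T0 Y φ) π ≠ wnd (P0 Y φ) π}))
    intro A B h
    simp only [Subtype.mk.injEq] at h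
    exact Subtype.ext h
  exact Nat.cast_le.mpr hle

/-- the labelled counting statement for large ranks -/
theorem card_noV8_le_dual {r : ℕ} (hr : 4 ≤ r) (hrn : r + 4 ≤ n) (μ : ℝ)
    (hW : 70 + 5 * (r * (n - r)) < n.choose r)
    (hμ : (70 * (70 + 5 * (r * (n - r)) : ℕ) : ℝ) / n.choose r *
      ((stables n r).card : ℝ) ^ (((70 + 5 * (r * (n - r)) : ℕ) : ℝ) / n.choose r) ≤ μ) (J : ℕ) :
    (Nat.card {M : Matroid (Fin n) // SP (n - r) M ∧ ¬ HasV8 M} : ℝ) ≤
      (J * μ) ^ J * Nat.card {M : Matroid (Fin n) // SP (n - r) M} := by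
  classical
  obtain ⟨Y, φ, hd, hY⟩ := exists_loc hr hrn
  have hnr : n - (n - r) = r := by omega
  have hdu : ∀ M : Matroid (Fin n), SP (n - r) M → SP r M✶ := by
    intro M hM
    have := SP.dual hM
    rwa [hnr] at this
  have htot : Nat.card {M : Matroid (Fin n) // SP (n - r) M} =
      Nat.card {M : Matroid (Fin n) // SP r M} := by
    refine Nat.card_congr ⟨fun M => ⟨M.1✶, hdu M.1 M.2⟩, fun M => ⟨M.1✶, SP.dual M.2⟩, ?_, ?_⟩
    · intro M; exact Subtype.ext (Matroid.dual_dual _)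
    · intro M; exact Subtype.ext (Matroid.dual_dual _)
  rw [htot]
  refine le_trans ?_ (few_noPattern hrn μ hd hY hW hμ J)
  have hle : Nat.card {M : Matroid (Fin n) // SP (n - r) M ∧ ¬ HasV8 M} ≤
      Nat.card {M : Matroid (Fin n) // SP r M ∧
        ∀ π : Equiv.Perm (Fin n), nb r M ∩ wnd (T0 Y φ) π ≠ wnd (P0 Y φ) π} := by
    apply Nat.card_le_card_of_injective
      (fun M : {M : Matroid (Fin n) // SP (n - r) M ∧ ¬ HasV8 M} =>
        (⟨M.1✶, hdu M.1 M.2.1, fun π hπ => M.2.2 (hasV8_of_dual_pattern M.2.1 hrn hd hY π hπ)⟩ :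
          {M : Matroid (Fin n) // SP r M ∧
            ∀ π : Equiv.Perm (Fin n), nb r M ∩ wnd (T0 Y φ) π ≠ wnd (P0 Y φ) π}))
    intro A B h
    simp only [Subtype.mk.injEq] at h
    exact Subtype.ext (Matroid.dual_injective h)
  exact Nat.cast_le.mpr hle

end Pool.Agent.H28.V8
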