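import Mathlib

open MeasureTheory ProbabilityTheory
open scoped ENNReal NNReal BigOperators

namespace Pool.Agent.H28.GaussLowDeg

/-- Moments of the standard Gaussian. -/
noncomputable def gm (j : ℕ) : ℝ := ∫ z, z ^ j ∂(gaussianReal 0 1)

lemma integrable_pow_gauss (j : ℕ) : Integrable (fun z : ℝ => z ^ j) (gaussianReal 0 1) := by
  have h := (memLp_id_gaussianReal (μ := 0) (v := 1) (j : ℝ≥0)).integrable_norm_pow'
  have h2 : Integrable (fun z : ℝ => |z| ^ j) (gaussianReal 0 1) := by
    simpa using h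
  refine h2.mono (by fun_prop) ?_
  filter_upwards with z
  simp

lemma gm_zero : gm 0 = 1 := by simp [gm]

lemma gm_one : gm 1 = 0 := by
  simp [gm]

lemma integrable_pow_pdf (j : ℕ) :
    Integrable (fun z : ℝ => z ^ j * gaussianPDFReal 0 1 z) := by
  have h := integrable_pow_gauss j
  rw [gaussianReal_of_var_ne_zero 0 one_ne_zero] at h
  rw [integrable_withDensity_iff_integrable_smul' (measurable_gaussianPDF 0 1)
    (Filter.Eventually.of_forall fun x => gaussianPDF_lt_top)] at h
  refine h.congr ?_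
  filter_upwards with z
  simp [toReal_gaussianPDF, mul_comm]

lemma integral_gauss_eq (f : ℝ → ℝ) :
    ∫ z, f z ∂(gaussianReal 0 1) = ∫ z, f z * gaussianPDFReal 0 1 z := by
  rw [integral_gaussianReal_eq_integral_smul one_ne_zero]
  simp [mul_comm]

lemma hasDerivAt_pdf (x : ℝ) :
    HasDerivAt (fun z => gaussianPDFReal 0 1 z) (-x * gaussianPDFReal 0 1 x) x := by
  have : (fun z => gaussianPDFReal 0 1 z) =
      fun z : ℝ => (Real.sqrt (2 * Real.pi * (1 : ℝ≥0)))⁻¹ * Real.exp (-(z - 0) ^ 2 / (2 * (1 : ℝ≥0))) := by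
    ext z; rfl
  rw [this]
  have h1 : HasDerivAt (fun z : ℝ => -(z - 0) ^ 2 / (2 * ((1 : ℝ≥0) : ℝ))) (-x) x := by
    have := (((hasDerivAt_id x).sub_const 0).pow 2).neg.div_const (2 * ((1 : ℝ≥0) : ℝ))
    have e : -(↑2 * (id x - 0) ^ (2 - 1) * 1) / (2 * ((1 : ℝ≥0) : ℝ)) = -x := by
      simp
      ring
    rw [← e]
    exact this
  have h2 := (h1.exp).const_mul (Real.sqrt (2 * Real.pi * (1 : ℝ≥0)))⁻¹
  have e2 : -x * gaussianPDFReal 0 1 x = (Real.sqrt (2 * Real.pi * (1 : ℝ≥0)))⁻¹ *
      (Real.exp (-(x - 0) ^ 2 / (2 * ((1 : ℝ≥0) : ℝ))) * -x) := by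
    unfold gaussianPDFReal
    ring
  rw [e2]
  exact h2

lemma gm_succ_succ (j : ℕ) : gm (j + 2) = (j + 1) * gm j := by
  have key := integral_mul_deriv_eq_deriv_mul_of_integrable
    (u := fun z : ℝ => z ^ (j + 1)) (v := fun z : ℝ => gaussianPDFReal 0 1 z)
    (u' := fun z : ℝ => ((j + 1 : ℕ) : ℝ) * z ^ j)
    (v' := fun z : ℝ => -z * gaussianPDFReal 0 1 z)
    (fun x _ => by simpa using hasDerivAt_pow (j + 1) x)
    (fun x _ => hasDerivAt_pdf x)
    (by
      have := (integrable_pow_pdf (j + 2)).neg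
      refine this.congr ?_
      filter_upwards with z
      simp [pow_succ]; ring)
    (by
      have := (integrable_pow_pdf j).const_mul ((j + 1 : ℕ) : ℝ)
      refine this.congr ?_
      filter_upwards with z
      simp; ring)
    (by
      have := (integrable_pow_pdf (j + 1))
      refine this.congr ?_
      filter_upwards with z
      simp)
  have e1 : (∫ x : ℝ, x ^ (j + 1) * (-x * gaussianPDFReal 0 1 x)) = - gm (j + 2) := by
    rw [gm, integral_gauss_eq, ← integral_neg]
    congr 1; ext x; ring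
  have e2 : (∫ x : ℝ, ((j + 1 : ℕ) : ℝ) * x ^ j * gaussianPDFReal 0 1 x) = (j + 1) * gm j := by
    rw [gm, integral_gauss_eq, ← integral_const_mul]
    congr 1; ext x; push_cast; ring
  rw [e1, e2] at key
  linarith

/-- the general term of the Wick expansion -/
noncomputable def wt (a b k : ℕ) : ℝ :=
  (k.factorial : ℝ) * (a.choose k) * (b.choose k) * gm (a - k) * gm (b - k)

lemma wt_symm (a b k : ℕ) : wt a b k = wt b a k := by unfold wt; ring

noncomputable def wp (a b k : ℕ) : ℝ :=
  ((k + 1).factorial : ℝ) * (a.choose (k + 1)) * (b.choose k) * gm (a - (k + 1)) * gm (b - k)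

lemma choose_mul_gm (a k : ℕ) :
    (a.choose k : ℝ) * gm (a + 1 - k) = (k + 1) * (a.choose (k + 1)) * gm (a - (k + 1)) := by
  rcases lt_trichotomy k a with h | h | h
  · obtain ⟨c, rfl⟩ : ∃ c, a = k + 1 + c := ⟨a - (k + 1), by omega⟩
    have e1 : k + 1 + c + 1 - k = c + 2 := by omega
    have e2 : k + 1 + c - (k + 1) = c := by omega
    rw [e1, e2, gm_succ_succ]
    have h3 : ((k + 1 + c).choose (k + 1) : ℝ) * (k + 1) = ((k + 1 + c).choose k) * (c + 1) := by
      have := Nat.choose_succ_right_eq (k + 1 + c) k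
      have e4 : k + 1 + c - k = c + 1 := by omega
      rw [e4] at this
      exact_mod_cast this
    linear_combination (-gm c) * h3
  · subst h
    simp [gm_one]
  · simp [Nat.choose_eq_zero_of_lt h, Nat.choose_eq_zero_of_lt (Nat.lt_succ_of_lt h)]

lemma wt_succ_zero (a b : ℕ) : wt (a + 1) b 0 = wp a b 0 := by
  unfold wt wp
  have := choose_mul_gm a 0
  simp at this
  simp [this]

lemma wt_succ_succ (a b k : ℕ) : wt (a + 1) b (k + 1) = wp a b (k + 1) + wp b a k := by
  unfold wt wp
  have h := choose_mul_gm a (k + 1)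
  have h2 : ((a + 1).choose (k + 1) : ℝ) = a.choose k + a.choose (k + 1) := by
    exact_mod_cast Nat.choose_succ_succ a k
  have e1 : a + 1 - (k + 1) = a - k := by omega
  rw [e1] at h ⊢
  rw [h2]
  have h3 : ((k + 1 + 1).factorial : ℝ) = (k + 1 + 1) * (k + 1).factorial := by
    rw [Nat.factorial_succ]; push_cast; ring
  rw [h3]
  push_cast at h ⊢
  linear_combination ((k + 1).factorial : ℝ) * (b.choose (k + 1)) * gm (b - (k + 1)) * h

lemma sum_wt_succ (a b M : ℕ) :
    ∑ k ∈ Finset.range (M + 1), wt (a + 1) b k =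
      ∑ k ∈ Finset.range (M + 1), wp a b k + ∑ k ∈ Finset.range M, wp b a k := by
  rw [Finset.sum_range_succ', Finset.sum_range_succ' (wp a b), wt_succ_zero]
  simp only [wt_succ_succ, Finset.sum_add_distrib]
  ring

lemma wp_zero (a b k : ℕ) (h : a < k + 1) : wp a b k = 0 := by
  unfold wp; simp [Nat.choose_eq_zero_of_lt h]

lemma sum_wt_shift (a b : ℕ) :
    ∑ k ∈ Finset.range (a + b + 1 + 1), wt (a + 1) b k =
      ∑ k ∈ Finset.range (a + b + 1 + 1), wt a (b + 1) k := by
  simp only [wt_symm a (b + 1)]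
  have h1 : ∑ k ∈ Finset.range (a + b + 1 + 1), wp a b k =
      ∑ k ∈ Finset.range (a + b + 1), wp a b k := by
    rw [Finset.sum_range_succ, wp_zero a b _ (by omega), add_zero]
  have h2 : ∑ k ∈ Finset.range (a + b + 1 + 1), wp b a k =
      ∑ k ∈ Finset.range (a + b + 1), wp b a k := by
    rw [Finset.sum_range_succ, wp_zero b a _ (by omega), add_zero]
  rw [sum_wt_succ, sum_wt_succ, h1, h2, add_comm]

lemma wick_aux (b : ℕ) : ∀ a, ∑ k ∈ Finset.range (a + b + 1), wt a b k = gm (a + b) := by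
  induction b with
  | zero =>
    intro a
    rw [Finset.sum_range_succ']
    simp [wt, gm_zero]
  | succ b ih =>
    intro a
    have h1 := sum_wt_shift a b
    have h2 := ih (a + 1)
    have e : a + 1 + b + 1 = a + b + 1 + 1 := by ring
    rw [e] at h2
    have e' : a + (b + 1) + 1 = a + b + 1 + 1 := by ring
    rw [e', ← h1, h2]
    congr 1; ring

lemma wt_zero (a b k : ℕ) (h : a < k) : wt a b k = 0 := by
  unfold wt; simp [Nat.choose_eq_zero_of_lt h]

/-- Wick expansion of the Gaussian moments. -/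
lemma wick (a b R : ℕ) (hR : a < R) :
    ∑ k ∈ Finset.range R, wt a b k = gm (a + b) := by
  rw [← wick_aux b a]
  rcases le_total R (a + b + 1) with h | h
  · refine Finset.sum_subset (Finset.range_mono h) ?_
    intro k _ hk
    exact wt_zero a b k (by simp at hk; omega)
  · symm
    refine Finset.sum_subset (Finset.range_mono h) ?_
    intro k _ hk
    exact wt_zero a b k (by simp at hk; omega)

/-- coefficient of `x ^ k` in `E (x + Z) ^ a`. -/
noncomputable def c1 (a k : ℕ) : ℝ := (a.choose k : ℝ) * gm (a - k)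

lemma wt_eq (a b k : ℕ) : wt a b k = (k.factorial : ℝ) * c1 a k * c1 b k := by
  unfold wt c1; ring

lemma c1_zero (a k : ℕ) (h : a < k) : c1 a k = 0 := by
  unfold c1; simp [Nat.choose_eq_zero_of_lt h]

lemma add_pow_range (x z : ℝ) (a R : ℕ) (hR : a < R) :
    (x + z) ^ a = ∑ k ∈ Finset.range R, (a.choose k : ℝ) * x ^ k * z ^ (a - k) := by
  rw [add_pow]
  have : ∑ m ∈ Finset.range (a + 1), x ^ m * z ^ (a - m) * (a.choose m : ℝ) =
      ∑ m ∈ Finset.range (a + 1), (a.choose m : ℝ) * x ^ m * z ^ (a - m) :=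
    Finset.sum_congr rfl fun m _ => by ring
  rw [this]
  refine Finset.sum_subset (Finset.range_mono hR) ?_
  intro k _ hk
  rw [Nat.choose_eq_zero_of_lt (by simp at hk; omega)]
  simp

lemma integral_shift_pow (x : ℝ) (a R : ℕ) (hR : a < R) :
    ∫ z, (x + z) ^ a ∂(gaussianReal 0 1) = ∑ k ∈ Finset.range R, c1 a k * x ^ k := by
  simp_rw [add_pow_range x _ a R hR]
  rw [integral_finsetSum]
  · refine Finset.sum_congr rfl fun k _ => ?_
    rw [integral_const_mul, ← gm, c1]; ring
  · intro k _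
    exact (integrable_pow_gauss _).const_mul _

lemma integrable_shift_pow (x : ℝ) (a : ℕ) :
    Integrable (fun z => (x + z) ^ a) (gaussianReal 0 1) := by
  simp_rw [add_pow_range x _ a (a + 1) (Nat.lt_succ_self a)]
  exact integrable_finsetSum _ fun k _ => (integrable_pow_gauss _).const_mul _

variable {σ : Type*} [Fintype σ] [DecidableEq σ]

/-- The standard Gaussian measure on `σ → ℝ`. -/
noncomputable def stdG (σ : Type*) [Fintype σ] : Measure (σ → ℝ) :=
  Measure.pi (fun _ : σ => gaussianReal 0 1)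

instance : IsProbabilityMeasure (stdG σ) := by unfold stdG; infer_instance

/-- multi-index coefficient -/
noncomputable def cm (a α : σ → ℕ) : ℝ := ∏ i, c1 (a i) (α i)

lemma integral_shift_mono (x : σ → ℝ) (a : σ → ℕ) (R : ℕ) (hR : ∀ i, a i < R) :
    ∫ z, ∏ i, (x i + z i) ^ (a i) ∂(stdG σ) =
      ∑ α ∈ Fintype.piFinset (fun _ : σ => Finset.range R), cm a α * ∏ i, x i ^ α i := by
  unfold stdG
  rw [integral_fintype_prod_eq_prod (fun i z => (x i + z) ^ (a i))]
  simp_rw [integral_shift_pow _ _ R (hR _)]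
  rw [Finset.prod_univ_sum]
  refine Finset.sum_congr rfl fun α _ => ?_
  rw [cm, Finset.prod_mul_distrib]

omit [DecidableEq σ] in
lemma integrable_shift_mono (x : σ → ℝ) (a : σ → ℕ) :
    Integrable (fun z : σ → ℝ => ∏ i, (x i + z i) ^ (a i)) (stdG σ) := by
  unfold stdG
  exact Integrable.fintype_prod (f := fun i z => (x i + z) ^ (a i))
    (fun i => integrable_shift_pow _ _)

lemma integral_mono_mul (a b : σ → ℕ) (R : ℕ) (hR : ∀ i, a i < R) :
    ∫ z, (∏ i, (z i) ^ (a i)) * ∏ i, (z i) ^ (b i) ∂(stdG σ) =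
      ∑ α ∈ Fintype.piFinset (fun _ : σ => Finset.range R),
        (∏ i, ((α i).factorial : ℝ)) * cm a α * cm b α := by
  have h : ∀ z : σ → ℝ, (∏ i, (z i) ^ (a i)) * ∏ i, (z i) ^ (b i) = ∏ i, (z i) ^ (a i + b i) := by
    intro z
    rw [← Finset.prod_mul_distrib]
    exact Finset.prod_congr rfl fun i _ => by rw [pow_add]
  simp_rw [h]
  unfold stdG
  rw [integral_fintype_prod_eq_prod (fun i z => z ^ (a i + b i))]
  have h2 : ∀ i, ∫ z, z ^ (a i + b i) ∂(gaussianReal 0 1) =
      ∑ k ∈ Finset.range R, wt (a i) (b i) k := by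
    intro i; rw [wick _ _ R (hR i), gm]
  simp_rw [h2]
  rw [Finset.prod_univ_sum]
  refine Finset.sum_congr rfl fun α _ => ?_
  simp_rw [wt_eq, cm, Finset.prod_mul_distrib]

omit [DecidableEq σ] in
lemma integrable_mono_mul (a b : σ → ℕ) :
    Integrable (fun z : σ → ℝ => (∏ i, (z i) ^ (a i)) * ∏ i, (z i) ^ (b i)) (stdG σ) := by
  have h : ∀ z : σ → ℝ, (∏ i, (z i) ^ (a i)) * ∏ i, (z i) ^ (b i) = ∏ i, (z i) ^ (a i + b i) := by
    intro z
    rw [← Finset.prod_mul_distrib]
    exact Finset.prod_congr rfl fun i _ => by rw [pow_add]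
  simp_rw [h]
  unfold stdG
  exact Integrable.fintype_prod (f := fun i z => z ^ (a i + b i))
    (fun i => integrable_pow_gauss _)

open MvPolynomial in
/-- the coefficients of the averaged polynomial -/
noncomputable def cf (f : MvPolynomial σ ℝ) (α : σ → ℕ) : ℝ :=
  ∑ a ∈ f.support, coeff a f * cm (fun i => a i) α

open MvPolynomial in
lemma integral_eval_shift (f : MvPolynomial σ ℝ) (D : ℕ) (hf : f.totalDegree ≤ D) (x : σ → ℝ) :
    ∫ z, eval (x + z) f ∂(stdG σ) =
      ∑ α ∈ Fintype.piFinset (fun _ : σ => Finset.range (D + 1)), cf f α * ∏ i, x i ^ α i := by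
  have hlt : ∀ a ∈ f.support, ∀ i, a i < D + 1 := by
    intro a ha i
    have h1 : a i ≤ f.totalDegree := by
      refine le_trans ?_ (le_totalDegree ha)
      by_cases hi : i ∈ a.support
      · exact Finset.single_le_sum (f := fun i => a i) (fun _ _ => Nat.zero_le _) hi
      · simp at hi; simp [hi]
    omega
  simp_rw [eval_eq']
  rw [integral_finsetSum]
  · simp_rw [integral_const_mul, Pi.add_apply]
    unfold cf
    simp_rw [Finset.sum_mul]
    rw [Finset.sum_comm]
    refine Finset.sum_congr rfl fun a ha => ?_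
    rw [integral_shift_mono x (fun i => a i) (D + 1) (hlt a ha), Finset.mul_sum]
    exact Finset.sum_congr rfl fun α _ => by ring
  · intro a _
    exact (integrable_shift_mono x (fun i => a i)).const_mul _

open MvPolynomial in
lemma integral_eval_sq (f : MvPolynomial σ ℝ) (D : ℕ) (hf : f.totalDegree ≤ D) :
    ∫ z, (eval z f) ^ 2 ∂(stdG σ) =
      ∑ α ∈ Fintype.piFinset (fun _ : σ => Finset.range (D + 1)),
        (∏ i, ((α i).factorial : ℝ)) * (cf f α) ^ 2 := by
  have hlt : ∀ a ∈ f.support, ∀ i, a i < D + 1 := by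
    intro a ha i
    have h1 : a i ≤ f.totalDegree := by
      refine le_trans ?_ (le_totalDegree ha)
      by_cases hi : i ∈ a.support
      · exact Finset.single_le_sum (f := fun i => a i) (fun _ _ => Nat.zero_le _) hi
      · simp at hi; simp [hi]
    omega
  have h0 : ∀ z : σ → ℝ, (eval z f) ^ 2 = ∑ a ∈ f.support, ∑ b ∈ f.support,
      (coeff a f * coeff b f) * ((∏ i, (z i) ^ (a i)) * ∏ i, (z i) ^ (b i)) := by
    intro z
    rw [eval_eq', sq, Finset.sum_mul_sum]
    exact Finset.sum_congr rfl fun a _ => Finset.sum_congr rfl fun b _ => by ring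
  simp_rw [h0]
  rw [integral_finsetSum]
  · have h1 : ∀ a ∈ f.support, ∫ z, ∑ b ∈ f.support,
      (coeff a f * coeff b f) * ((∏ i, (z i) ^ (a i)) * ∏ i, (z i) ^ (b i)) ∂(stdG σ) =
      ∑ b ∈ f.support, ∑ α ∈ Fintype.piFinset (fun _ : σ => Finset.range (D + 1)),
        (coeff a f * coeff b f) * ((∏ i, ((α i).factorial : ℝ)) *
          cm (fun i => a i) α * cm (fun i => b i) α) := by
      intro a ha
      rw [integral_finsetSum]
      · refine Finset.sum_congr rfl fun b _ => ?_
        rw [integral_const_mul, integral_mono_mul (fun i => a i) (fun i => b i) (D + 1) (hlt a ha),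
          Finset.mul_sum]
      · intro b _
        exact (integrable_mono_mul (fun i => a i) (fun i => b i)).const_mul _
    rw [Finset.sum_congr rfl h1]
    have h2 : ∀ a ∈ f.support, ∑ b ∈ f.support,
        ∑ α ∈ Fintype.piFinset (fun _ : σ => Finset.range (D + 1)),
        (coeff a f * coeff b f) * ((∏ i, ((α i).factorial : ℝ)) *
          cm (fun i => a i) α * cm (fun i => b i) α) =
        ∑ α ∈ Fintype.piFinset (fun _ : σ => Finset.range (D + 1)), ∑ b ∈ f.support,
        (coeff a f * coeff b f) * ((∏ i, ((α i).factorial : ℝ)) *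
          cm (fun i => a i) α * cm (fun i => b i) α) := by
      intro a _
      rw [Finset.sum_comm]
    rw [Finset.sum_congr rfl h2, Finset.sum_comm]
    refine Finset.sum_congr rfl fun α _ => ?_
    unfold cf
    rw [sq, Finset.sum_mul_sum, Finset.mul_sum]
    refine Finset.sum_congr rfl fun a _ => ?_
    rw [Finset.mul_sum]
    exact Finset.sum_congr rfl fun b _ => by ring
  · intro a _
    exact integrable_finsetSum _ fun b _ =>
      (integrable_mono_mul (fun i => a i) (fun i => b i)).const_mul _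

open MvPolynomial in
omit [DecidableEq σ] in
lemma cf_eq_zero (f : MvPolynomial σ ℝ) (D : ℕ) (hf : f.totalDegree ≤ D) (α : σ → ℕ)
    (hα : D < ∑ i, α i) : cf f α = 0 := by
  unfold cf
  refine Finset.sum_eq_zero fun a ha => ?_
  have h1 : ∑ i, a i ≤ D := by
    refine le_trans ?_ (le_trans (le_totalDegree ha) hf)
    rw [Finsupp.sum_fintype]
    · intro i; rfl
  have h2 : ∃ i, a i < α i := by
    by_contra hcon
    push Not at hcon
    have := Finset.sum_le_sum (fun i (_ : i ∈ Finset.univ) => hcon i)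
    omega
  obtain ⟨i, hi⟩ := h2
  have : cm (fun i => a i) α = 0 := by
    unfold cm
    exact Finset.prod_eq_zero (Finset.mem_univ i) (c1_zero _ _ hi)
  rw [this, mul_zero]

section main

variable {Ω : Type*} [MeasurableSpace Ω] (P : Measure Ω) [IsProbabilityMeasure P]
    (X : Ω → σ → ℝ)

omit [DecidableEq σ] in
lemma integrable_mom (hX : ∀ i, Measurable fun ω => X ω i) (B : ℝ)
    (hB : ∀ ω i, |X ω i| ≤ B) (α : σ → ℕ) :
    Integrable (fun ω => ∏ i, X ω i ^ α i) P := by
  refine Integrable.of_bound (C := ∏ i, B ^ α i) ?_ ?_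
  · exact (Finset.measurable_prod _ fun i _ => (hX i).pow_const _).aestronglyMeasurable
  · filter_upwards with ω
    rw [Real.norm_eq_abs, Finset.abs_prod]
    refine Finset.prod_le_prod (fun i _ => abs_nonneg _) fun i _ => ?_
    rw [abs_pow]
    exact pow_le_pow_left₀ (abs_nonneg _) (hB ω i) _

lemma pow_sum_integral (hX : ∀ i, Measurable fun ω => X ω i) (B : ℝ)
    (hB : ∀ ω i, |X ω i| ≤ B) (d : ℕ) :
    (∫ ω, ∫ ω', (∑ i, X ω i * X ω' i) ^ d ∂P ∂P) =
      ∑ α ∈ Finset.univ.piAntidiag d, (Nat.multinomial Finset.univ α : ℝ) *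
        (∫ ω, ∏ i, X ω i ^ α i ∂P) ^ 2 := by
  have h1 : ∀ ω ω', (∑ i, X ω i * X ω' i) ^ d = ∑ α ∈ Finset.univ.piAntidiag d,
      (Nat.multinomial Finset.univ α : ℝ) * (∏ i, X ω i ^ α i) * ∏ i, X ω' i ^ α i := by
    intro ω ω'
    rw [Finset.sum_pow_eq_sum_piAntidiag]
    refine Finset.sum_congr rfl fun α _ => ?_
    rw [mul_assoc, ← Finset.prod_mul_distrib]
    congr 1
    exact Finset.prod_congr rfl fun i _ => by rw [mul_pow]
  simp_rw [h1]
  have h2 : ∀ ω, ∫ ω', ∑ α ∈ Finset.univ.piAntidiag d,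
      (Nat.multinomial Finset.univ α : ℝ) * (∏ i, X ω i ^ α i) * ∏ i, X ω' i ^ α i ∂P =
      ∑ α ∈ Finset.univ.piAntidiag d,
      (Nat.multinomial Finset.univ α : ℝ) * (∫ ω', ∏ i, X ω' i ^ α i ∂P) * (∏ i, X ω i ^ α i) := by
    intro ω
    rw [integral_finsetSum]
    · refine Finset.sum_congr rfl fun α _ => ?_
      rw [integral_const_mul]; ring
    · intro α _
      exact (integrable_mom P X hX B hB α).const_mul _
  simp_rw [h2]
  rw [integral_finsetSum]
  · refine Finset.sum_congr rfl fun α _ => ?_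
    rw [integral_const_mul]; ring
  · intro α _
    exact (integrable_mom P X hX B hB α).const_mul _

open MvPolynomial in
/-- The low-degree inequality for the additive Gaussian model. -/
theorem lowdeg_ineq (hX : ∀ i, Measurable fun ω => X ω i) (B : ℝ)
    (hB : ∀ ω i, |X ω i| ≤ B)
    (f : MvPolynomial σ ℝ) (D : ℕ) (hf : f.totalDegree ≤ D) :
    (∫ ω, ∫ z, eval (X ω + z) f ∂(stdG σ) ∂P) ^ 2 ≤
      (∑ d ∈ Finset.range (D + 1),
        (∫ ω, ∫ ω', (∑ i, X ω i * X ω' i) ^ d ∂P ∂P) / (d.factorial : ℝ)) *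
        ∫ z, (eval z f) ^ 2 ∂(stdG σ) := by
  set Box := Fintype.piFinset (fun _ : σ => Finset.range (D + 1)) with hBox
  set S := Box.filter (fun α => ∑ i, α i ≤ D) with hS
  set mom : (σ → ℕ) → ℝ := fun α => ∫ ω, ∏ i, X ω i ^ α i ∂P with hmom
  have hL : (∫ ω, ∫ z, eval (X ω + z) f ∂(stdG σ) ∂P) = ∑ α ∈ S, cf f α * mom α := by
    simp_rw [integral_eval_shift f D hf]
    rw [integral_finsetSum]
    · rw [hS, Finset.sum_filter]
      refine Finset.sum_congr rfl fun α _ => ?_
      rw [integral_const_mul]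
      split_ifs with h
      · rfl
      · rw [cf_eq_zero f D hf α (by omega), zero_mul]
    · intro α _
      exact (integrable_mom P X hX B hB α).const_mul _
  have hR : ∫ z, (eval z f) ^ 2 ∂(stdG σ) =
      ∑ α ∈ S, (∏ i, ((α i).factorial : ℝ)) * (cf f α) ^ 2 := by
    rw [integral_eval_sq f D hf, hS, Finset.sum_filter]
    refine Finset.sum_congr rfl fun α _ => ?_
    split_ifs with h
    · rfl
    · rw [cf_eq_zero f D hf α (by omega)]; simp
  have hM : (∑ d ∈ Finset.range (D + 1),
        (∫ ω, ∫ ω', (∑ i, X ω i * X ω' i) ^ d ∂P ∂P) / (d.factorial : ℝ)) =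
      ∑ α ∈ S, (mom α) ^ 2 / (∏ i, ((α i).factorial : ℝ)) := by
    rw [← Finset.sum_fiberwise_of_maps_to (s := S) (t := Finset.range (D + 1))
      (g := fun α => ∑ i, α i)]
    · refine Finset.sum_congr rfl fun d hd => ?_
      rw [pow_sum_integral P X hX B hB d]
      have hset : S.filter (fun α => ∑ i, α i = d) = Finset.univ.piAntidiag d := by
        ext α
        simp only [hS, hBox, Finset.mem_filter, Fintype.mem_piFinset, Finset.mem_range,
          Finset.mem_piAntidiag, Finset.mem_univ, implies_true, and_true]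
        constructor
        · rintro ⟨_, h⟩; exact h
        · intro h
          have hd' : d < D + 1 := by simpa using hd
          have h' : ∑ i, α i = d := h
          refine ⟨⟨fun i => ?_, by omega⟩, h⟩
          have : α i ≤ ∑ i, α i :=
            Finset.single_le_sum (f := α) (fun _ _ => Nat.zero_le _) (Finset.mem_univ i)
          omega
      rw [hset, Finset.sum_div]
      refine Finset.sum_congr rfl fun α hα => ?_
      have hα' : ∑ i, α i = d := by simpa using hα
      have hspec := Nat.multinomial_spec Finset.univ α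
      rw [hα'] at hspec
      have hspec' : (∏ i, ((α i).factorial : ℝ)) * (Nat.multinomial Finset.univ α : ℝ) =
          (d.factorial : ℝ) := by exact_mod_cast hspec
      have hp : (0 : ℝ) < ∏ i, ((α i).factorial : ℝ) :=
        Finset.prod_pos fun i _ => by exact_mod_cast Nat.factorial_pos _
      have hd0 : (0 : ℝ) < (d.factorial : ℝ) := by exact_mod_cast Nat.factorial_pos _
      rw [div_eq_div_iff hd0.ne' hp.ne', ← hspec']
      ring
    · intro α hα
      simp only [hS, Finset.mem_filter] at hα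
      simp only [Finset.mem_range]
      omega
  rw [hL, hR, hM]
  refine Finset.sum_sq_le_sum_mul_sum_of_sq_le_mul S ?_ ?_ ?_
  · intro α _
    have hp : (0 : ℝ) < ∏ i, ((α i).factorial : ℝ) :=
        Finset.prod_pos fun i _ => by exact_mod_cast Nat.factorial_pos _
    positivity
  · intro α _
    have hp : (0 : ℝ) < ∏ i, ((α i).factorial : ℝ) :=
        Finset.prod_pos fun i _ => by exact_mod_cast Nat.factorial_pos _
    positivity
  · intro α _
    have hp : (0 : ℝ) < ∏ i, ((α i).factorial : ℝ) :=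
        Finset.prod_pos fun i _ => by exact_mod_cast Nat.factorial_pos _
    refine le_of_eq ?_
    field_simp

open MvPolynomial in
omit [DecidableEq σ] in
/-- polynomials of a bounded shift of a standard Gaussian vector are integrable -/
theorem integrable_eval_shift (hX : ∀ i, Measurable fun ω => X ω i) (B : ℝ)
    (hB : ∀ ω i, |X ω i| ≤ B) (f : MvPolynomial σ ℝ) :
    Integrable (fun ω : Ω × (σ → ℝ) => eval (X ω.1 + ω.2) f) (P.prod (stdG σ)) := by
  simp_rw [eval_eq']
  refine integrable_finsetSum _ fun a _ => Integrable.const_mul ?_ _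
  have hbd : Integrable (fun z : σ → ℝ => ∏ i, (|B| + |z i|) ^ (a i)) (stdG σ) := by
    unfold stdG
    refine Integrable.fintype_prod (f := fun i z => (|B| + |z|) ^ (a i)) fun i => ?_
    have : ∀ z : ℝ, (|B| + |z|) ^ (a i) =
        ∑ k ∈ Finset.range (a i + 1), ((a i).choose k : ℝ) * |B| ^ k * |z| ^ (a i - k) :=
      fun z => add_pow_range _ _ _ _ (Nat.lt_succ_self _)
    simp_rw [this]
    refine integrable_finsetSum _ fun k _ => Integrable.const_mul ?_ _
    have h := (integrable_pow_gauss (a i - k)).abs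
    simpa [abs_pow] using h
  have hbd2 : Integrable (fun ω : Ω × (σ → ℝ) => ∏ i, (|B| + |ω.2 i|) ^ (a i))
      (P.prod (stdG σ)) := hbd.comp_snd P
  refine hbd2.mono' ?_ ?_
  · have hm : Measurable fun ω : Ω × (σ → ℝ) => ∏ i, ((X ω.1 + ω.2) i) ^ (a i) := by
      refine Finset.measurable_prod _ fun i _ => Measurable.pow_const ?_ _
      exact ((hX i).comp measurable_fst).add ((measurable_pi_apply i).comp measurable_snd)
    exact hm.aestronglyMeasurable
  · filter_upwards with ω
    rw [Real.norm_eq_abs, Finset.abs_prod]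
    refine Finset.prod_le_prod (fun i _ => abs_nonneg _) fun i _ => ?_
    rw [abs_pow]
    refine pow_le_pow_left₀ (abs_nonneg _) ?_ _
    calc |(X ω.1 + ω.2) i| ≤ |X ω.1 i| + |ω.2 i| := abs_add_le _ _
      _ ≤ |B| + |ω.2 i| := by
        have := (hB ω.1 i).trans (le_abs_self B)
        linarith

end main

open MvPolynomial in
omit [Fintype σ] [DecidableEq σ] in
lemma totalDegree_bind₁_le {τ : Type*} (l : σ → MvPolynomial τ ℝ)
    (hl : ∀ i, (l i).totalDegree ≤ 1) (f : MvPolynomial σ ℝ) :
    (bind₁ l f).totalDegree ≤ f.totalDegree := by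
  classical
  have h1 : bind₁ l f = ∑ a ∈ f.support, C (coeff a f) * ∏ i ∈ a.support, (l i) ^ (a i) := by
    rw [bind₁, aeval_def, eval₂_eq]
    rfl
  rw [h1]
  refine (totalDegree_finsetSum _ _).trans (Finset.sup_le fun a ha => ?_)
  refine (totalDegree_mul _ _).trans ?_
  rw [totalDegree_C, zero_add]
  refine (totalDegree_finsetProd _ _).trans ?_
  refine le_trans (Finset.sum_le_sum fun i _ => ?_) (le_totalDegree ha)
  refine (totalDegree_pow _ _).trans ?_
  calc a i * (l i).totalDegree ≤ a i * 1 := Nat.mul_le_mul_left _ (hl i)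
    _ = a i := mul_one _

open MvPolynomial in
omit [Fintype σ] [DecidableEq σ] in
lemma eval_bind₁ {τ : Type*} (l : σ → MvPolynomial τ ℝ) (x : τ → ℝ) (f : MvPolynomial σ ℝ) :
    eval x (bind₁ l f) = eval (fun i => eval x (l i)) f :=
  eval₂Hom_bind₁ (RingHom.id ℝ) x l f

end Pool.Agent.H28.GaussLowDeg
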