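import Mathlib

open MeasureTheory
open scoped BigOperators ComplexConjugate Matrix

namespace Pool.Agent.H28.Schur

variable {G : Type} [Group G] [TopologicalSpace G] [IsTopologicalGroup G] [CompactSpace G]
  [MeasurableSpace G] [BorelSpace G] (μ : Measure G) [μ.IsHaarMeasure] [IsProbabilityMeasure μ]

section single

variable {p q : ℕ} (ρ : G →* Matrix.unitaryGroup (Fin p) ℂ) (τ : G →* Matrix.unitaryGroup (Fin q) ℂ)

omit [TopologicalSpace G] [IsTopologicalGroup G] [CompactSpace G] [MeasurableSpace G]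
  [BorelSpace G] in
lemma norm_entry_le (g : G) (a b : Fin p) : ‖(ρ g : Matrix (Fin p) (Fin p) ℂ) a b‖ ≤ 1 :=
  entry_norm_bound_of_unitary (ρ g).2 a b

omit [TopologicalSpace G] [IsTopologicalGroup G] [CompactSpace G] [MeasurableSpace G]
  [BorelSpace G] in
lemma inv_entry (g : G) (a b : Fin p) :
    (ρ g⁻¹ : Matrix (Fin p) (Fin p) ℂ) a b = conj ((ρ g : Matrix (Fin p) (Fin p) ℂ) b a) := by
  rw [map_inv, Matrix.UnitaryGroup.inv_val]
  rfl

omit [TopologicalSpace G] [IsTopologicalGroup G] [CompactSpace G] [MeasurableSpace G]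
  [BorelSpace G] in
lemma mul_entry (g h : G) (a b : Fin p) :
    (ρ (g * h) : Matrix (Fin p) (Fin p) ℂ) a b =
      ∑ x, (ρ g : Matrix (Fin p) (Fin p) ℂ) a x * (ρ h : Matrix (Fin p) (Fin p) ℂ) x b := by
  rw [map_mul, Matrix.UnitaryGroup.mul_val, Matrix.mul_apply]

omit [CompactSpace G] [IsTopologicalGroup G] in
lemma measurable_entry (hρ : Continuous fun g => (ρ g : Matrix (Fin p) (Fin p) ℂ)) (a b : Fin p) :
    Measurable fun g => (ρ g : Matrix (Fin p) (Fin p) ℂ) a b :=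
  (hρ.matrix_elem a b).measurable

omit [CompactSpace G] [IsTopologicalGroup G] [μ.IsHaarMeasure] in
lemma integrable_entry_mul_conj (hρ : Continuous fun g => (ρ g : Matrix (Fin p) (Fin p) ℂ))
    (hτ : Continuous fun g => (τ g : Matrix (Fin q) (Fin q) ℂ)) (a c : Fin p) (b e : Fin q) :
    Integrable (fun g => (ρ g : Matrix (Fin p) (Fin p) ℂ) a c *
      conj ((τ g : Matrix (Fin q) (Fin q) ℂ) b e)) μ := by
  refine Integrable.of_bound (C := 1) ?_ ?_
  · exact ((measurable_entry ρ hρ a c).mul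
      (Complex.continuous_conj.measurable.comp (measurable_entry τ hτ b e))).aestronglyMeasurable
  · filter_upwards with g
    rw [norm_mul, RCLike.norm_conj]
    calc _ ≤ (1 : ℝ) * 1 := mul_le_mul (norm_entry_le ρ g a c) (norm_entry_le τ g b e)
          (norm_nonneg _) zero_le_one
      _ = 1 := one_mul 1

omit [CompactSpace G] [IsTopologicalGroup G] [μ.IsHaarMeasure] in
lemma integrable_entry_mul (hρ : Continuous fun g => (ρ g : Matrix (Fin p) (Fin p) ℂ))
    (hτ : Continuous fun g => (τ g : Matrix (Fin q) (Fin q) ℂ)) (a c : Fin p) (b e : Fin q) :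
    Integrable (fun g => (ρ g : Matrix (Fin p) (Fin p) ℂ) a c *
      (τ g : Matrix (Fin q) (Fin q) ℂ) b e) μ := by
  refine Integrable.of_bound (C := 1) ?_ ?_
  · exact ((measurable_entry ρ hρ a c).mul (measurable_entry τ hτ b e)).aestronglyMeasurable
  · filter_upwards with g
    rw [norm_mul]
    calc _ ≤ (1 : ℝ) * 1 := mul_le_mul (norm_entry_le ρ g a c) (norm_entry_le τ g b e)
          (norm_nonneg _) zero_le_one
      _ = 1 := one_mul 1

omit [CompactSpace G] [IsTopologicalGroup G] [μ.IsHaarMeasure] in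
lemma integrable_entry (hρ : Continuous fun g => (ρ g : Matrix (Fin p) (Fin p) ℂ)) (a c : Fin p) :
    Integrable (fun g => (ρ g : Matrix (Fin p) (Fin p) ℂ) a c) μ := by
  refine Integrable.of_bound (C := 1) ?_ ?_
  · exact (measurable_entry ρ hρ a c).aestronglyMeasurable
  · filter_upwards with g
    exact norm_entry_le ρ g a c

omit [CompactSpace G] in
/-- intertwining property of averaged elementary matrices -/
lemma intertwine_conj (hρ : Continuous fun g => (ρ g : Matrix (Fin p) (Fin p) ℂ))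
    (hτ : Continuous fun g => (τ g : Matrix (Fin q) (Fin q) ℂ)) (c : Fin p) (e : Fin q) (h : G) :
    (ρ h : Matrix (Fin p) (Fin p) ℂ) * (Matrix.of fun a b => ∫ g, (ρ g : Matrix (Fin p) (Fin p) ℂ) a c *
      conj ((τ g : Matrix (Fin q) (Fin q) ℂ) b e) ∂μ) =
    (Matrix.of fun a b => ∫ g, (ρ g : Matrix (Fin p) (Fin p) ℂ) a c *
      conj ((τ g : Matrix (Fin q) (Fin q) ℂ) b e) ∂μ) * (τ h : Matrix (Fin q) (Fin q) ℂ) := by
  ext a b
  rw [Matrix.mul_apply, Matrix.mul_apply]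
  simp only [Matrix.of_apply]
  have e1 : ∀ x, (ρ h : Matrix (Fin p) (Fin p) ℂ) a x * ∫ g, (ρ g : Matrix (Fin p) (Fin p) ℂ) x c *
      conj ((τ g : Matrix (Fin q) (Fin q) ℂ) b e) ∂μ = ∫ g, (ρ h : Matrix (Fin p) (Fin p) ℂ) a x *
      ((ρ g : Matrix (Fin p) (Fin p) ℂ) x c * conj ((τ g : Matrix (Fin q) (Fin q) ℂ) b e)) ∂μ :=
    fun x => (integral_const_mul _ _).symm
  have e2 : ∀ x, (∫ g, (ρ g : Matrix (Fin p) (Fin p) ℂ) a c *
      conj ((τ g : Matrix (Fin q) (Fin q) ℂ) x e) ∂μ) * (τ h : Matrix (Fin q) (Fin q) ℂ) x b =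
      ∫ g, (ρ g : Matrix (Fin p) (Fin p) ℂ) a c *
      conj ((τ g : Matrix (Fin q) (Fin q) ℂ) x e) * (τ h : Matrix (Fin q) (Fin q) ℂ) x b ∂μ :=
    fun x => (integral_mul_const _ _).symm
  simp_rw [e1, e2]
  rw [← integral_finsetSum _ fun x _ => (integrable_entry_mul_conj μ ρ τ hρ hτ x c b e).const_mul _,
    ← integral_finsetSum _ fun x _ => (integrable_entry_mul_conj μ ρ τ hρ hτ a c x e).mul_const _]
  have e3 : ∀ g, ∑ x, (ρ h : Matrix (Fin p) (Fin p) ℂ) a x *
      ((ρ g : Matrix (Fin p) (Fin p) ℂ) x c * conj ((τ g : Matrix (Fin q) (Fin q) ℂ) b e)) =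
      (ρ (h * g) : Matrix (Fin p) (Fin p) ℂ) a c *
        conj ((τ (h⁻¹ * (h * g)) : Matrix (Fin q) (Fin q) ℂ) b e) := by
    intro g
    rw [mul_entry, Finset.sum_mul, inv_mul_cancel_left]
    exact Finset.sum_congr rfl fun x _ => by ring
  simp_rw [e3]
  rw [integral_mul_left_eq_self (fun g => (ρ g : Matrix (Fin p) (Fin p) ℂ) a c *
        conj ((τ (h⁻¹ * g) : Matrix (Fin q) (Fin q) ℂ) b e)) h]
  congr 1
  ext g
  rw [mul_entry τ, map_sum, Finset.mul_sum]
  refine Finset.sum_congr rfl fun x _ => ?_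
  rw [map_mul, inv_entry, Complex.conj_conj]
  ring

omit [CompactSpace G] in
lemma intertwine (hρ : Continuous fun g => (ρ g : Matrix (Fin p) (Fin p) ℂ))
    (hτ : Continuous fun g => (τ g : Matrix (Fin q) (Fin q) ℂ)) (c : Fin p) (e : Fin q) (h : G) :
    (ρ h : Matrix (Fin p) (Fin p) ℂ) * (Matrix.of fun a b => ∫ g, (ρ g : Matrix (Fin p) (Fin p) ℂ) a c *
      (τ g : Matrix (Fin q) (Fin q) ℂ) b e ∂μ) =
    (Matrix.of fun a b => ∫ g, (ρ g : Matrix (Fin p) (Fin p) ℂ) a c *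
      (τ g : Matrix (Fin q) (Fin q) ℂ) b e ∂μ) *
        (τ h : Matrix (Fin q) (Fin q) ℂ).map (starRingEnd ℂ) := by
  ext a b
  rw [Matrix.mul_apply, Matrix.mul_apply]
  simp only [Matrix.of_apply, Matrix.map_apply]
  have e1 : ∀ x, (ρ h : Matrix (Fin p) (Fin p) ℂ) a x * ∫ g, (ρ g : Matrix (Fin p) (Fin p) ℂ) x c *
      (τ g : Matrix (Fin q) (Fin q) ℂ) b e ∂μ = ∫ g, (ρ h : Matrix (Fin p) (Fin p) ℂ) a x *
      ((ρ g : Matrix (Fin p) (Fin p) ℂ) x c * (τ g : Matrix (Fin q) (Fin q) ℂ) b e) ∂μ :=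
    fun x => (integral_const_mul _ _).symm
  have e2 : ∀ x, (∫ g, (ρ g : Matrix (Fin p) (Fin p) ℂ) a c *
      (τ g : Matrix (Fin q) (Fin q) ℂ) x e ∂μ) * conj ((τ h : Matrix (Fin q) (Fin q) ℂ) x b) =
      ∫ g, (ρ g : Matrix (Fin p) (Fin p) ℂ) a c *
      (τ g : Matrix (Fin q) (Fin q) ℂ) x e * conj ((τ h : Matrix (Fin q) (Fin q) ℂ) x b) ∂μ :=
    fun x => (integral_mul_const _ _).symm
  simp_rw [e1, e2]
  rw [← integral_finsetSum _ fun x _ => (integrable_entry_mul μ ρ τ hρ hτ x c b e).const_mul _,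
    ← integral_finsetSum _ fun x _ => (integrable_entry_mul μ ρ τ hρ hτ a c x e).mul_const _]
  have e3 : ∀ g, ∑ x, (ρ h : Matrix (Fin p) (Fin p) ℂ) a x *
      ((ρ g : Matrix (Fin p) (Fin p) ℂ) x c * (τ g : Matrix (Fin q) (Fin q) ℂ) b e) =
      (ρ (h * g) : Matrix (Fin p) (Fin p) ℂ) a c *
        (τ (h⁻¹ * (h * g)) : Matrix (Fin q) (Fin q) ℂ) b e := by
    intro g
    rw [mul_entry, Finset.sum_mul, inv_mul_cancel_left]
    exact Finset.sum_congr rfl fun x _ => by ring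
  simp_rw [e3]
  rw [integral_mul_left_eq_self (fun g => (ρ g : Matrix (Fin p) (Fin p) ℂ) a c *
        (τ (h⁻¹ * g) : Matrix (Fin q) (Fin q) ℂ) b e) h]
  congr 1
  ext g
  rw [mul_entry τ, Finset.mul_sum]
  refine Finset.sum_congr rfl fun x _ => ?_
  rw [inv_entry]
  ring

omit [CompactSpace G] in
/-- Schur orthogonality, same representation -/
lemma schur_same (hρ : Continuous fun g => (ρ g : Matrix (Fin p) (Fin p) ℂ))
    (hirr : ∀ T : Matrix (Fin p) (Fin p) ℂ,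
      (∀ g, (ρ g : Matrix (Fin p) (Fin p) ℂ) * T = T * (ρ g : Matrix (Fin p) (Fin p) ℂ)) →
      ∃ z : ℂ, T = z • (1 : Matrix (Fin p) (Fin p) ℂ)) (a c b e : Fin p) :
    ∫ g, (ρ g : Matrix (Fin p) (Fin p) ℂ) a c * conj ((ρ g : Matrix (Fin p) (Fin p) ℂ) b e) ∂μ =
      if a = b ∧ c = e then (p : ℂ)⁻¹ else 0 := by
  set T : Matrix (Fin p) (Fin p) ℂ := Matrix.of fun a b =>
    ∫ g, (ρ g : Matrix (Fin p) (Fin p) ℂ) a c * conj ((ρ g : Matrix (Fin p) (Fin p) ℂ) b e) ∂μ with hT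
  obtain ⟨z, hz⟩ := hirr T (fun h => intertwine_conj μ ρ ρ hρ hρ c e h)
  have hp : (p : ℂ) ≠ 0 := by
    have : 0 < p := a.pos
    exact_mod_cast this.ne'
  have htr : ∑ x, T x x = if c = e then 1 else 0 := by
    simp only [hT, Matrix.of_apply]
    rw [← integral_finsetSum _ fun x _ => (integrable_entry_mul_conj μ ρ ρ hρ hρ x c x e)]
    have : ∀ g, ∑ x, (ρ g : Matrix (Fin p) (Fin p) ℂ) x c *
        conj ((ρ g : Matrix (Fin p) (Fin p) ℂ) x e) = if c = e then 1 else 0 := by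
      intro g
      have h1 := mul_entry ρ g⁻¹ g e c
      rw [inv_mul_cancel, map_one] at h1
      simp_rw [inv_entry] at h1
      have h2 : ((1 : Matrix.unitaryGroup (Fin p) ℂ) : Matrix (Fin p) (Fin p) ℂ) e c =
          if c = e then 1 else 0 := by
        rw [Matrix.UnitaryGroup.one_val, Matrix.one_apply]
        simp only [eq_comm]
      rw [← h2, h1]
      exact Finset.sum_congr rfl fun x _ => by ring
    simp_rw [this]
    simp
  have hzt : (p : ℂ) * z = if c = e then 1 else 0 := by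
    rw [← htr, hz]
    simp
  have hab : T a b = if a = b then z else 0 := by
    rw [hz]; simp [Matrix.one_apply]
  have hTab : T a b = ∫ g, (ρ g : Matrix (Fin p) (Fin p) ℂ) a c *
      conj ((ρ g : Matrix (Fin p) (Fin p) ℂ) b e) ∂μ := rfl
  rw [← hTab, hab]
  by_cases h1 : a = b
  · by_cases h2 : c = e
    · simp only [h1, h2, and_self, if_true] at hzt ⊢
      field_simp
      linear_combination hzt
    · simp only [h2, if_false, and_false] at hzt ⊢
      rcases mul_eq_zero.mp hzt with h3 | h3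
      · exact absurd h3 hp
      · simp [h3]
  · simp [h1]

omit [CompactSpace G] in
lemma schur_diff (hρ : Continuous fun g => (ρ g : Matrix (Fin p) (Fin p) ℂ))
    (hτ : Continuous fun g => (τ g : Matrix (Fin q) (Fin q) ℂ))
    (hne : ∀ T : Matrix (Fin p) (Fin q) ℂ,
      (∀ g, (ρ g : Matrix (Fin p) (Fin p) ℂ) * T = T * (τ g : Matrix (Fin q) (Fin q) ℂ)) → T = 0)
    (a c : Fin p) (b e : Fin q) :
    ∫ g, (ρ g : Matrix (Fin p) (Fin p) ℂ) a c * conj ((τ g : Matrix (Fin q) (Fin q) ℂ) b e) ∂μ =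
      0 := by
  have := hne _ (fun h => intertwine_conj μ ρ τ hρ hτ c e h)
  have h2 := congrFun (congrFun this a) b
  simpa using h2

omit [CompactSpace G] in
lemma schur_conj (hρ : Continuous fun g => (ρ g : Matrix (Fin p) (Fin p) ℂ))
    (hτ : Continuous fun g => (τ g : Matrix (Fin q) (Fin q) ℂ))
    (hne : ∀ T : Matrix (Fin p) (Fin q) ℂ,
      (∀ g, (ρ g : Matrix (Fin p) (Fin p) ℂ) * T =
        T * (τ g : Matrix (Fin q) (Fin q) ℂ).map (starRingEnd ℂ)) → T = 0)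
    (a c : Fin p) (b e : Fin q) :
    ∫ g, (ρ g : Matrix (Fin p) (Fin p) ℂ) a c * (τ g : Matrix (Fin q) (Fin q) ℂ) b e ∂μ = 0 := by
  have := hne _ (fun h => intertwine μ ρ τ hρ hτ c e h)
  have h2 := congrFun (congrFun this a) b
  simpa using h2

omit [CompactSpace G] in
/-- first moments vanish -/
lemma schur_first (hρ : Continuous fun g => (ρ g : Matrix (Fin p) (Fin p) ℂ))
    (hne : ∀ T : Matrix (Fin p) (Fin p) ℂ,
      (∀ g, (ρ g : Matrix (Fin p) (Fin p) ℂ) * T =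
        T * (ρ g : Matrix (Fin p) (Fin p) ℂ).map (starRingEnd ℂ)) → T = 0)
    (a c : Fin p) : ∫ g, (ρ g : Matrix (Fin p) (Fin p) ℂ) a c ∂μ = 0 := by
  set P : Matrix (Fin p) (Fin p) ℂ := Matrix.of fun a c =>
    ∫ g, (ρ g : Matrix (Fin p) (Fin p) ℂ) a c ∂μ with hP
  have hleft : ∀ h, (ρ h : Matrix (Fin p) (Fin p) ℂ) * P = P := by
    intro h
    ext a b
    rw [Matrix.mul_apply]
    simp only [hP, Matrix.of_apply]
    have e1 : ∀ x, (ρ h : Matrix (Fin p) (Fin p) ℂ) a x * ∫ g, (ρ g : Matrix (Fin p) (Fin p) ℂ) x b ∂μ =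
      ∫ g, (ρ h : Matrix (Fin p) (Fin p) ℂ) a x * (ρ g : Matrix (Fin p) (Fin p) ℂ) x b ∂μ :=
      fun x => (integral_const_mul _ _).symm
    simp_rw [e1]
    rw [← integral_finsetSum _ fun x _ => (integrable_entry μ ρ hρ x b).const_mul _]
    simp_rw [← mul_entry]
    exact integral_mul_left_eq_self (fun g => (ρ g : Matrix (Fin p) (Fin p) ℂ) a b) h
  -- `P * X * Pᵀ` is an intertwiner for every `X`
  have key : ∀ X : Matrix (Fin p) (Fin p) ℂ, P * X * Pᵀ = 0 := by
    intro X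
    apply hne
    intro g
    have h1 : (ρ g : Matrix (Fin p) (Fin p) ℂ) * (P * X * Pᵀ) = P * X * Pᵀ := by
      rw [← Matrix.mul_assoc, ← Matrix.mul_assoc, hleft]
    have h2 : Pᵀ * (ρ g : Matrix (Fin p) (Fin p) ℂ).map (starRingEnd ℂ) = Pᵀ := by
      have h3 := congrArg Matrix.transpose (hleft g⁻¹)
      rw [Matrix.transpose_mul] at h3
      have h4 : (ρ g : Matrix (Fin p) (Fin p) ℂ).map (starRingEnd ℂ) =
          (ρ g⁻¹ : Matrix (Fin p) (Fin p) ℂ)ᵀ := by
        ext x y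
        rw [Matrix.map_apply, Matrix.transpose_apply, inv_entry]
      rw [h4, h3]
    rw [h1, Matrix.mul_assoc (P * X) Pᵀ, h2]
  have h4 := congrFun (congrFun (key (Matrix.single c c 1)) a) a
  rw [Matrix.mul_apply] at h4
  have h5 : P a c * P a c = 0 := by
    simpa [Matrix.mul_apply, Matrix.single_apply, Finset.sum_mul, ite_and] using h4
  exact mul_self_eq_zero.mp h5

end single

end Pool.Agent.H28.Schur
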