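import Mathlib

open MeasureTheory ProbabilityTheory
open scoped ENNReal NNReal BigOperators ComplexConjugate

namespace Pool.Agent.H28.SumMoments

/-- Elementary inequality `exp x ≤ 1 + x + x^2/2 * (1 + 4/9 |x|)` for `|x| ≤ 1`. -/
lemma exp_le_quad (x : ℝ) (hx : |x| ≤ 1) :
    Real.exp x ≤ 1 + x + x ^ 2 / 2 * (1 + 4 / 9 * |x|) := by
  have h := Real.exp_bound hx (n := 3) (by norm_num)
  have h2 := (abs_le.mp h).2
  simp only [Finset.sum_range_succ, Finset.sum_range_zero, Nat.factorial] at h2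
  have h3 : |x| ^ 3 = x ^ 2 * |x| := by rw [pow_succ, sq_abs]
  rw [h3] at h2
  push_cast at h2
  norm_num at h2
  linarith

section mgf

variable {G : Type*} [MeasurableSpace G] (μ : Measure G) [IsProbabilityMeasure μ]

lemma mgf_bound (p : G → ℝ) (hp : Measurable p) (A : ℝ) (hA : ∀ h, |p h| ≤ A)
    (h0 : ∫ h, p h ∂μ = 0) (h1 : ∫ h, (p h) ^ 2 ∂μ = 1 / 2) (θ ε : ℝ)
    (hθ : |θ| * A ≤ 1) (hε : 4 / 9 * (|θ| * A) ≤ ε) :
    ∫ h, Real.exp (θ * p h) ∂μ ≤ Real.exp (θ ^ 2 / 4 * (1 + ε)) := by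
  have hip : Integrable p μ := Integrable.of_bound hp.aestronglyMeasurable (C := A)
    (Filter.Eventually.of_forall hA)
  have hip2 : Integrable (fun h => (p h) ^ 2) μ :=
    Integrable.of_bound (hp.pow_const 2).aestronglyMeasurable (C := A ^ 2)
      (Filter.Eventually.of_forall fun h => by
        rw [Real.norm_eq_abs, abs_pow]
        exact pow_le_pow_left₀ (abs_nonneg _) (hA h) 2)
  have hbound : ∀ h, |θ * p h| ≤ |θ| * A := fun h => by
    rw [abs_mul]; exact mul_le_mul_of_nonneg_left (hA h) (abs_nonneg _)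
  have hle : ∀ h, Real.exp (θ * p h) ≤ 1 + θ * p h + (θ ^ 2 / 2 * (1 + ε)) * (p h) ^ 2 := by
    intro h
    have h2 := exp_le_quad (θ * p h) ((hbound h).trans hθ)
    have h3 : 4 / 9 * |θ * p h| ≤ ε := by
      have := hbound h; linarith
    have h4 : (θ * p h) ^ 2 / 2 * (1 + 4 / 9 * |θ * p h|) ≤ (θ * p h) ^ 2 / 2 * (1 + ε) := by
      apply mul_le_mul_of_nonneg_left _ (by positivity)
      linarith
    calc Real.exp (θ * p h) ≤ _ := h2
      _ ≤ 1 + θ * p h + (θ * p h) ^ 2 / 2 * (1 + ε) := by linarith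
      _ = _ := by ring
  have hie : Integrable (fun h => Real.exp (θ * p h)) μ := by
    refine Integrable.of_bound (C := Real.exp (|θ| * A))
      (Real.measurable_exp.comp (hp.const_mul θ)).aestronglyMeasurable ?_
    filter_upwards with h
    rw [Real.norm_eq_abs, Real.abs_exp]
    exact Real.exp_le_exp.mpr ((le_abs_self _).trans (hbound h))
  calc ∫ h, Real.exp (θ * p h) ∂μ
      ≤ ∫ h, (1 + θ * p h + (θ ^ 2 / 2 * (1 + ε)) * (p h) ^ 2) ∂μ := by
        apply integral_mono hie _ hle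
        exact ((integrable_const _).add (hip.const_mul θ)).add (hip2.const_mul _)
    _ = 1 + θ ^ 2 / 4 * (1 + ε) := by
        have e : ∫ h, (1 + θ * p h + (θ ^ 2 / 2 * (1 + ε)) * (p h) ^ 2) ∂μ =
            (∫ h, (1 + θ * p h) ∂μ) + ∫ h, (θ ^ 2 / 2 * (1 + ε)) * (p h) ^ 2 ∂μ :=
          integral_add ((integrable_const _).add (hip.const_mul θ)) (hip2.const_mul _)
        have e2 : ∫ h, (1 + θ * p h) ∂μ = (∫ _h, (1 : ℝ) ∂μ) + ∫ h, θ * p h ∂μ :=
          integral_add (integrable_const _) (hip.const_mul θ)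
        rw [e, e2, integral_const_mul, integral_const_mul, h0, h1]
        simp
        ring
    _ ≤ Real.exp (θ ^ 2 / 4 * (1 + ε)) := by
        have := Real.add_one_le_exp (θ ^ 2 / 4 * (1 + ε))
        linarith

lemma even_moment (p : G → ℝ) (hp : Measurable p) (A : ℝ) (hA : ∀ h, |p h| ≤ A)
    (h0 : ∫ h, p h ∂μ = 0) (h1 : ∫ h, (p h) ^ 2 ∂μ = 1 / 2) (θ ε : ℝ) (hθ0 : 0 < θ)
    (hθ : θ * A ≤ 1) (hε : 4 / 9 * (θ * A) ≤ ε) (n d : ℕ) :
    ∫ h, (∑ i, p (h i)) ^ (2 * d) ∂(Measure.pi fun _ : Fin n => μ) ≤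
      2 * ((2 * d).factorial : ℝ) / θ ^ (2 * d) * Real.exp (n * (θ ^ 2 / 4 * (1 + ε))) := by
  set r : (Fin n → G) → ℝ := fun h => ∑ i, p (h i) with hr
  have hrm : Measurable r := Finset.measurable_sum _ fun i _ => hp.comp (measurable_pi_apply i)
  have hrb : ∀ h, |r h| ≤ n * A := by
    intro h
    calc |r h| ≤ ∑ i : Fin n, |p (h i)| := Finset.abs_sum_le_sum_abs _ _
      _ ≤ ∑ i : Fin n, A := Finset.sum_le_sum fun i _ => hA _
      _ = n * A := by simp
  have hexp : ∀ t : ℝ, ∀ h, Real.exp (t * r h) = ∏ i, Real.exp (t * p (h i)) := by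
    intro t h
    rw [hr, Finset.mul_sum, Real.exp_sum]
  have hmgf : ∀ t : ℝ, |t| = θ → ∫ h, Real.exp (t * r h) ∂(Measure.pi fun _ : Fin n => μ) ≤
      Real.exp (n * (θ ^ 2 / 4 * (1 + ε))) := by
    intro t ht
    simp_rw [hexp t]
    rw [integral_fintype_prod_eq_prod (fun _ h => Real.exp (t * p h))]
    have hb := mgf_bound μ p hp A hA h0 h1 t ε (by rw [ht]; exact hθ) (by rw [ht]; exact hε)
    have ht2 : t ^ 2 = θ ^ 2 := by rw [← ht, sq_abs]
    rw [ht2] at hb
    calc ∏ _i : Fin n, ∫ h, Real.exp (t * p h) ∂μ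
        ≤ ∏ _i : Fin n, Real.exp (θ ^ 2 / 4 * (1 + ε)) := by
          refine Finset.prod_le_prod (fun _ _ => integral_nonneg fun h => (Real.exp_pos _).le)
            fun _ _ => hb
      _ = Real.exp (n * (θ ^ 2 / 4 * (1 + ε))) := by
          rw [Finset.prod_const, ← Real.exp_nat_mul]; simp
  have hint : ∀ t : ℝ, Integrable (fun h => Real.exp (t * r h)) (Measure.pi fun _ : Fin n => μ) := by
    intro t
    refine Integrable.of_bound (C := Real.exp (|t| * (n * A)))
      (Real.measurable_exp.comp (hrm.const_mul t)).aestronglyMeasurable ?_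
    filter_upwards with h
    rw [Real.norm_eq_abs, Real.abs_exp]
    refine Real.exp_le_exp.mpr ((le_abs_self _).trans ?_)
    rw [abs_mul]
    exact mul_le_mul_of_nonneg_left (hrb h) (abs_nonneg _)
  have hpt : ∀ h, (r h) ^ (2 * d) ≤ ((2 * d).factorial : ℝ) / θ ^ (2 * d) *
      (Real.exp (θ * r h) + Real.exp (-θ * r h)) := by
    intro h
    have h1 := Real.pow_div_factorial_le_exp (θ * |r h|) (by positivity) (2 * d)
    have h2 : Real.exp (θ * |r h|) ≤ Real.exp (θ * r h) + Real.exp (-θ * r h) := by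
      rcases abs_cases (r h) with ⟨h3, _⟩ | ⟨h3, _⟩
      · rw [h3]; linarith [Real.exp_pos (-θ * r h)]
      · rw [h3]
        have : θ * -r h = -θ * r h := by ring
        rw [this]; linarith [Real.exp_pos (θ * r h)]
    have hf : (0 : ℝ) < ((2 * d).factorial : ℝ) := by exact_mod_cast Nat.factorial_pos _
    have hθp : 0 < θ ^ (2 * d) := by positivity
    have h3 : (r h) ^ (2 * d) = |r h| ^ (2 * d) := by
      rw [pow_mul, pow_mul, sq_abs]
    have h4 : (θ * |r h|) ^ (2 * d) ≤ ((2 * d).factorial : ℝ) *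
        (Real.exp (θ * r h) + Real.exp (-θ * r h)) := by
      have := h1.trans h2
      rw [div_le_iff₀ hf] at this
      linarith
    rw [h3, div_mul_eq_mul_div, le_div_iff₀ hθp]
    rw [mul_pow] at h4
    linarith
  have hlhs : Integrable (fun h => (r h) ^ (2 * d)) (Measure.pi fun _ : Fin n => μ) := by
    refine Integrable.of_bound (C := (n * A) ^ (2 * d))
      (hrm.pow_const _).aestronglyMeasurable ?_
    filter_upwards with h
    rw [Real.norm_eq_abs, abs_pow]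
    exact pow_le_pow_left₀ (abs_nonneg _) (hrb h) _
  calc ∫ h, (r h) ^ (2 * d) ∂(Measure.pi fun _ : Fin n => μ)
      ≤ ∫ h, ((2 * d).factorial : ℝ) / θ ^ (2 * d) *
        (Real.exp (θ * r h) + Real.exp (-θ * r h)) ∂(Measure.pi fun _ : Fin n => μ) := by
        apply integral_mono hlhs _ hpt
        exact ((hint θ).add (hint (-θ))).const_mul _
    _ = ((2 * d).factorial : ℝ) / θ ^ (2 * d) *
        ((∫ h, Real.exp (θ * r h) ∂(Measure.pi fun _ : Fin n => μ)) +
          ∫ h, Real.exp (-θ * r h) ∂(Measure.pi fun _ : Fin n => μ)) := by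
        rw [integral_const_mul, integral_add (hint θ) (hint (-θ))]
    _ ≤ ((2 * d).factorial : ℝ) / θ ^ (2 * d) *
        (Real.exp (n * (θ ^ 2 / 4 * (1 + ε))) + Real.exp (n * (θ ^ 2 / 4 * (1 + ε)))) := by
        apply mul_le_mul_of_nonneg_left _ (by positivity)
        exact add_le_add (hmgf θ (abs_of_pos hθ0)) (hmgf (-θ) (by rw [abs_neg, abs_of_pos hθ0]))
    _ = _ := by ring

lemma factorial_exp_bound (d : ℕ) (hd : 1 ≤ d) :
    (d.factorial : ℝ) * Real.exp d ≤ Real.exp 1 * d * (d : ℝ) ^ d := by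
  induction d, hd using Nat.le_induction with
  | base => simp
  | succ d hd ih =>
    have hd0 : (0 : ℝ) < d := by exact_mod_cast hd
    have h1 : Real.exp 1 ≤ ((d + 1 : ℝ) / d) ^ (d + 1) := by
      have h2 := Real.one_sub_inv_le_log_of_pos (x := (d + 1 : ℝ) / d) (by positivity)
      have h3 : 1 - ((d + 1 : ℝ) / d)⁻¹ = 1 / (d + 1) := by
        field_simp; ring
      rw [h3] at h2
      have h4 : (1 : ℝ) ≤ (d + 1 : ℕ) * Real.log ((d + 1 : ℝ) / d) := by
        rw [div_le_iff₀ (by positivity)] at h2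
        push_cast
        linarith
      calc Real.exp 1 ≤ Real.exp ((d + 1 : ℕ) * Real.log ((d + 1 : ℝ) / d)) :=
            Real.exp_le_exp.mpr h4
        _ = ((d + 1 : ℝ) / d) ^ (d + 1) := by
            rw [Real.exp_nat_mul, Real.exp_log (by positivity)]
    have e1 : (((d + 1).factorial : ℕ) : ℝ) * Real.exp ((d + 1 : ℕ) : ℝ) =
        ((d.factorial : ℝ) * Real.exp d) * ((d + 1) * Real.exp 1) := by
      rw [Nat.factorial_succ]; push_cast; rw [Real.exp_add]; ring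
    rw [e1]
    calc ((d.factorial : ℝ) * Real.exp d) * ((d + 1) * Real.exp 1)
        ≤ (Real.exp 1 * d * (d : ℝ) ^ d) * ((d + 1) * ((d + 1 : ℝ) / d) ^ (d + 1)) := by
          apply mul_le_mul ih _ (by positivity) (by positivity)
          exact mul_le_mul_of_nonneg_left h1 (by positivity)
      _ = Real.exp 1 * ((d + 1 : ℕ) : ℝ) * ((d + 1 : ℕ) : ℝ) ^ (d + 1) := by
          push_cast
          rw [div_pow]
          field_simp
          ring

lemma factorial_two_mul_bound (d : ℕ) (hd : 1 ≤ d) :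
    ((2 * d).factorial : ℝ) * Real.exp d ≤
      Real.exp 1 * d * (d.factorial : ℝ) * (4 * (d : ℝ)) ^ d := by
  have h1 : ((2 * d).factorial : ℝ) ≤ 4 ^ d * (d.factorial : ℝ) * d.factorial := by
    have h2 : (2 * d).factorial = (2 * d).choose d * d.factorial * d.factorial := by
      have := Nat.choose_mul_factorial_mul_factorial (n := 2 * d) (k := d) (by omega)
      have e : 2 * d - d = d := by omega
      rw [e] at this
      exact this.symm
    have h3 : (2 * d).choose d ≤ 4 ^ d := by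
      calc (2 * d).choose d ≤ 2 ^ (2 * d) := Nat.choose_le_two_pow _ _
        _ = 4 ^ d := by rw [pow_mul]; norm_num
    have h4 : (2 * d).factorial ≤ 4 ^ d * d.factorial * d.factorial := by
      rw [h2]
      exact Nat.mul_le_mul_right _ (Nat.mul_le_mul_right _ h3)
    exact_mod_cast h4
  have h5 := factorial_exp_bound d hd
  calc ((2 * d).factorial : ℝ) * Real.exp d
      ≤ (4 ^ d * (d.factorial : ℝ) * d.factorial) * Real.exp d :=
        mul_le_mul_of_nonneg_right h1 (Real.exp_pos _).le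
    _ = 4 ^ d * (d.factorial : ℝ) * ((d.factorial : ℝ) * Real.exp d) := by ring
    _ ≤ 4 ^ d * (d.factorial : ℝ) * (Real.exp 1 * d * (d : ℝ) ^ d) :=
        mul_le_mul_of_nonneg_left h5 (by positivity)
    _ = _ := by rw [mul_pow]; ring

/-- Optimised even moment bound. -/
lemma even_moment_opt (p : G → ℝ) (hp : Measurable p) (A : ℝ) (hA : ∀ h, |p h| ≤ A)
    (h0 : ∫ h, p h ∂μ = 0) (h1 : ∫ h, (p h) ^ 2 ∂μ = 1 / 2) (ε c : ℝ) (hε : 0 < ε) (hc : 0 < c)
    (hc1 : 2 * Real.sqrt c * A ≤ 1) (hc2 : 4 / 9 * (2 * Real.sqrt c * A) ≤ ε) (hA0 : 0 ≤ A)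
    (n d : ℕ) (hd : 1 ≤ d) (hdn : (d : ℝ) ≤ c * n) :
    (∫ h, (∑ i, p (h i)) ^ (2 * d) ∂(Measure.pi fun _ : Fin n => μ)) /
      ((n : ℝ) ^ d * d.factorial) ≤ 2 * Real.exp 1 * d * (1 + ε) ^ d := by
  have hd0 : (0 : ℝ) < d := by exact_mod_cast hd
  have hn0 : (0 : ℝ) < n := by
    by_contra hcon
    have : (n : ℝ) = 0 := le_antisymm (not_lt.mp hcon) (Nat.cast_nonneg n)
    rw [this] at hdn
    linarith
  set θ := Real.sqrt (4 * d / (n * (1 + ε))) with hθ
  have hθ0 : 0 < θ := Real.sqrt_pos.mpr (by positivity)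
  have hθ2 : θ ^ 2 = 4 * d / (n * (1 + ε)) := Real.sq_sqrt (by positivity)
  have hθle : θ ≤ 2 * Real.sqrt c := by
    rw [hθ]
    have : (2 : ℝ) * Real.sqrt c = Real.sqrt (4 * c) := by
      rw [Real.sqrt_mul (by norm_num)]
      congr 1
      rw [show (4 : ℝ) = 2 ^ 2 by norm_num, Real.sqrt_sq (by norm_num)]
    rw [this]
    apply Real.sqrt_le_sqrt
    rw [div_le_iff₀ (by positivity)]
    have : 0 ≤ c * n * ε := by positivity
    nlinarith
  have hθA : θ * A ≤ 2 * Real.sqrt c * A := mul_le_mul_of_nonneg_right hθle hA0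
  have key := even_moment μ p hp A hA h0 h1 θ ε hθ0 (hθA.trans hc1) (by linarith) n d
  have hexp : Real.exp (n * (θ ^ 2 / 4 * (1 + ε))) = Real.exp d := by
    congr 1
    rw [hθ2]; field_simp
  rw [hexp] at key
  have hpow : θ ^ (2 * d) = (4 * d) ^ d / (n ^ d * (1 + ε) ^ d) := by
    rw [pow_mul, hθ2, div_pow, mul_pow (n : ℝ)]
  rw [hpow] at key
  have hfd : (0 : ℝ) < (d.factorial : ℝ) := by exact_mod_cast Nat.factorial_pos _
  rw [div_le_iff₀ (by positivity)]
  have hb := factorial_two_mul_bound d hd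
  calc (∫ h, (∑ i, p (h i)) ^ (2 * d) ∂(Measure.pi fun _ : Fin n => μ))
      ≤ 2 * ((2 * d).factorial : ℝ) / ((4 * d) ^ d / (n ^ d * (1 + ε) ^ d)) * Real.exp d := key
    _ = 2 * (n ^ d * (1 + ε) ^ d) / (4 * d) ^ d * (((2 * d).factorial : ℝ) * Real.exp d) := by
        field_simp
    _ ≤ 2 * (n ^ d * (1 + ε) ^ d) / (4 * d) ^ d *
        (Real.exp 1 * d * (d.factorial : ℝ) * (4 * (d : ℝ)) ^ d) :=
        mul_le_mul_of_nonneg_left hb (by positivity)
    _ = _ := by field_simp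

end mgf

section net

variable {ι : Type*} [Fintype ι]

lemma exists_net (δ : ℝ) (hδ : 0 < δ) :
    ∃ N : Finset (EuclideanSpace ℂ ι), (∀ u ∈ N, ‖u‖ = 1) ∧
      ∀ s : EuclideanSpace ℂ ι, s ≠ 0 → ∃ u ∈ N, (1 - δ) * ‖s‖ ≤ (inner ℂ u s).re := by
  obtain ⟨t, hts, htf, hcov⟩ := (isCompact_sphere (0 : EuclideanSpace ℂ ι) 1).finite_cover_balls hδ
  refine ⟨htf.toFinset, ?_, ?_⟩
  · intro u hu
    have := hts (htf.mem_toFinset.mp hu)
    simpa using this
  · intro s hs
    have hs0 : 0 < ‖s‖ := norm_pos_iff.mpr hs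
    set w : EuclideanSpace ℂ ι := ((‖s‖⁻¹ : ℝ) : ℂ) • s with hw
    have hw1 : ‖w‖ = 1 := by
      rw [hw, norm_smul]
      simp [hs0.ne']
    have hwm : w ∈ Metric.sphere (0 : EuclideanSpace ℂ ι) 1 := by simp [hw1]
    obtain ⟨u, hu, hwu⟩ := Set.mem_iUnion₂.mp (hcov hwm)
    refine ⟨u, htf.mem_toFinset.mpr hu, ?_⟩
    have hd : ‖u - w‖ ≤ δ := by
      rw [← dist_eq_norm, dist_comm]; exact (Metric.mem_ball.mp hwu).le
    have h1 : (inner ℂ u w).re = 1 + (inner ℂ (u - w) w).re := by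
      have : (inner ℂ w w).re = 1 := by
        have := inner_self_eq_norm_sq (𝕜 := ℂ) w
        simp only [RCLike.re_to_complex] at this
        rw [this, hw1]; norm_num
      rw [inner_sub_left, Complex.sub_re, this]; ring
    have h2 : -δ ≤ (inner ℂ (u - w) w).re := by
      have h3 : |(inner ℂ (u - w) w).re| ≤ ‖u - w‖ * ‖w‖ :=
        (Complex.abs_re_le_norm _).trans (norm_inner_le_norm _ _)
      rw [hw1, mul_one] at h3
      have := (abs_le.mp h3).1
      linarith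
    have h4 : (inner ℂ u w).re = ‖s‖⁻¹ * (inner ℂ u s).re := by
      rw [hw, inner_smul_right]
      simp
    have h5 : 1 - δ ≤ ‖s‖⁻¹ * (inner ℂ u s).re := by rw [← h4, h1]; linarith
    calc (1 - δ) * ‖s‖ ≤ (‖s‖⁻¹ * (inner ℂ u s).re) * ‖s‖ :=
          mul_le_mul_of_nonneg_right h5 hs0.le
      _ = (inner ℂ u s).re := by field_simp

lemma net_pow (δ : ℝ) (hδ1 : δ < 1) (N : Finset (EuclideanSpace ℂ ι))
    (hN : ∀ s : EuclideanSpace ℂ ι, s ≠ 0 → ∃ u ∈ N, (1 - δ) * ‖s‖ ≤ (inner ℂ u s).re)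
    (d : ℕ) (hd : 1 ≤ d) (s : EuclideanSpace ℂ ι) :
    ((1 - δ) ^ 2) ^ d * (‖s‖ ^ 2) ^ d ≤ ∑ u ∈ N, ((inner ℂ u s).re) ^ (2 * d) := by
  by_cases hs : s = 0
  · subst hs
    have hd0 : d ≠ 0 := by omega
    simp [hd0]
  · obtain ⟨u, hu, h⟩ := hN s hs
    have h0 : 0 ≤ (1 - δ) * ‖s‖ := mul_nonneg (by linarith) (norm_nonneg _)
    calc ((1 - δ) ^ 2) ^ d * (‖s‖ ^ 2) ^ d = ((1 - δ) * ‖s‖) ^ (2 * d) := by
          rw [mul_pow, pow_mul, pow_mul]
      _ ≤ ((inner ℂ u s).re) ^ (2 * d) := pow_le_pow_left₀ h0 h _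
      _ ≤ _ := Finset.single_le_sum (f := fun u => ((inner ℂ u s).re) ^ (2 * d))
          (fun u _ => by rw [pow_mul]; positivity) hu

end net

section vec

variable {G : Type*} [MeasurableSpace G] (μ : Measure G) [IsProbabilityMeasure μ]
variable {ι : Type*} [Fintype ι] [DecidableEq ι]

/-- second moment of a one-dimensional projection -/
lemma proj_second_moment (v : ι → G → ℂ) (hv : ∀ k, Measurable (v k)) (b : ℝ)
    (hb : ∀ k h, ‖v k h‖ ≤ b)
    (h1 : ∀ k l, ∫ h, v k h * conj (v l h) ∂μ = if k = l then 1 else 0)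
    (h2 : ∀ k l, ∫ h, v k h * v l h ∂μ = 0) (u : EuclideanSpace ℂ ι) (hu : ‖u‖ = 1) :
    ∫ h, ((∑ k, conj (u k) * v k h).re) ^ 2 ∂μ = 1 / 2 := by
  have hb' : ∀ _k : ι, 0 ≤ b := by
    intro k
    have : Nonempty G := by
      by_contra hcon
      rw [not_nonempty_iff] at hcon
      have := measure_univ (μ := μ)
      rw [Set.univ_eq_empty_iff.mpr hcon] at this
      simp at this
    obtain ⟨h⟩ := this
    exact (norm_nonneg _).trans (hb k h)
  have hint1 : ∀ k l, Integrable (fun h => v k h * conj (v l h)) μ := by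
    intro k l
    refine Integrable.of_bound (C := b * b) ?_ ?_
    · have : Measurable fun h => v k h * conj (v l h) :=
        (hv k).mul (Complex.continuous_conj.measurable.comp (hv l))
      exact this.aestronglyMeasurable
    · filter_upwards with h
      rw [norm_mul, RCLike.norm_conj]
      exact mul_le_mul (hb k h) (hb l h) (norm_nonneg _) (hb' k)
  have hint2 : ∀ k l, Integrable (fun h => v k h * v l h) μ := by
    intro k l
    refine Integrable.of_bound (C := b * b) ?_ ?_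
    · exact ((hv k).mul (hv l)).aestronglyMeasurable
    · filter_upwards with h
      rw [norm_mul]
      exact mul_le_mul (hb k h) (hb l h) (norm_nonneg _) (hb' k)
  set w : G → ℂ := fun h => ∑ k, conj (u k) * v k h with hw
  have e1 : ∀ h, ((w h).re) ^ 2 = (1 / 2) * (w h * conj (w h)).re + (1 / 2) * (w h * w h).re := by
    intro h
    simp only [Complex.mul_re, Complex.conj_re, Complex.conj_im]
    ring
  have ew1 : ∀ h, w h * conj (w h) = ∑ k, ∑ l, (conj (u k) * u l) * (v k h * conj (v l h)) := by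
    intro h
    rw [hw]
    simp only [map_sum, map_mul, Complex.conj_conj]
    rw [Finset.sum_mul_sum]
    exact Finset.sum_congr rfl fun k _ => Finset.sum_congr rfl fun l _ => by ring
  have ew2 : ∀ h, w h * w h = ∑ k, ∑ l, (conj (u k) * conj (u l)) * (v k h * v l h) := by
    intro h
    rw [hw]
    simp only
    rw [Finset.sum_mul_sum]
    exact Finset.sum_congr rfl fun k _ => Finset.sum_congr rfl fun l _ => by ring
  have hi1 : Integrable (fun h => w h * conj (w h)) μ := by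
    simp_rw [ew1]
    exact integrable_finsetSum _ fun k _ => integrable_finsetSum _ fun l _ =>
      (hint1 k l).const_mul _
  have hi2 : Integrable (fun h => w h * w h) μ := by
    simp_rw [ew2]
    exact integrable_finsetSum _ fun k _ => integrable_finsetSum _ fun l _ =>
      (hint2 k l).const_mul _
  have hI1 : ∫ h, w h * conj (w h) ∂μ = 1 := by
    simp_rw [ew1]
    rw [integral_finsetSum _ fun k _ => integrable_finsetSum _ fun l _ => (hint1 k l).const_mul _]
    have : ∀ k, ∫ h, ∑ l, (conj (u k) * u l) * (v k h * conj (v l h)) ∂μ =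
        conj (u k) * u k := by
      intro k
      rw [integral_finsetSum _ fun l _ => (hint1 k l).const_mul _]
      simp_rw [integral_const_mul, h1]
      simp
    simp_rw [this]
    have hn : ∑ k, conj (u k) * u k = ((‖u‖ ^ 2 : ℝ) : ℂ) := by
      rw [EuclideanSpace.norm_sq_eq]
      push_cast
      exact Finset.sum_congr rfl fun k _ => by
        rw [mul_comm, Complex.mul_conj, Complex.normSq_eq_norm_sq]; push_cast; rfl
    rw [hn, hu]; norm_num
  have hI2 : ∫ h, w h * w h ∂μ = 0 := by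
    simp_rw [ew2]
    rw [integral_finsetSum _ fun k _ => integrable_finsetSum _ fun l _ => (hint2 k l).const_mul _]
    refine Finset.sum_eq_zero fun k _ => ?_
    rw [integral_finsetSum _ fun l _ => (hint2 k l).const_mul _]
    refine Finset.sum_eq_zero fun l _ => ?_
    rw [integral_const_mul, h2, mul_zero]
  have hre1 : ∫ h, (w h * conj (w h)).re ∂μ = 1 := by
    have : ∫ h, (w h * conj (w h)).re ∂μ = (∫ h, w h * conj (w h) ∂μ).re := integral_re hi1
    rw [this, hI1]; simp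
  have hre2 : ∫ h, (w h * w h).re ∂μ = 0 := by
    have : ∫ h, (w h * w h).re ∂μ = (∫ h, w h * w h ∂μ).re := integral_re hi2
    rw [this, hI2]; simp
  have e3 : ∀ h, ((∑ k, conj (u k) * v k h).re) ^ 2 =
      (1 / 2) * (w h * conj (w h)).re + (1 / 2) * (w h * w h).re := e1
  simp_rw [e3]
  rw [integral_add, integral_const_mul, integral_const_mul, hre1, hre2]
  · norm_num
  · exact (Integrable.re hi1).const_mul _
  · exact (Integrable.re hi2).const_mul _

omit [DecidableEq ι] in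
lemma inner_re_eq (u s : EuclideanSpace ℂ ι) :
    (inner ℂ u s).re = (∑ k, conj (u k) * s k).re := by
  rw [PiLp.inner_apply]
  congr 1
  refine Finset.sum_congr rfl fun k _ => ?_
  rw [RCLike.inner_apply]
  ring

/-- The random vector `∑ i, v (h i)`. -/
noncomputable def vsum (v : ι → G → ℂ) {n : ℕ} (h : Fin n → G) : EuclideanSpace ℂ ι :=
  WithLp.toLp 2 (fun k => ∑ i, v k (h i))

omit [DecidableEq ι] [MeasurableSpace G] in
lemma vsum_norm_sq (v : ι → G → ℂ) {n : ℕ} (h : Fin n → G) :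
    ‖vsum v h‖ ^ 2 = ∑ k, ‖∑ i, v k (h i)‖ ^ 2 := by
  rw [EuclideanSpace.norm_sq_eq]
  rfl

omit [DecidableEq ι] [MeasurableSpace G] in
lemma inner_vsum (v : ι → G → ℂ) {n : ℕ} (u : EuclideanSpace ℂ ι) (h : Fin n → G) :
    (inner ℂ u (vsum v h)).re = ∑ i, (∑ k, conj (u k) * v k (h i)).re := by
  rw [inner_re_eq, ← Complex.re_sum, Finset.sum_comm]
  congr 1
  refine Finset.sum_congr rfl fun k _ => ?_
  rw [← Finset.mul_sum]
  rfl

lemma vec_moment (N : Finset (EuclideanSpace ℂ ι)) (δ : ℝ) (hδ1 : δ < 1)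
    (hN1 : ∀ u ∈ N, ‖u‖ = 1)
    (hN : ∀ s : EuclideanSpace ℂ ι, s ≠ 0 → ∃ u ∈ N, (1 - δ) * ‖s‖ ≤ (inner ℂ u s).re)
    (v : ι → G → ℂ) (hv : ∀ k, Measurable (v k)) (b : ℝ) (hb0 : 0 ≤ b)
    (hb : ∀ k h, ‖v k h‖ ≤ b) (h0 : ∀ k, ∫ h, v k h ∂μ = 0)
    (h1 : ∀ k l, ∫ h, v k h * conj (v l h) ∂μ = if k = l then 1 else 0)
    (h2 : ∀ k l, ∫ h, v k h * v l h ∂μ = 0) (ε c : ℝ) (hε : 0 < ε) (hc : 0 < c)
    (hc1 : 2 * Real.sqrt c * (Fintype.card ι * b) ≤ 1)
    (hc2 : 4 / 9 * (2 * Real.sqrt c * (Fintype.card ι * b)) ≤ ε)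
    (n d : ℕ) (hd : 1 ≤ d) (hdn : (d : ℝ) ≤ c * n) :
    (∫ h, (∑ k, ‖∑ i, v k (h i)‖ ^ 2) ^ d ∂(Measure.pi fun _ : Fin n => μ)) /
      ((n : ℝ) ^ d * d.factorial) ≤
      (N.card * (2 * Real.exp 1)) * (d * ((1 + ε) / (1 - δ) ^ 2) ^ d) := by
  have hpos : 0 < ((1 - δ) ^ 2) ^ d := by
    have : 0 < 1 - δ := by linarith
    positivity
  -- pointwise bound
  have hpt : ∀ h : Fin n → G, (∑ k, ‖∑ i, v k (h i)‖ ^ 2) ^ d ≤
      (((1 - δ) ^ 2) ^ d)⁻¹ * ∑ u ∈ N, (∑ i, (∑ k, conj (u k) * v k (h i)).re) ^ (2 * d) := by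
    intro h
    have := net_pow δ hδ1 N hN d hd (vsum v h)
    rw [vsum_norm_sq] at this
    simp_rw [inner_vsum] at this
    rw [inv_mul_eq_div, le_div_iff₀ hpos]
    linarith
  have hpm : ∀ u : EuclideanSpace ℂ ι, Measurable fun h : G => (∑ k, conj (u k) * v k h).re := by
    intro u
    exact Complex.measurable_re.comp (Finset.measurable_sum _ fun k _ => (hv k).const_mul _)
  have hpb : ∀ u ∈ N, ∀ h : G, |(∑ k, conj (u k) * v k h).re| ≤ Fintype.card ι * b := by
    intro u hu h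
    calc |(∑ k, conj (u k) * v k h).re| ≤ ‖∑ k, conj (u k) * v k h‖ := Complex.abs_re_le_norm _
      _ ≤ ∑ k, ‖conj (u k) * v k h‖ := norm_sum_le _ _
      _ ≤ ∑ _k : ι, b := by
          refine Finset.sum_le_sum fun k _ => ?_
          rw [norm_mul, RCLike.norm_conj]
          have hk : ‖u k‖ ≤ 1 := by
            rw [← hN1 u hu]; exact PiLp.norm_apply_le u k
          calc ‖u k‖ * ‖v k h‖ ≤ 1 * b := mul_le_mul hk (hb k h) (norm_nonneg _) zero_le_one
            _ = b := one_mul b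
      _ = Fintype.card ι * b := by simp
  have hp0 : ∀ u : EuclideanSpace ℂ ι, ∫ h, (∑ k, conj (u k) * v k h).re ∂μ = 0 := by
    intro u
    have hi : ∀ k, Integrable (v k) μ := fun k =>
      Integrable.of_bound (hv k).aestronglyMeasurable (C := b) (Filter.Eventually.of_forall (hb k))
    have hi2 : Integrable (fun h => ∑ k, conj (u k) * v k h) μ :=
      integrable_finsetSum _ fun k _ => (hi k).const_mul _
    have e : ∫ h, (∑ k, conj (u k) * v k h).re ∂μ = (∫ h, ∑ k, conj (u k) * v k h ∂μ).re :=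
      integral_re hi2
    rw [e, integral_finsetSum _ fun k _ => (hi k).const_mul _]
    simp_rw [integral_const_mul, h0]
    simp
  have hmom : ∀ u ∈ N, (∫ h, (∑ i, (∑ k, conj (u k) * v k (h i)).re) ^ (2 * d)
      ∂(Measure.pi fun _ : Fin n => μ)) / ((n : ℝ) ^ d * d.factorial) ≤
      2 * Real.exp 1 * d * (1 + ε) ^ d := by
    intro u hu
    exact even_moment_opt μ (fun h => (∑ k, conj (u k) * v k h).re) (hpm u)
      (Fintype.card ι * b) (hpb u hu) (hp0 u)
      (proj_second_moment μ v hv b hb h1 h2 u (hN1 u hu)) ε c hε hc hc1 hc2 (by positivity)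
      n d hd hdn
  have hint : ∀ u ∈ N, Integrable (fun h : Fin n → G =>
      (∑ i, (∑ k, conj (u k) * v k (h i)).re) ^ (2 * d)) (Measure.pi fun _ : Fin n => μ) := by
    intro u hu
    refine Integrable.of_bound (C := (n * (Fintype.card ι * b)) ^ (2 * d))
      ((Finset.measurable_sum _ fun i _ => (hpm u).comp
        (measurable_pi_apply i)).pow_const _).aestronglyMeasurable ?_
    filter_upwards with h
    rw [Real.norm_eq_abs, abs_pow]
    refine pow_le_pow_left₀ (abs_nonneg _) ?_ _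
    calc |∑ i, (∑ k, conj (u k) * v k (h i)).re|
        ≤ ∑ i : Fin n, |(∑ k, conj (u k) * v k (h i)).re| := Finset.abs_sum_le_sum_abs _ _
      _ ≤ ∑ _i : Fin n, (Fintype.card ι * b) := Finset.sum_le_sum fun i _ => hpb u hu (h i)
      _ = n * (Fintype.card ι * b) := by simp
  have hint0 : Integrable (fun h : Fin n → G => (∑ k, ‖∑ i, v k (h i)‖ ^ 2) ^ d)
      (Measure.pi fun _ : Fin n => μ) := by
    have hm : Measurable fun h : Fin n → G => (∑ k, ‖∑ i, v k (h i)‖ ^ 2) ^ d := by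
      refine Measurable.pow_const (Finset.measurable_sum _ fun k _ => Measurable.pow_const ?_ 2) d
      exact (Finset.measurable_sum _ fun i _ => (hv k).comp (measurable_pi_apply i)).norm
    refine Integrable.of_bound (C := (∑ _k : ι, (n * b) ^ 2) ^ d) hm.aestronglyMeasurable ?_
    filter_upwards with h
    rw [Real.norm_eq_abs, abs_of_nonneg (by positivity)]
    refine pow_le_pow_left₀ (by positivity) ?_ _
    refine Finset.sum_le_sum fun k _ => pow_le_pow_left₀ (norm_nonneg _) ?_ _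
    calc ‖∑ i, v k (h i)‖ ≤ ∑ i : Fin n, ‖v k (h i)‖ := norm_sum_le _ _
      _ ≤ ∑ _i : Fin n, b := Finset.sum_le_sum fun i _ => hb k (h i)
      _ = n * b := by simp
  have hD : (0 : ℝ) ≤ (n : ℝ) ^ d * d.factorial := by positivity
  calc (∫ h, (∑ k, ‖∑ i, v k (h i)‖ ^ 2) ^ d ∂(Measure.pi fun _ : Fin n => μ)) /
      ((n : ℝ) ^ d * d.factorial)
      ≤ (∫ h, (((1 - δ) ^ 2) ^ d)⁻¹ * ∑ u ∈ N, (∑ i, (∑ k, conj (u k) * v k (h i)).re) ^ (2 * d)
        ∂(Measure.pi fun _ : Fin n => μ)) / ((n : ℝ) ^ d * d.factorial) := by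
        apply div_le_div_of_nonneg_right _ hD
        exact integral_mono hint0 ((integrable_finsetSum _ hint).const_mul _) hpt
    _ = (((1 - δ) ^ 2) ^ d)⁻¹ * ∑ u ∈ N, (∫ h, (∑ i, (∑ k, conj (u k) * v k (h i)).re) ^ (2 * d)
        ∂(Measure.pi fun _ : Fin n => μ)) / ((n : ℝ) ^ d * d.factorial) := by
        rw [integral_const_mul, integral_finsetSum _ hint, mul_div_assoc, Finset.sum_div]
    _ ≤ (((1 - δ) ^ 2) ^ d)⁻¹ * ∑ _u ∈ N, 2 * Real.exp 1 * d * (1 + ε) ^ d := by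
        apply mul_le_mul_of_nonneg_left _ (by positivity)
        exact Finset.sum_le_sum hmom
    _ = _ := by
        rw [Finset.sum_const, nsmul_eq_mul, div_pow]
        field_simp

end vec

/-- Uniform bound of the truncated exponential series. -/
theorem exists_const {ι : Type*} [Fintype ι] (b lam : ℝ) (hb0 : 0 ≤ b) (hl0 : 0 ≤ lam)
    (hl1 : lam < 1) :
    ∃ c : ℝ, 0 < c ∧ ∃ C : ℝ, ∀ (G : Type) [MeasurableSpace G] (μ : Measure G)
      [IsProbabilityMeasure μ] (v : ι → G → ℂ), (∀ k, Measurable (v k)) →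
      (∀ k h, ‖v k h‖ ≤ b) → (∀ k, ∫ h, v k h ∂μ = 0) →
      (∀ k, ∫ h, v k h * conj (v k h) ∂μ = 1) →
      (∀ k l, k ≠ l → ∫ h, v k h * conj (v l h) ∂μ = 0) →
      (∀ k l, ∫ h, v k h * v l h ∂μ = 0) → ∀ n D : ℕ, (D : ℝ) ≤ c * n →
      ∑ d ∈ Finset.range (D + 1),
        (∫ h, (lam ^ 2 / n * ∑ k, ‖∑ i, v k (h i)‖ ^ 2) ^ d ∂(Measure.pi fun _ : Fin n => μ)) /
          (d.factorial : ℝ) ≤ C := by
  classical
  set δ := (1 - lam) / 2 with hδ
  have hδ0 : 0 < δ := by rw [hδ]; linarith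
  have hδ1 : δ < 1 := by rw [hδ]; linarith
  have h1δ : 1 - δ = (1 + lam) / 2 := by rw [hδ]; ring
  obtain ⟨N, hN1, hN⟩ := exists_net (ι := ι) δ hδ0
  set ε := ((1 + lam) ^ 2 / 4 - lam ^ 2) / 2 with hε
  have hε0 : 0 < ε := by
    rw [hε]; nlinarith
  set ρ := lam ^ 2 * ((1 + ε) / (1 - δ) ^ 2) with hρ
  have hρ0 : 0 ≤ ρ := by positivity
  have hρ1 : ρ < 1 := by
    rw [hρ, h1δ, ← mul_div_assoc, div_lt_one (by positivity)]
    have h3 : lam ^ 2 ≤ 1 := by nlinarith
    have h4 : lam ^ 2 * ε ≤ ε := by nlinarith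
    have h5 : lam ^ 2 < (1 + lam) ^ 2 / 4 := by nlinarith
    have h6 : lam ^ 2 + ε < (1 + lam) ^ 2 / 4 := by rw [hε]; linarith
    calc lam ^ 2 * (1 + ε) = lam ^ 2 + lam ^ 2 * ε := by ring
      _ ≤ lam ^ 2 + ε := by linarith
      _ < (1 + lam) ^ 2 / 4 := h6
      _ = ((1 + lam) / 2) ^ 2 := by ring
  -- the constant c
  set K : ℝ := Fintype.card ι * b with hK
  have hK0 : 0 ≤ K := by positivity
  obtain ⟨t, ht0, ht1, ht2⟩ : ∃ t : ℝ, 0 < t ∧ 2 * t * K ≤ 1 ∧ 4 / 9 * (2 * t * K) ≤ ε := by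
    refine ⟨min 1 ε / (2 * (K + 1)), by positivity, ?_, ?_⟩
    · have : 2 * (min 1 ε / (2 * (K + 1))) * K = min 1 ε * (K / (K + 1)) := by field_simp
      rw [this]
      have h1 : K / (K + 1) ≤ 1 := by rw [div_le_one (by positivity)]; linarith
      have h2 : 0 ≤ K / (K + 1) := by positivity
      calc min 1 ε * (K / (K + 1)) ≤ 1 * 1 :=
            mul_le_mul (min_le_left _ _) h1 h2 zero_le_one
        _ = 1 := one_mul 1
    · have : 2 * (min 1 ε / (2 * (K + 1))) * K = min 1 ε * (K / (K + 1)) := by field_simp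
      rw [this]
      have h1 : K / (K + 1) ≤ 1 := by rw [div_le_one (by positivity)]; linarith
      have h2 : 0 ≤ K / (K + 1) := by positivity
      have h3 : min 1 ε * (K / (K + 1)) ≤ ε * 1 :=
        mul_le_mul (min_le_right _ _) h1 h2 hε0.le
      linarith
  have hsq : Real.sqrt (t ^ 2) = t := Real.sqrt_sq ht0.le
  have hsum : Summable (fun d : ℕ => (d : ℝ) * ρ ^ d) := by
    have := summable_pow_mul_geometric_of_norm_lt_one 1
      (show ‖ρ‖ < 1 by rw [Real.norm_eq_abs, abs_of_nonneg hρ0]; exact hρ1)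
    simpa using this
  refine ⟨t ^ 2, by positivity, 1 + (N.card * (2 * Real.exp 1)) * ∑' d : ℕ, (d : ℝ) * ρ ^ d, ?_⟩
  intro G _ μ _ v hv hb h0 h1 h1' h2 n D hD
  have h1'' : ∀ k l, ∫ h, v k h * conj (v l h) ∂μ = if k = l then 1 else 0 := by
    intro k l
    split_ifs with h
    · subst h; exact h1 k
    · exact h1' k l h
  rw [Finset.sum_range_succ']
  have hterm : ∀ d ∈ Finset.range D, (∫ h, (lam ^ 2 / n * ∑ k, ‖∑ i, v k (h i)‖ ^ 2) ^ (d + 1)
      ∂(Measure.pi fun _ : Fin n => μ)) / ((d + 1).factorial : ℝ) ≤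
      (N.card * (2 * Real.exp 1)) * (((d + 1 : ℕ) : ℝ) * ρ ^ (d + 1)) := by
    intro d hd
    have hd' : d + 1 ≤ D := Finset.mem_range.mp hd
    have hdn : ((d + 1 : ℕ) : ℝ) ≤ t ^ 2 * n :=
      le_trans (by exact_mod_cast hd') hD
    have hn0 : (0 : ℝ) < n := by
      by_contra hcon
      have : (n : ℝ) = 0 := le_antisymm (not_lt.mp hcon) (Nat.cast_nonneg n)
      rw [this] at hdn
      push_cast at hdn
      nlinarith
    have key := vec_moment μ N δ hδ1 hN1 hN v hv b hb0 hb h0 h1'' h2 ε (t ^ 2) hε0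
      (by positivity) (by rw [hsq]; exact ht1) (by rw [hsq]; exact ht2) n (d + 1) (by omega) hdn
    have e1 : (∫ h, (lam ^ 2 / n * ∑ k, ‖∑ i, v k (h i)‖ ^ 2) ^ (d + 1)
        ∂(Measure.pi fun _ : Fin n => μ)) / ((d + 1).factorial : ℝ) =
        (lam ^ 2) ^ (d + 1) * ((∫ h, (∑ k, ‖∑ i, v k (h i)‖ ^ 2) ^ (d + 1)
          ∂(Measure.pi fun _ : Fin n => μ)) / ((n : ℝ) ^ (d + 1) * (d + 1).factorial)) := by
      simp_rw [mul_pow, div_pow]
      rw [integral_const_mul]
      field_simp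
    rw [e1]
    calc (lam ^ 2) ^ (d + 1) * ((∫ h, (∑ k, ‖∑ i, v k (h i)‖ ^ 2) ^ (d + 1)
          ∂(Measure.pi fun _ : Fin n => μ)) / ((n : ℝ) ^ (d + 1) * (d + 1).factorial))
        ≤ (lam ^ 2) ^ (d + 1) * ((N.card * (2 * Real.exp 1)) *
          (((d + 1 : ℕ) : ℝ) * ((1 + ε) / (1 - δ) ^ 2) ^ (d + 1))) :=
          mul_le_mul_of_nonneg_left key (by positivity)
      _ = _ := by rw [hρ, mul_pow]; ring
  have hfirst : (∫ h, (lam ^ 2 / n * ∑ k, ‖∑ i, v k (h i)‖ ^ 2) ^ 0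
      ∂(Measure.pi fun _ : Fin n => μ)) / ((0 : ℕ).factorial : ℝ) = 1 := by simp
  rw [hfirst, add_comm]
  have hs : ∑ d ∈ Finset.range D, (((d + 1 : ℕ) : ℝ) * ρ ^ (d + 1)) ≤
      ∑' d : ℕ, (d : ℝ) * ρ ^ d := by
    have h3 : ∑ d ∈ Finset.range (D + 1), ((d : ℝ) * ρ ^ d) ≤ ∑' d : ℕ, (d : ℝ) * ρ ^ d :=
      hsum.sum_le_tsum _ (fun d _ => by positivity)
    rw [Finset.sum_range_succ'] at h3
    simpa using h3
  have hcoef : (0 : ℝ) ≤ N.card * (2 * Real.exp 1) := by positivity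
  calc 1 + _ ≤ 1 + ∑ d ∈ Finset.range D,
        (N.card * (2 * Real.exp 1)) * (((d + 1 : ℕ) : ℝ) * ρ ^ (d + 1)) := by
        have := Finset.sum_le_sum hterm
        linarith
    _ ≤ _ := by
        rw [← Finset.mul_sum]
        have := mul_le_mul_of_nonneg_left hs hcoef
        linarith

end Pool.Agent.H28.SumMoments
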