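import Mathlib
import Pool.Agent.H28.GaussLowDeg
import Pool.Agent.H28.SumMoments
import Pool.Agent.H28.Schur

open MeasureTheory ProbabilityTheory
open scoped BigOperators ComplexConjugate Matrix

namespace Pool.Agent.Results.MP_634cec_lc.LinearDegree

/-- Index set of the real coordinates of the data: a frequency `k`, an entry (row and column, each
a vertex together with an index inside the `d k × d k` block), and `true` / `false` for the real /
imaginary part of that entry. -/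
abbrev Coord {L : ℕ} (n : ℕ) (d : Fin L → ℕ) : Type :=
  (k : Fin L) × ((Fin n × Fin (d k)) × (Fin n × Fin (d k)) × Bool)

/-- GUE matrices: if `z` has independent standard normal coordinates then the matrices
`gue z k` are independent Hermitian Gaussian matrices whose off-diagonal entries are complex
Gaussian with `E |W i j| ^ 2 = 1` and whose diagonal entries are real standard normal. -/
noncomputable def gue {L n : ℕ} {d : Fin L → ℕ} (z : Coord n d → ℝ) (k : Fin L) :
    Matrix (Fin n × Fin (d k)) (Fin n × Fin (d k)) ℂ :=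
  Matrix.of fun i j =>
    (((z ⟨k, i, j, true⟩ + z ⟨k, j, i, true⟩ : ℝ) : ℂ) +
      ((z ⟨k, i, j, false⟩ - z ⟨k, j, i, false⟩ : ℝ) : ℂ) * Complex.I) / 2

variable {G : Type} [Group G]

/-- The block matrix whose block `(i, j)` is `ρ_k(g_i) ρ_k(g_j)⁻¹ = ρ_k(g_i g_j⁻¹)`. -/
noncomputable def signal {L n : ℕ} {d : Fin L → ℕ}
    (ρ : ∀ k : Fin L, G →* Matrix.unitaryGroup (Fin (d k)) ℂ) (g : Fin n → G) (k : Fin L) :
    Matrix (Fin n × Fin (d k)) (Fin n × Fin (d k)) ℂ :=
  Matrix.of fun i j =>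
    (ρ k (g i.1 * (g j.1)⁻¹) : Matrix (Fin (d k)) (Fin (d k)) ℂ) i.2 j.2

/-- The observation at frequency `k`, with signal strength `lam`:
`Y_k = (lam / n) (ρ_k(g_i) ρ_k(g_j)⁻¹)_{i,j} + (1 / √(n d_k)) W_k`. -/
noncomputable def obs {L n : ℕ} {d : Fin L → ℕ}
    (ρ : ∀ k : Fin L, G →* Matrix.unitaryGroup (Fin (d k)) ℂ) (lam : ℝ)
    (g : Fin n → G) (z : Coord n d → ℝ) (k : Fin L) :
    Matrix (Fin n × Fin (d k)) (Fin n × Fin (d k)) ℂ :=
  ((lam / n : ℝ) : ℂ) • signal ρ g k + ((1 / Real.sqrt (n * d k) : ℝ) : ℂ) • gue z k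

/-- All real and imaginary parts of all entries of the observations. -/
noncomputable def data {L n : ℕ} {d : Fin L → ℕ}
    (ρ : ∀ k : Fin L, G →* Matrix.unitaryGroup (Fin (d k)) ℂ) (lam : ℝ)
    (ω : (Fin n → G) × (Coord n d → ℝ)) : Coord n d → ℝ :=
  fun c => if c.2.2.2 then (obs ρ lam ω.1 ω.2 c.1 c.2.1 c.2.2.1).re
    else (obs ρ lam ω.1 ω.2 c.1 c.2.1 c.2.2.1).im

/-- Joint law of the group elements (independent, distributed according to `μ`) and of the
independent standard normal variables generating the noise. -/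
noncomputable def law [MeasurableSpace G] (μ : Measure G) {L : ℕ} (n : ℕ) (d : Fin L → ℕ) :
    Measure ((Fin n → G) × (Coord n d → ℝ)) :=
  (Measure.pi fun _ : Fin n => μ).prod (Measure.pi fun _ : Coord n d => gaussianReal 0 1)

/-- The frequencies: continuous unitary representations `ρ_k` that are irreducible (commutant =
scalars), pairwise inequivalent (no nonzero intertwiner), and such that none is equivalent to the
complex conjugate of one of them (itself included). -/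
def Admissible [TopologicalSpace G] {L : ℕ} {d : Fin L → ℕ}
    (ρ : ∀ k : Fin L, G →* Matrix.unitaryGroup (Fin (d k)) ℂ) : Prop :=
  (∀ k, Continuous fun g => (ρ k g : Matrix (Fin (d k)) (Fin (d k)) ℂ)) ∧
  (∀ k, ∀ T : Matrix (Fin (d k)) (Fin (d k)) ℂ,
    (∀ g, (ρ k g : Matrix (Fin (d k)) (Fin (d k)) ℂ) * T =
      T * (ρ k g : Matrix (Fin (d k)) (Fin (d k)) ℂ)) →
    ∃ z : ℂ, T = z • (1 : Matrix (Fin (d k)) (Fin (d k)) ℂ)) ∧
  (∀ k l, k ≠ l → ∀ T : Matrix (Fin (d k)) (Fin (d l)) ℂ,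
    (∀ g, (ρ k g : Matrix (Fin (d k)) (Fin (d k)) ℂ) * T =
      T * (ρ l g : Matrix (Fin (d l)) (Fin (d l)) ℂ)) → T = 0) ∧
  (∀ k l, ∀ T : Matrix (Fin (d k)) (Fin (d l)) ℂ,
    (∀ g, (ρ k g : Matrix (Fin (d k)) (Fin (d k)) ℂ) * T =
      T * (ρ l g : Matrix (Fin (d l)) (Fin (d l)) ℂ).map (starRingEnd ℂ)) → T = 0)

section proof

open Pool.Agent.H28.GaussLowDeg Pool.Agent.H28.SumMoments Pool.Agent.H28.Schur

/-- index set of the coordinates of the overlap vector -/
abbrev VIdx {L : ℕ} (d : Fin L → ℕ) : Type := (k : Fin L) × (Fin (d k) × Fin (d k))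

noncomputable def vv {L : ℕ} {d : Fin L → ℕ}
    (ρ : ∀ k : Fin L, G →* Matrix.unitaryGroup (Fin (d k)) ℂ) (c : VIdx d) (g : G) : ℂ :=
  ((Real.sqrt (d c.1) : ℝ) : ℂ) * (ρ c.1 g : Matrix (Fin (d c.1)) (Fin (d c.1)) ℂ) c.2.1 c.2.2

/-- the mean shift in the coordinates of the noise -/
noncomputable def shift {L n : ℕ} {d : Fin L → ℕ}
    (ρ : ∀ k : Fin L, G →* Matrix.unitaryGroup (Fin (d k)) ℂ) (lam : ℝ)
    (g : Fin n → G) : Coord n d → ℝ :=
  fun c => (lam * Real.sqrt (d c.1 / n)) *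
    (if c.2.2.2 then (signal ρ g c.1 c.2.1 c.2.2.1).re else (signal ρ g c.1 c.2.1 c.2.2.1).im)

lemma signal_conj {L n : ℕ} {d : Fin L → ℕ}
    (ρ : ∀ k : Fin L, G →* Matrix.unitaryGroup (Fin (d k)) ℂ) (g : Fin n → G) (k : Fin L)
    (i j : Fin n × Fin (d k)) : signal ρ g k j i = conj (signal ρ g k i j) := by
  simp only [signal, Matrix.of_apply]
  have := inv_entry (ρ k) (g i.1 * (g j.1)⁻¹) j.2 i.2
  rw [← this]
  simp

lemma gue_shift {L n : ℕ} {d : Fin L → ℕ}
    (ρ : ∀ k : Fin L, G →* Matrix.unitaryGroup (Fin (d k)) ℂ) (lam : ℝ)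
    (g : Fin n → G) (z : Coord n d → ℝ) (k : Fin L) (i j : Fin n × Fin (d k)) :
    gue (shift ρ lam g + z) k i j =
      ((lam * Real.sqrt (d k / n) : ℝ) : ℂ) * signal ρ g k i j + gue z k i j := by
  have h := signal_conj ρ g k i j
  simp only [gue, Matrix.of_apply, Pi.add_apply, shift, if_true, h, Complex.conj_re,
    Complex.conj_im, Bool.false_eq_true, if_false]
  apply Complex.ext
  · simp
    ring
  · simp
    ring

lemma obs_eq {L n : ℕ} {d : Fin L → ℕ}
    (ρ : ∀ k : Fin L, G →* Matrix.unitaryGroup (Fin (d k)) ℂ) (lam : ℝ)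
    (g g' : Fin n → G) (z : Coord n d → ℝ) (k : Fin L) (i j : Fin n × Fin (d k)) :
    obs ρ lam g z k i j = obs ρ 0 g' (shift ρ lam g + z) k i j := by
  have hn : (0 : ℝ) < n := by
    have := i.1.pos
    exact_mod_cast this
  have hd : (0 : ℝ) < d k := by
    have := i.2.pos
    exact_mod_cast this
  simp only [obs, Matrix.add_apply, Matrix.smul_apply, smul_eq_mul, gue_shift]
  have h1 : (1 / Real.sqrt (n * d k)) * (lam * Real.sqrt (d k / n)) = lam / n := by
    rw [Real.sqrt_mul hn.le, Real.sqrt_div hd.le]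
    have h2 : Real.sqrt n * Real.sqrt n = n := Real.mul_self_sqrt hn.le
    have h3 : Real.sqrt n ≠ 0 := (Real.sqrt_pos.mpr hn).ne'
    have h4 : Real.sqrt (d k) ≠ 0 := (Real.sqrt_pos.mpr hd).ne'
    field_simp
    rw [sq, h2]
    field_simp
  have h2 : ((1 / Real.sqrt (n * d k) : ℝ) : ℂ) * ((lam * Real.sqrt (d k / n) : ℝ) : ℂ) =
      ((lam / n : ℝ) : ℂ) := by
    rw [← Complex.ofReal_mul, h1]
  rw [mul_add, ← mul_assoc, h2]
  simp

/-- the tall matrix stacking the `ρ_k(g_i)` -/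
noncomputable def tall {n p : ℕ} (τ : G →* Matrix.unitaryGroup (Fin p) ℂ) (g : Fin n → G) :
    Matrix (Fin n × Fin p) (Fin p) ℂ :=
  Matrix.of fun i c => (τ (g i.1) : Matrix (Fin p) (Fin p) ℂ) i.2 c

lemma signal_eq_tall {L n : ℕ} {d : Fin L → ℕ}
    (ρ : ∀ k : Fin L, G →* Matrix.unitaryGroup (Fin (d k)) ℂ) (g : Fin n → G) (k : Fin L) :
    signal ρ g k = tall (ρ k) g * (tall (ρ k) g)ᴴ := by
  ext i j
  rw [Matrix.mul_apply]
  simp only [signal, tall, Matrix.of_apply, Matrix.conjTranspose_apply]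
  rw [mul_entry]
  refine Finset.sum_congr rfl fun x _ => ?_
  rw [inv_entry]
  rfl

lemma tall_mul_tall {n p : ℕ} (τ : G →* Matrix.unitaryGroup (Fin p) ℂ) (g g' : Fin n → G)
    (a b : Fin p) : ((tall τ g)ᴴ * tall τ g') a b =
      ∑ i, (τ ((g i)⁻¹ * g' i) : Matrix (Fin p) (Fin p) ℂ) a b := by
  rw [Matrix.mul_apply, Fintype.sum_prod_type]
  refine Finset.sum_congr rfl fun i _ => ?_
  rw [mul_entry]
  refine Finset.sum_congr rfl fun x _ => ?_
  simp only [tall, Matrix.of_apply, Matrix.conjTranspose_apply]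
  rw [inv_entry]
  rfl

lemma sum_signal {L n : ℕ} {d : Fin L → ℕ}
    (ρ : ∀ k : Fin L, G →* Matrix.unitaryGroup (Fin (d k)) ℂ) (g g' : Fin n → G) (k : Fin L) :
    ∑ i, ∑ j, signal ρ g k i j * conj (signal ρ g' k i j) =
      ((∑ a, ∑ b, ‖∑ i, (ρ k ((g i)⁻¹ * g' i) : Matrix (Fin (d k)) (Fin (d k)) ℂ) a b‖ ^ 2 : ℝ) : ℂ) := by
  have h1 : ∑ i, ∑ j, signal ρ g k i j * conj (signal ρ g' k i j) =
      Matrix.trace (signal ρ g k * (signal ρ g' k)ᴴ) := by
    simp only [Matrix.trace, Matrix.diag_apply, Matrix.mul_apply, Matrix.conjTranspose_apply]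
    rfl
  have h2 : ∀ Q : Matrix (Fin (d k)) (Fin (d k)) ℂ, Matrix.trace (Q * Qᴴ) =
      ((∑ a, ∑ b, ‖Q a b‖ ^ 2 : ℝ) : ℂ) := by
    intro Q
    simp only [Matrix.trace, Matrix.diag_apply, Matrix.mul_apply, Matrix.conjTranspose_apply]
    push_cast
    refine Finset.sum_congr rfl fun a _ => Finset.sum_congr rfl fun b _ => ?_
    have : star (Q a b) = conj (Q a b) := rfl
    rw [this, Complex.mul_conj, Complex.normSq_eq_norm_sq]
    push_cast; rfl
  rw [h1, signal_eq_tall, signal_eq_tall]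
  simp_rw [← tall_mul_tall]
  rw [← h2, Matrix.conjTranspose_mul, Matrix.conjTranspose_conjTranspose,
    Matrix.conjTranspose_mul, Matrix.conjTranspose_conjTranspose]
  rw [Matrix.mul_assoc, Matrix.trace_mul_comm]
  congr 1
  simp only [Matrix.mul_assoc]

lemma shift_inner {L n : ℕ} {d : Fin L → ℕ}
    (ρ : ∀ k : Fin L, G →* Matrix.unitaryGroup (Fin (d k)) ℂ) (lam : ℝ) (g g' : Fin n → G) :
    ∑ c, shift ρ lam g c * shift ρ lam g' c =
      lam ^ 2 / n * ∑ c : VIdx d, ‖∑ i, vv ρ c ((g i)⁻¹ * g' i)‖ ^ 2 := by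
  rw [Fintype.sum_sigma, Fintype.sum_sigma, Finset.mul_sum]
  refine Finset.sum_congr rfl fun k _ => ?_
  have hsplit : ∀ F : (Fin n × Fin (d k)) × (Fin n × Fin (d k)) × Bool → ℝ,
      ∑ c, F c = ∑ i, ∑ j, (F (i, j, true) + F (i, j, false)) := by
    intro F
    rw [Fintype.sum_prod_type]
    refine Finset.sum_congr rfl fun i _ => ?_
    rw [Fintype.sum_prod_type]
    refine Finset.sum_congr rfl fun j _ => ?_
    rw [Fintype.sum_bool]
  have hsplit2 : ∀ F : Fin (d k) × Fin (d k) → ℝ, ∑ c, F c = ∑ a, ∑ b, F (a, b) :=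
    fun F => Fintype.sum_prod_type _
  rw [hsplit, hsplit2]
  simp only [shift, if_true, Bool.false_eq_true, if_false]
  have hs : (Real.sqrt (d k / n)) * (Real.sqrt (d k / n)) = d k / n :=
    Real.mul_self_sqrt (by positivity)
  have h1 : ∀ i j : Fin n × Fin (d k),
      lam * Real.sqrt (d k / n) * (signal ρ g k i j).re *
        (lam * Real.sqrt (d k / n) * (signal ρ g' k i j).re) +
      lam * Real.sqrt (d k / n) * (signal ρ g k i j).im *
        (lam * Real.sqrt (d k / n) * (signal ρ g' k i j).im) =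
      (lam ^ 2 * (d k / n)) * (signal ρ g k i j * conj (signal ρ g' k i j)).re := by
    intro i j
    simp only [Complex.mul_re, Complex.conj_re, Complex.conj_im]
    linear_combination (lam ^ 2 * ((signal ρ g k i j).re * (signal ρ g' k i j).re +
      (signal ρ g k i j).im * (signal ρ g' k i j).im)) * hs
  simp_rw [h1, ← Finset.mul_sum, ← Complex.re_sum]
  rw [sum_signal, Complex.ofReal_re]
  have h2 : ∀ a b, ‖∑ i, vv ρ (⟨k, (a, b)⟩ : VIdx d) ((g i)⁻¹ * g' i)‖ ^ 2 =
      d k * ‖∑ i, (ρ k ((g i)⁻¹ * g' i) : Matrix (Fin (d k)) (Fin (d k)) ℂ) a b‖ ^ 2 := by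
    intro a b
    simp only [vv]
    rw [← Finset.mul_sum, norm_mul, mul_pow, Complex.norm_real, Real.norm_eq_abs, sq_abs,
      Real.sq_sqrt (Nat.cast_nonneg _)]
  simp_rw [h2, ← Finset.mul_sum]
  ring

open MvPolynomial in
/-- the linear forms expressing the data of the null model through the noise coordinates -/
noncomputable def lin {L n : ℕ} {d : Fin L → ℕ} (c : Coord n d) : MvPolynomial (Coord n d) ℝ :=
  C ((1 / Real.sqrt (n * d c.1)) / 2) *
    (if c.2.2.2 then X ⟨c.1, c.2.1, c.2.2.1, true⟩ + X ⟨c.1, c.2.2.1, c.2.1, true⟩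
      else X ⟨c.1, c.2.1, c.2.2.1, false⟩ - X ⟨c.1, c.2.2.1, c.2.1, false⟩)

open MvPolynomial in
lemma totalDegree_lin {L n : ℕ} {d : Fin L → ℕ} (c : Coord n d) : (lin c).totalDegree ≤ 1 := by
  unfold lin
  refine (totalDegree_mul _ _).trans ?_
  rw [totalDegree_C, zero_add]
  split_ifs
  · exact (totalDegree_add _ _).trans (by simp)
  · exact (totalDegree_sub _ _).trans (by simp)

open MvPolynomial in
lemma data_eq {L n : ℕ} {d : Fin L → ℕ}
    (ρ : ∀ k : Fin L, G →* Matrix.unitaryGroup (Fin (d k)) ℂ) (lam : ℝ)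
    (ω : (Fin n → G) × (Coord n d → ℝ)) (c : Coord n d) :
    data ρ lam ω c = eval (shift ρ lam ω.1 + ω.2) (lin c) := by
  obtain ⟨k, i, j, b⟩ := c
  have h0 : obs ρ lam ω.1 ω.2 k i j =
      ((1 / Real.sqrt (n * d k) : ℝ) : ℂ) * gue (shift ρ lam ω.1 + ω.2) k i j := by
    rw [obs_eq ρ lam ω.1 ω.1 ω.2 k i j]
    simp [obs]
  cases b
  · simp only [data, lin, Bool.false_eq_true, if_false, h0, Complex.re_ofReal_mul,
      Complex.im_ofReal_mul, gue, Matrix.of_apply, map_mul, eval_C, map_sub, eval_X]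
    simp
    ring
  · simp only [data, lin, if_true, h0, Complex.re_ofReal_mul,
      Complex.im_ofReal_mul, gue, Matrix.of_apply, map_mul, eval_C, map_add, eval_X]
    simp
    ring

open MvPolynomial in
lemma eval_data {L n : ℕ} {d : Fin L → ℕ}
    (ρ : ∀ k : Fin L, G →* Matrix.unitaryGroup (Fin (d k)) ℂ) (lam : ℝ)
    (ω : (Fin n → G) × (Coord n d → ℝ)) (f : MvPolynomial (Coord n d) ℝ) :
    eval (data ρ lam ω) f = eval (shift ρ lam ω.1 + ω.2) (bind₁ lin f) := by
  rw [eval_bind₁]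
  congr 1
  congr 1
  ext c
  exact data_eq ρ lam ω c

lemma shift_zero {L n : ℕ} {d : Fin L → ℕ}
    (ρ : ∀ k : Fin L, G →* Matrix.unitaryGroup (Fin (d k)) ℂ) (g : Fin n → G) :
    shift ρ 0 g = 0 := by
  ext c; simp [shift]

lemma norm_signal_le {L n : ℕ} {d : Fin L → ℕ}
    (ρ : ∀ k : Fin L, G →* Matrix.unitaryGroup (Fin (d k)) ℂ) (g : Fin n → G) (k : Fin L)
    (i j : Fin n × Fin (d k)) : ‖signal ρ g k i j‖ ≤ 1 := by
  simp only [signal, Matrix.of_apply]
  exact norm_entry_le _ _ _ _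

lemma abs_shift_le {L n : ℕ} {d : Fin L → ℕ}
    (ρ : ∀ k : Fin L, G →* Matrix.unitaryGroup (Fin (d k)) ℂ) (lam : ℝ) (g : Fin n → G)
    (c : Coord n d) : |shift ρ lam g c| ≤ ∑ k, |lam * Real.sqrt (d k / n)| := by
  unfold shift
  rw [abs_mul]
  have h1 : |(if c.2.2.2 = true then (signal ρ g c.1 c.2.1 c.2.2.1).re
      else (signal ρ g c.1 c.2.1 c.2.2.1).im)| ≤ 1 := by
    split_ifs
    · exact (Complex.abs_re_le_norm _).trans (norm_signal_le _ _ _ _ _)
    · exact (Complex.abs_im_le_norm _).trans (norm_signal_le _ _ _ _ _)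
  calc |lam * Real.sqrt (d c.1 / n)| * _ ≤ |lam * Real.sqrt (d c.1 / n)| * 1 :=
        mul_le_mul_of_nonneg_left h1 (abs_nonneg _)
    _ = |lam * Real.sqrt (d c.1 / n)| := mul_one _
    _ ≤ _ := Finset.single_le_sum (f := fun k => |lam * Real.sqrt (d k / n)|)
        (fun _ _ => abs_nonneg _) (Finset.mem_univ c.1)

variable [TopologicalSpace G] [IsTopologicalGroup G] [CompactSpace G] [MeasurableSpace G]
  [BorelSpace G]

omit [CompactSpace G] [IsTopologicalGroup G] in
/-- measurability of `g ↦ ρ (g i * (g j)⁻¹) a b` on the product space -/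
lemma measurable_signal {L n : ℕ} {d : Fin L → ℕ}
    (ρ : ∀ k : Fin L, G →* Matrix.unitaryGroup (Fin (d k)) ℂ)
    (hρ : ∀ k, Continuous fun g => (ρ k g : Matrix (Fin (d k)) (Fin (d k)) ℂ)) (k : Fin L)
    (i j : Fin n × Fin (d k)) : Measurable fun g : Fin n → G => signal ρ g k i j := by
  simp only [signal, Matrix.of_apply]
  have h : ∀ g : Fin n → G, (ρ k (g i.1 * (g j.1)⁻¹) : Matrix (Fin (d k)) (Fin (d k)) ℂ) i.2 j.2 =
      ∑ x, (ρ k (g i.1) : Matrix (Fin (d k)) (Fin (d k)) ℂ) i.2 x *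
        conj ((ρ k (g j.1) : Matrix (Fin (d k)) (Fin (d k)) ℂ) j.2 x) := by
    intro g
    rw [mul_entry]
    exact Finset.sum_congr rfl fun x _ => by rw [inv_entry]
  simp_rw [h]
  refine Finset.measurable_sum _ fun x _ => Measurable.mul ?_ ?_
  · exact (measurable_entry (ρ k) (hρ k) _ _).comp (measurable_pi_apply _)
  · exact Complex.continuous_conj.measurable.comp
      ((measurable_entry (ρ k) (hρ k) _ _).comp (measurable_pi_apply _))

omit [CompactSpace G] [IsTopologicalGroup G] in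
lemma measurable_shift {L n : ℕ} {d : Fin L → ℕ}
    (ρ : ∀ k : Fin L, G →* Matrix.unitaryGroup (Fin (d k)) ℂ)
    (hρ : ∀ k, Continuous fun g => (ρ k g : Matrix (Fin (d k)) (Fin (d k)) ℂ)) (lam : ℝ)
    (c : Coord n d) : Measurable fun g : Fin n → G => shift ρ lam g c := by
  unfold shift
  refine Measurable.const_mul ?_ _
  split_ifs
  · exact Complex.measurable_re.comp (measurable_signal ρ hρ _ _ _)
  · exact Complex.measurable_im.comp (measurable_signal ρ hρ _ _ _)

omit [CompactSpace G] in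
/-- The overlap series is bounded, by the moment bound for sums of independent vectors. -/
lemma overlap_bound {L n : ℕ} {d : Fin L → ℕ} (μ : Measure G) [μ.IsHaarMeasure]
    [IsProbabilityMeasure μ] (ρ : ∀ k : Fin L, G →* Matrix.unitaryGroup (Fin (d k)) ℂ)
    (lam : ℝ) (m : ℕ) :
    (∫ g, ∫ g', (∑ c, shift ρ lam g c * shift ρ lam g' c) ^ m
      ∂(Measure.pi fun _ : Fin n => μ) ∂(Measure.pi fun _ : Fin n => μ)) =
    ∫ h, (lam ^ 2 / n * ∑ c : VIdx d, ‖∑ i, vv ρ c (h i)‖ ^ 2) ^ m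
      ∂(Measure.pi fun _ : Fin n => μ) := by
  simp_rw [shift_inner]
  have h : ∀ g : Fin n → G, ∫ g' : Fin n → G,
      (lam ^ 2 / n * ∑ c : VIdx d, ‖∑ i, vv ρ c ((g i)⁻¹ * g' i)‖ ^ 2) ^ m
      ∂(Measure.pi fun _ : Fin n => μ) =
      ∫ h, (lam ^ 2 / n * ∑ c : VIdx d, ‖∑ i, vv ρ c (h i)‖ ^ 2) ^ m
      ∂(Measure.pi fun _ : Fin n => μ) := by
    intro g
    exact integral_mul_left_eq_self (μ := Measure.pi fun _ : Fin n => μ)
      (fun h : Fin n → G => (lam ^ 2 / n * ∑ c : VIdx d, ‖∑ i, vv ρ c (h i)‖ ^ 2) ^ m) g⁻¹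
  simp_rw [h]
  simp

omit [CompactSpace G] [IsTopologicalGroup G] in
lemma measurable_vv {L : ℕ} {d : Fin L → ℕ}
    (ρ : ∀ k : Fin L, G →* Matrix.unitaryGroup (Fin (d k)) ℂ)
    (hρ : ∀ k, Continuous fun g => (ρ k g : Matrix (Fin (d k)) (Fin (d k)) ℂ)) (c : VIdx d) :
    Measurable (vv ρ c) :=
  (measurable_entry (ρ c.1) (hρ c.1) _ _).const_mul _

omit [TopologicalSpace G] [IsTopologicalGroup G] [CompactSpace G] [MeasurableSpace G]
  [BorelSpace G] in
lemma norm_vv_le {L : ℕ} {d : Fin L → ℕ}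
    (ρ : ∀ k : Fin L, G →* Matrix.unitaryGroup (Fin (d k)) ℂ) (c : VIdx d) (g : G) :
    ‖vv ρ c g‖ ≤ ∑ k, Real.sqrt (d k) := by
  unfold vv
  rw [norm_mul, Complex.norm_real, Real.norm_eq_abs, abs_of_nonneg (Real.sqrt_nonneg _)]
  calc _ ≤ Real.sqrt (d c.1) * 1 :=
        mul_le_mul_of_nonneg_left (norm_entry_le _ _ _ _) (Real.sqrt_nonneg _)
    _ = Real.sqrt (d c.1) := mul_one _
    _ ≤ _ := Finset.single_le_sum (f := fun k => Real.sqrt (d k))
        (fun _ _ => Real.sqrt_nonneg _) (Finset.mem_univ c.1)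

end proof

open Pool.Agent.H28.GaussLowDeg Pool.Agent.H28.SumMoments Pool.Agent.H28.Schur in
/-- **Failure of polynomials of linear degree below the spectral threshold.** -/
theorem linear_degree (L : ℕ) (d : Fin L → ℕ) (lam : ℝ) (h0 : 0 ≤ lam) (h1 : lam < 1) :
    ∃ c : ℝ, 0 < c ∧ ∃ C : ℝ, ∀ (G : Type) [Group G] [TopologicalSpace G] [IsTopologicalGroup G]
      [CompactSpace G] [MeasurableSpace G] [BorelSpace G] (μ : Measure G) [μ.IsHaarMeasure]
      [IsProbabilityMeasure μ] (ρ : ∀ k : Fin L, G →* Matrix.unitaryGroup (Fin (d k)) ℂ),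
      Admissible ρ → ∀ n D : ℕ, (D : ℝ) ≤ c * n →
      ∀ f : MvPolynomial (Coord n d) ℝ, f.totalDegree ≤ D →
        ((∫ ω, MvPolynomial.eval (data ρ lam ω) f ∂(law μ n d)) -
          ∫ ω, MvPolynomial.eval (data ρ 0 ω) f ∂(law μ n d)) ^ 2 ≤
        C * Var[fun ω => MvPolynomial.eval (data ρ 0 ω) f; law μ n d] := by
  classical
  obtain ⟨c, hc, C, hC⟩ := exists_const (ι := VIdx d) (∑ k, Real.sqrt (d k)) lam
    (Finset.sum_nonneg fun _ _ => Real.sqrt_nonneg _) h0 h1
  refine ⟨c, hc, C, ?_⟩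
  intro G _ _ _ _ _ _ μ _ _ ρ hρ n D hD f hf
  obtain ⟨hcont, hirr, hne, hconj⟩ := hρ
  set F := MvPolynomial.bind₁ lin f with hF
  have hFdeg : F.totalDegree ≤ D := (totalDegree_bind₁_le lin totalDegree_lin f).trans hf
  have hlaw : law μ n d = (Measure.pi fun _ : Fin n => μ).prod (stdG (Coord n d)) := rfl
  -- expectations under the null model
  have hnull : ∀ ω : (Fin n → G) × (Coord n d → ℝ),
      MvPolynomial.eval (data ρ 0 ω) f = MvPolynomial.eval ω.2 F := by
    intro ω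
    rw [eval_data, shift_zero, zero_add]
  have hint0 : Integrable (fun z : Coord n d → ℝ => MvPolynomial.eval z F)
      (stdG (Coord n d)) := by
    have h := integrable_eval_shift (P := (Measure.dirac () : Measure Unit))
      (X := fun _ _ => (0 : ℝ)) (fun _ => measurable_const) 0 (fun _ _ => by simp) F
    have h2 := h.integral_prod_right
    refine h2.congr ?_
    filter_upwards with z
    simp only [integral_dirac]
    congr 1
    congr 1
    ext c
    simp
  set m := ∫ ω, MvPolynomial.eval (data ρ 0 ω) f ∂(law μ n d) with hm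
  have hm2 : m = ∫ z, MvPolynomial.eval z F ∂(stdG (Coord n d)) := by
    rw [hm, hlaw]
    simp_rw [hnull]
    rw [integral_fun_snd (fun z => MvPolynomial.eval z F)]
    simp
  have hX : ∀ c : Coord n d, Measurable fun g : Fin n → G => shift ρ lam g c :=
    fun c => measurable_shift ρ hcont lam c
  have hB : ∀ (g : Fin n → G) (c : Coord n d), |shift ρ lam g c| ≤
      ∑ k, |lam * Real.sqrt (d k / n)| := fun g c => abs_shift_le ρ lam g c
  have hFm : (F - MvPolynomial.C m).totalDegree ≤ D :=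
    (MvPolynomial.totalDegree_sub _ _).trans (max_le hFdeg (by simp))
  have key := lowdeg_ineq (Measure.pi fun _ : Fin n => μ) (shift ρ lam) hX _ hB
    (F - MvPolynomial.C m) D hFm
  -- left-hand side
  have hL : (∫ ω, MvPolynomial.eval (data ρ lam ω) f ∂(law μ n d)) - m =
      ∫ g, ∫ z, MvPolynomial.eval (shift ρ lam g + z) (F - MvPolynomial.C m)
        ∂(stdG (Coord n d)) ∂(Measure.pi fun _ : Fin n => μ) := by
    have hi := integrable_eval_shift (Measure.pi fun _ : Fin n => μ) (shift ρ lam) hX _ hB F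
    have e1 : ∫ ω, MvPolynomial.eval (data ρ lam ω) f ∂(law μ n d) =
        ∫ ω : (Fin n → G) × (Coord n d → ℝ), MvPolynomial.eval (shift ρ lam ω.1 + ω.2) F
          ∂((Measure.pi fun _ : Fin n => μ).prod (stdG (Coord n d))) := by
      rw [hlaw]
      simp_rw [eval_data]
      rfl
    have hi' := integrable_eval_shift (Measure.pi fun _ : Fin n => μ) (shift ρ lam) hX _ hB
      (F - MvPolynomial.C m)
    rw [← integral_prod _ hi', e1]
    simp only [map_sub, MvPolynomial.eval_C]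
    rw [integral_sub hi (integrable_const _)]
    simp
  -- variance
  have hV : Var[fun ω => MvPolynomial.eval (data ρ 0 ω) f; law μ n d] =
      ∫ z, (MvPolynomial.eval z (F - MvPolynomial.C m)) ^ 2 ∂(stdG (Coord n d)) := by
    have hmeas : AEMeasurable (fun ω : (Fin n → G) × (Coord n d → ℝ) =>
        MvPolynomial.eval (data ρ 0 ω) f) (law μ n d) := by
      simp_rw [hnull]
      have h2 : AEMeasurable (fun z : Coord n d → ℝ => MvPolynomial.eval z F)
        (stdG (Coord n d)) := hint0.aestronglyMeasurable.aemeasurable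
      rw [hlaw]
      exact h2.comp_snd
    rw [variance_eq_integral hmeas, ← hm, hlaw]
    simp_rw [hnull]
    rw [integral_fun_snd (fun z => (MvPolynomial.eval z F - m) ^ 2)]
    simp
  rw [hL, hV]
  refine key.trans (mul_le_mul_of_nonneg_right ?_ (integral_nonneg fun z => by positivity))
  simp_rw [overlap_bound μ ρ lam]
  have hsq : ∀ k, ((Real.sqrt (d k) : ℝ) : ℂ) * ((Real.sqrt (d k) : ℝ) : ℂ) = d k := by
    intro k
    rw [← Complex.ofReal_mul, Real.mul_self_sqrt (Nat.cast_nonneg _)]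
    simp
  have hconjvv : ∀ (c e : VIdx d) (g : G), vv ρ c g * conj (vv ρ e g) =
      (((Real.sqrt (d c.1) : ℝ) : ℂ) * ((Real.sqrt (d e.1) : ℝ) : ℂ)) *
      ((ρ c.1 g : Matrix (Fin (d c.1)) (Fin (d c.1)) ℂ) c.2.1 c.2.2 *
        conj ((ρ e.1 g : Matrix (Fin (d e.1)) (Fin (d e.1)) ℂ) e.2.1 e.2.2)) := by
    intro c e g
    simp only [vv, map_mul, Complex.conj_ofReal]
    ring
  refine hC G μ (vv ρ) (measurable_vv ρ hcont) (norm_vv_le ρ) ?_ ?_ ?_ ?_ n D hD
  · intro c
    simp only [vv]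
    rw [integral_const_mul, schur_first μ (ρ c.1) (hcont c.1) (hconj c.1 c.1), mul_zero]
  · rintro ⟨k, a, b⟩
    simp_rw [hconjvv]
    rw [integral_const_mul, schur_same μ (ρ k) (hcont k) (hirr k), hsq]
    have : (d k : ℂ) ≠ 0 := by
      have : 0 < d k := a.pos
      exact_mod_cast this.ne'
    simp [this]
  · rintro ⟨k, a, b⟩ ⟨l, a', b'⟩ hkl
    simp_rw [hconjvv]
    rw [integral_const_mul]
    by_cases h : k = l
    · subst h
      rw [schur_same μ (ρ k) (hcont k) (hirr k)]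
      have : ¬ (a = a' ∧ b = b') := by
        rintro ⟨rfl, rfl⟩
        exact hkl rfl
      simp [this]
    · rw [schur_diff μ (ρ k) (ρ l) (hcont k) (hcont l) (hne k l h), mul_zero]
  · rintro ⟨k, a, b⟩ ⟨l, a', b'⟩
    have e : ∀ g : G, vv ρ (⟨k, a, b⟩ : VIdx d) g * vv ρ (⟨l, a', b'⟩ : VIdx d) g =
        (((Real.sqrt (d k) : ℝ) : ℂ) * ((Real.sqrt (d l) : ℝ) : ℂ)) *
        ((ρ k g : Matrix (Fin (d k)) (Fin (d k)) ℂ) a b *
          (ρ l g : Matrix (Fin (d l)) (Fin (d l)) ℂ) a' b') := by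
      intro g
      simp only [vv]
      ring
    simp_rw [e]
    rw [integral_const_mul, schur_conj μ (ρ k) (ρ l) (hcont k) (hcont l) (hconj k l), mul_zero]

/-! ### The circle group with the frequencies `1, ..., L` satisfies the hypotheses -/

/-- The one-dimensional representation `z ↦ z ^ (k + 1)` of the circle. -/
noncomputable def circleRep (L : ℕ) (k : Fin L) : Circle →* Matrix.unitaryGroup (Fin 1) ℂ where
  toFun z := ⟨Matrix.of fun _ _ => (z : ℂ) ^ ((k : ℕ) + 1), by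
    rw [Matrix.mem_unitaryGroup_iff]
    ext i j
    have h : (z : ℂ) * conj (z : ℂ) = 1 := by
      rw [Complex.mul_conj, Circle.normSq_coe]; simp
    have hi : i = 0 := Subsingleton.elim _ _
    have hj : j = 0 := Subsingleton.elim _ _
    subst hi hj
    simp only [Matrix.mul_apply, Matrix.of_apply, Matrix.star_apply, Finset.univ_unique,
      Finset.sum_singleton, Matrix.one_apply_eq]
    have h2 : star ((z : ℂ) ^ ((k : ℕ) + 1)) = (conj (z : ℂ)) ^ ((k : ℕ) + 1) := star_pow _ _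
    rw [h2, ← mul_pow, h, one_pow]⟩
  map_one' := by
    ext i j
    have hi : i = 0 := Subsingleton.elim _ _
    have hj : j = 0 := Subsingleton.elim _ _
    subst hi hj
    simp
  map_mul' x y := by
    ext i j
    have hi : i = 0 := Subsingleton.elim _ _
    have hj : j = 0 := Subsingleton.elim _ _
    subst hi hj
    simp [Matrix.mul_apply, mul_pow]

/-- The model over `SO(2)` with the frequencies `1, ..., L` is an instance of `linear_degree`. -/
theorem circleRep_admissible (L : ℕ) : Admissible (d := fun _ : Fin L => 1) (circleRep L) := by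
  have hval : ∀ (k : Fin L) (z : Circle) (i j : Fin 1),
      (circleRep L k z : Matrix (Fin 1) (Fin 1) ℂ) i j = (z : ℂ) ^ ((k : ℕ) + 1) :=
    fun k z i j => rfl
  have hexp : ∀ t : ℝ, ∀ m : ℕ, ((Circle.exp t : Circle) : ℂ) ^ m =
      Complex.exp (t * m * Complex.I) := by
    intro t m
    rw [Circle.coe_exp, ← Complex.exp_nat_mul]
    congr 1; ring
  refine ⟨?_, ?_, ?_, ?_⟩
  · intro k
    refine continuous_matrix fun i j => ?_
    simp only [hval]
    exact continuous_subtype_val.pow _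
  · intro k T _
    refine ⟨T 0 0, ?_⟩
    ext i j
    have hi : i = 0 := Subsingleton.elim _ _
    have hj : j = 0 := Subsingleton.elim _ _
    subst hi hj
    simp
  · intro k l hkl T hT
    have hkl' : (k : ℕ) ≠ l := fun h => hkl (Fin.ext h)
    ext i j
    have hi : i = 0 := Subsingleton.elim _ _
    have hj : j = 0 := Subsingleton.elim _ _
    subst hi hj
    have hdiff : ((k : ℝ) - l) ≠ 0 := by
      rw [sub_ne_zero]; exact_mod_cast hkl'
    have h := congrFun (congrFun (hT (Circle.exp (Real.pi / ((k : ℝ) - l)))) 0) 0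
    rw [Matrix.mul_apply, Matrix.mul_apply] at h
    simp only [Finset.univ_unique, Finset.sum_singleton, Fin.default_eq_zero, hval, hexp] at h
    have e : Complex.exp (((Real.pi / ((k : ℝ) - l) : ℝ) : ℂ) * (((k : ℕ) + 1 : ℕ) : ℂ) * Complex.I) =
        - Complex.exp (((Real.pi / ((k : ℝ) - l) : ℝ) : ℂ) * (((l : ℕ) + 1 : ℕ) : ℂ) * Complex.I) := by
      have hdc : ((k : ℂ) - l) ≠ 0 := by
        have := hdiff
        exact_mod_cast this
      have e1 : ((Real.pi / ((k : ℝ) - l) : ℝ) : ℂ) * (((k : ℕ) + 1 : ℕ) : ℂ) * Complex.I =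
          ((Real.pi / ((k : ℝ) - l) : ℝ) : ℂ) * (((l : ℕ) + 1 : ℕ) : ℂ) * Complex.I +
            Real.pi * Complex.I := by
        push_cast
        field_simp
        ring
      rw [e1, Complex.exp_add, Complex.exp_pi_mul_I]
      ring
    rw [e] at h
    have h3 : (2 : ℂ) * Complex.exp (((Real.pi / ((k : ℝ) - l) : ℝ) : ℂ) *
        (((l : ℕ) + 1 : ℕ) : ℂ) * Complex.I) * T 0 0 = 0 := by
      linear_combination -h
    have h4 : (2 : ℂ) * Complex.exp (((Real.pi / ((k : ℝ) - l) : ℝ) : ℂ) *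
        (((l : ℕ) + 1 : ℕ) : ℂ) * Complex.I) ≠ 0 :=
      mul_ne_zero two_ne_zero (Complex.exp_ne_zero _)
    simpa [h4] using h3
  · intro k l T hT
    ext i j
    have hi : i = 0 := Subsingleton.elim _ _
    have hj : j = 0 := Subsingleton.elim _ _
    subst hi hj
    have hsum : ((k : ℝ) + l + 2) ≠ 0 := by positivity
    have h := congrFun (congrFun (hT (Circle.exp (Real.pi / ((k : ℝ) + l + 2)))) 0) 0
    rw [Matrix.mul_apply, Matrix.mul_apply] at h
    simp only [Finset.univ_unique, Finset.sum_singleton, Fin.default_eq_zero, hval,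
      Matrix.map_apply, map_pow] at h
    rw [← Circle.coe_inv_eq_conj, ← Circle.exp_neg, hexp, hexp] at h
    have e : Complex.exp (((Real.pi / ((k : ℝ) + l + 2) : ℝ) : ℂ) * (((k : ℕ) + 1 : ℕ) : ℂ) * Complex.I) =
        - Complex.exp (((-(Real.pi / ((k : ℝ) + l + 2)) : ℝ) : ℂ) * (((l : ℕ) + 1 : ℕ) : ℂ) * Complex.I) := by
      have hdc : ((k : ℂ) + l + 2) ≠ 0 := by
        have := hsum
        exact_mod_cast this
      have e1 : ((Real.pi / ((k : ℝ) + l + 2) : ℝ) : ℂ) * (((k : ℕ) + 1 : ℕ) : ℂ) * Complex.I =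
          ((-(Real.pi / ((k : ℝ) + l + 2)) : ℝ) : ℂ) * (((l : ℕ) + 1 : ℕ) : ℂ) * Complex.I +
            Real.pi * Complex.I := by
        push_cast
        field_simp
        ring
      rw [e1, Complex.exp_add, Complex.exp_pi_mul_I]
      ring
    rw [e] at h
    have h3 : (2 : ℂ) * Complex.exp (((-(Real.pi / ((k : ℝ) + l + 2)) : ℝ) : ℂ) *
        (((l : ℕ) + 1 : ℕ) : ℂ) * Complex.I) * T 0 0 = 0 := by
      linear_combination -h
    have h4 : (2 : ℂ) * Complex.exp (((-(Real.pi / ((k : ℝ) + l + 2)) : ℝ) : ℂ) *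
        (((l : ℕ) + 1 : ℕ) : ℂ) * Complex.I) ≠ 0 :=
      mul_ne_zero two_ne_zero (Complex.exp_ne_zero _)
    simpa [h4] using h3

end Pool.Agent.Results.MP_634cec_lc.LinearDegree
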