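import Mathlib
import Pool.Agent.H28.StableCount
import Pool.Agent.H28.V8

open scoped BigOperators
open Filter

namespace Pool.Agent.H28.V8Asymp

open Pool.Agent.H28.Johnson Pool.Agent.H28.KW Pool.Agent.H28.Windows Pool.Agent.H28.StableCount
open Pool.Agent.H28.SPMatroid Pool.Agent.H28.V8

lemma ev_log (c : ℝ) : ∀ᶠ n : ℕ in atTop, c ≤ Real.log n :=
  (Real.tendsto_log_atTop.comp tendsto_natCast_atTop_atTop).eventually_ge_atTop c

lemma ev_log_sq (c : ℝ) (hc : 0 < c) : ∀ᶠ n : ℕ in atTop, c * Real.log n ^ 2 ≤ Real.sqrt n := by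
  have h1 : (fun x : ℝ => Real.log x ^ (2 : ℝ)) =o[atTop] fun x : ℝ => x ^ (1 / 2 : ℝ) :=
    isLittleO_log_rpow_rpow_atTop 2 (by norm_num)
  have h2 := (h1.def (show (0 : ℝ) < 1 / c by positivity))
  have h3 := tendsto_natCast_atTop_atTop (R := ℝ) |>.eventually h2
  filter_upwards [h3, ev_log 0] with n h hL
  rw [Real.norm_of_nonneg (Real.rpow_nonneg hL _), Real.norm_of_nonneg (Real.rpow_nonneg (Nat.cast_nonneg n) _)] at h
  rw [Real.sqrt_eq_rpow]
  have h4 : Real.log n ^ (2 : ℝ) = Real.log n ^ 2 := by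
    rw [← Real.rpow_natCast]; norm_num
  rw [h4] at h
  calc c * Real.log n ^ 2 ≤ c * (1 / c * (n : ℝ) ^ (1 / 2 : ℝ)) :=
        mul_le_mul_of_nonneg_left h hc.le
    _ = _ := by field_simp

/-- the number of `r`-sets is large -/
lemma log_choose_big : ∀ᶠ n : ℕ in atTop, ∀ r : ℕ, 10000 * Real.log n ≤ r → 13 * r ≤ n →
    101 / 20 * Real.log 2 * r + 2436 * Real.log n ^ 2 ≤ Real.log (n.choose r) := by
  filter_upwards [ev_log 20, ev_log_sq 110000 (by norm_num), eventually_ge_atTop 1] with n hL hsq hn1 r hr h13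
  set L := Real.log n with hLdef
  have hL0 : 0 < L := by linarith
  have hn0 : (0 : ℝ) < n := by exact_mod_cast hn1
  have hr0 : (0 : ℝ) < r := by linarith
  have hr1 : 1 ≤ r := by exact_mod_cast (show (0 : ℝ) < r from hr0)
  have hrn : r ≤ n := by omega
  have h13' : 13 * (r : ℝ) ≤ n := by exact_mod_cast h13
  have hln2 : Real.log 2 < 0.6931471808 := Real.log_two_lt_d9
  have hln2' : 0.6931471803 < Real.log 2 := Real.log_two_gt_d9
  by_cases hrr : (r : ℝ) ^ 2 ≤ n
  · have h1 := log_choose_lower' hr1 hrn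
    have h2 : L / 2 - Real.log 2 ≤ Real.log (((n : ℝ) + 1 - r) / r) := by
      have h3 : (n : ℝ) / (2 * r) ≤ ((n : ℝ) + 1 - r) / r := by
        rw [div_le_div_iff₀ (by positivity) hr0]
        nlinarith
      have h4 := Real.log_le_log (by positivity) h3
      rw [Real.log_div hn0.ne' (by positivity), Real.log_mul (by norm_num) hr0.ne'] at h4
      have h5 : 2 * Real.log r ≤ L := by
        have := Real.log_le_log (by positivity) hrr
        rw [Real.log_pow] at this
        push_cast at this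
        exact this
      linarith
    have h3 : r * (L / 2 - Real.log 2) ≤ Real.log (n.choose r) :=
      (mul_le_mul_of_nonneg_left h2 hr0.le).trans h1
    nlinarith
  · push Not at hrr
    have h1 := log_choose_lower h13
    have h2 : Real.log (13 * r + 1) ≤ L ^ 2 := by
      calc Real.log (13 * r + 1) ≤ Real.log (n * 2) := by
            apply Real.log_le_log (by positivity)
            have : (1 : ℝ) ≤ n := by exact_mod_cast hn1
            linarith
        _ = L + Real.log 2 := by rw [Real.log_mul hn0.ne' (by norm_num)]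
        _ ≤ L ^ 2 := by nlinarith
    have h3 : Real.sqrt n ≤ r := by
      rw [Real.sqrt_le_left hr0.le]
      exact hrr.le
    have h4 : 110000 * L ^ 2 ≤ r := hsq.trans h3
    nlinarith

/-- the main numerical estimate -/
lemma numeric : ∀ᶠ n : ℕ in atTop, ∀ r : ℕ, 10000 * Real.log n ≤ r → 13 * r ≤ n →
    4 ≤ r ∧ r + 4 ≤ n ∧ 70 + 5 * (r * (n - r)) < n.choose r ∧
    ((n ^ 2 : ℕ) : ℝ) * ((70 * (70 + 5 * (r * (n - r)) : ℕ) : ℝ) / n.choose r *
      ((stables n r).card : ℝ) ^ (((70 + 5 * (r * (n - r)) : ℕ) : ℝ) / n.choose r)) ≤ 1 / 2 := by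
  filter_upwards [ev_log 20, log_choose_big, eventually_ge_atTop 100] with n hL hbig hn1 r hr h13
  have hbig' := hbig r hr h13
  clear hbig
  set L := Real.log n with hLdef
  have hL0 : 0 < L := by linarith
  have hn100 : (100 : ℝ) ≤ n := by exact_mod_cast hn1
  have hn0 : (0 : ℝ) < n := by linarith
  have hr200 : (200000 : ℝ) ≤ r := by linarith
  have hr0 : (0 : ℝ) < r := by linarith
  have hrnat : 200000 ≤ r := by exact_mod_cast hr200
  have hrn : r ≤ n := by omega
  have hrn' : (r : ℝ) ≤ n := by exact_mod_cast hrn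
  have h13' : 13 * (r : ℝ) ≤ n := by exact_mod_cast h13
  have hln2 : Real.log 2 < 0.6931471808 := Real.log_two_lt_d9
  have hln2' : 0.6931471803 < Real.log 2 := Real.log_two_gt_d9
  set N := n.choose r with hN
  have hNpos : 0 < N := Nat.choose_pos hrn
  have hNr : (0 : ℝ) < N := by exact_mod_cast hNpos
  -- N is at least n ^ 5
  have hN5 : (n : ℝ) ^ 5 ≤ N := by
    have h1 : Real.log ((n : ℝ) ^ 5) ≤ Real.log N := by
      rw [Real.log_pow]
      push_cast
      have h2 : 0 ≤ 101 / 20 * Real.log 2 * (r : ℝ) := by positivity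
      nlinarith
    exact (Real.log_le_log_iff (by positivity) hNr).mp h1
  have hn4 : (1 : ℝ) ≤ (n : ℝ) ^ 4 := one_le_pow₀ (by linarith)
  have hn3N : 100 * (n : ℝ) ^ 4 ≤ N := by
    calc 100 * (n : ℝ) ^ 4 ≤ n * (n : ℝ) ^ 4 := mul_le_mul_of_nonneg_right hn100 (by positivity)
      _ = (n : ℝ) ^ 5 := by ring
      _ ≤ N := hN5
  have hpow : (n : ℝ) ≤ n ^ 4 := by
    calc (n : ℝ) = n ^ 1 := (pow_one _).symm
      _ ≤ n ^ 4 := pow_le_pow_right₀ (by linarith) (by norm_num)
  have hpow2 : (n : ℝ) ^ 2 ≤ n ^ 4 := pow_le_pow_right₀ (by linarith) (by norm_num)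
  set D : ℝ := n - r + 1 with hD
  have hD0 : 0 < D := by rw [hD]; linarith
  have hDn : D ≤ n := by rw [hD]; linarith
  have hst := log_stables_le (n := n) (r := r) (by omega) hrn (1 / 100) (by norm_num) (by norm_num)
    (by rw [← hLdef]; linarith)
    (by rw [← hD, ← hN]; linarith)
    (by
      rw [← hD, ← hN]
      have : (r : ℝ) * D ≤ n ^ 2 := by rw [sq]; exact mul_le_mul hrn' hDn hD0.le hn0.le
      linarith)
    (by
      rw [← hD, ← hLdef]
      have hD1 : 1 ≤ D := by rw [hD]; linarith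
      nlinarith)
  rw [← hN, ← hLdef, ← hD] at hst
  -- the window size
  set W : ℝ := ((70 + 5 * (r * (n - r)) : ℕ) : ℝ) with hW
  have hWeq : W = 70 + 5 * (r * (n - r)) := by
    rw [hW]; push_cast; rw [Nat.cast_sub hrn]
  have hW0 : 0 < W := by
    rw [hWeq]
    have : 0 ≤ (r : ℝ) * (n - r) := mul_nonneg hr0.le (by linarith)
    linarith
  have hWD : W / D ≤ 5 * r + 1 := by
    rw [div_le_iff₀ hD0, hWeq, hD]
    nlinarith
  have hWn : W ≤ 6 * n ^ 2 := by
    rw [hWeq]
    have : (r : ℝ) * (n - r) ≤ n ^ 2 := by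
      rw [sq]; exact mul_le_mul hrn' (by linarith) (by linarith) hn0.le
    nlinarith
  have hspos : 0 < (stables n r).card := by
    apply Finset.card_pos.mpr
    exact ⟨∅, mem_stables.mpr ⟨Finset.empty_subset _, fun a ha => by simp at ha⟩⟩
  have hsr : (0 : ℝ) < (stables n r).card := by exact_mod_cast hspos
  have hE : W / N * Real.log (stables n r).card ≤ 101 / 20 * Real.log 2 * r + 1 + 2424 * L ^ 2 := by
    calc W / N * Real.log (stables n r).card
        ≤ W / N * ((1 + 1 / 100) * (N / D) * (Real.log 2 + 4 * L ^ 2 / (1 / 100 * r))) :=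
          mul_le_mul_of_nonneg_left hst (by positivity)
      _ = (W / D) * ((1 + 1 / 100) * (Real.log 2 + 400 * L ^ 2 / r)) := by
          field_simp; ring
      _ ≤ (5 * r + 1) * ((1 + 1 / 100) * (Real.log 2 + 400 * L ^ 2 / r)) := by
          apply mul_le_mul_of_nonneg_right hWD
          positivity
      _ = 101 / 20 * Real.log 2 * r + 101 / 100 * Real.log 2 + 101 / 100 * ((5 * r + 1) / r) * (400 * L ^ 2) := by
          field_simp; ring
      _ ≤ 101 / 20 * Real.log 2 * r + 1 + 2424 * L ^ 2 := by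
          have h1 : (5 * (r : ℝ) + 1) / r ≤ 6 := by rw [div_le_iff₀ hr0]; linarith
          have h2 : 101 / 100 * ((5 * (r : ℝ) + 1) / r) * (400 * L ^ 2) ≤
              101 / 100 * 6 * (400 * L ^ 2) := by
            apply mul_le_mul_of_nonneg_right _ (by positivity)
            exact mul_le_mul_of_nonneg_left h1 (by norm_num)
          nlinarith
  refine ⟨by omega, by omega, ?_, ?_⟩
  · have h1 : W < N := by
      have : (6 : ℝ) * n ^ 2 ≤ 6 * n ^ 4 := by linarith
      linarith
    rw [hW] at h1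
    exact_mod_cast h1
  · have hpos : 0 < ((n ^ 2 : ℕ) : ℝ) * (70 * W / N * ((stables n r).card : ℝ) ^ (W / N)) := by
      positivity
    have hlog : Real.log (((n ^ 2 : ℕ) : ℝ) * (70 * W / N * ((stables n r).card : ℝ) ^ (W / N))) ≤ -1 := by
      rw [Real.log_mul (by positivity) (by positivity), Real.log_mul (by positivity) (by positivity),
        Real.log_rpow hsr, Real.log_div (by positivity) (by positivity),
        Real.log_mul (by positivity) (by positivity)]
      push_cast
      rw [Real.log_pow]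
      have h1 : Real.log W ≤ 2 + 2 * L := by
        calc Real.log W ≤ Real.log (6 * n ^ 2) := Real.log_le_log hW0 hWn
          _ = Real.log 6 + 2 * L := by
              rw [Real.log_mul (by norm_num) (by positivity), Real.log_pow]; push_cast; ring
          _ ≤ 2 + 2 * L := by
              have : Real.log 6 ≤ 2 := by
                rw [Real.log_le_iff_le_exp (by norm_num)]
                have h := Real.exp_one_gt_d9
                have : Real.exp 2 = Real.exp 1 * Real.exp 1 := by rw [← Real.exp_add]; norm_num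
                rw [this]
                nlinarith
              linarith
      have h2 : Real.log 70 ≤ 5 := by
        rw [Real.log_le_iff_le_exp (by norm_num)]
        have h := Real.exp_one_gt_d9
        have : Real.exp 5 = Real.exp 1 ^ 5 := by rw [← Real.exp_nat_mul]; norm_num
        rw [this]
        have h3 : (2.7 : ℝ) ^ 5 ≤ Real.exp 1 ^ 5 := pow_le_pow_left₀ (by norm_num) (by linarith) 5
        have h4 : (70 : ℝ) ≤ 2.7 ^ 5 := by norm_num
        linarith
      push_cast
      nlinarith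
    have h1 : ((n ^ 2 : ℕ) : ℝ) * (70 * W / N * ((stables n r).card : ℝ) ^ (W / N)) ≤ Real.exp (-1) := by
      rw [← Real.log_le_iff_le_exp hpos]
      exact hlog
    refine h1.trans ?_
    rw [Real.exp_neg]
    have h := Real.exp_one_gt_d9
    rw [show (1 : ℝ) / 2 = 2⁻¹ by norm_num]
    exact inv_anti₀ (by norm_num) (by linarith)

/-- labelled estimate with explicit error -/
theorem labelled : ∀ᶠ n : ℕ in atTop, ∀ r : ℕ, 10000 * Real.log n ≤ min r (n - r : ℕ) →
    13 * min r (n - r) ≤ n → 4 ≤ r ∧ r + 4 ≤ n ∧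
    (Nat.card {M : Matroid (Fin n) // SP r M ∧ ¬ HasV8 M} : ℝ) ≤
      (1 / 2) ^ (n ^ 2) * Nat.card {M : Matroid (Fin n) // SP r M} := by
  filter_upwards [numeric, ev_log 1] with n h hL r hr h13
  have fin : ∀ r : ℕ, ((n ^ 2 : ℕ) : ℝ) * ((70 * (70 + 5 * (r * (n - r)) : ℕ) : ℝ) / n.choose r *
      ((stables n r).card : ℝ) ^ (((70 + 5 * (r * (n - r)) : ℕ) : ℝ) / n.choose r)) ≤ 1 / 2 →
      ∀ T : ℝ, 0 ≤ T → (((n ^ 2 : ℕ) : ℝ) * ((70 * (70 + 5 * (r * (n - r)) : ℕ) : ℝ) / n.choose r *
      ((stables n r).card : ℝ) ^ (((70 + 5 * (r * (n - r)) : ℕ) : ℝ) / n.choose r))) ^ (n ^ 2) * T ≤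
      (1 / 2) ^ (n ^ 2) * T := by
    intro r hμ T hT
    apply mul_le_mul_of_nonneg_right _ hT
    apply pow_le_pow_left₀ _ hμ
    positivity
  have hpos : 0 < min r (n - r) := by
    have h1 : (0 : ℝ) < (min r (n - r : ℕ) : ℕ) := by linarith
    exact_mod_cast h1
  have hrn : r < n := by
    by_contra hcon
    rw [Nat.sub_eq_zero_of_le (by omega)] at hpos
    simp at hpos
  rcases le_total r (n - r) with hle | hle
  · rw [min_eq_left hle] at hr h13
    obtain ⟨h4, h4n, hW, hμ⟩ := h r hr h13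
    refine ⟨h4, h4n, ?_⟩
    exact (card_noV8_le h4 h4n _ hW le_rfl (n ^ 2)).trans (fin r hμ _ (Nat.cast_nonneg _))
  · rw [min_eq_right hle] at hr h13
    obtain ⟨h4, h4n, hW, hμ⟩ := h (n - r) hr h13
    refine ⟨by omega, by omega, ?_⟩
    have h1 := card_noV8_le_dual h4 h4n _ hW le_rfl (n ^ 2)
    have e : n - (n - r) = r := by omega
    rw [e] at h1
    have h2 := fin (n - r) hμ (Nat.card {M : Matroid (Fin n) // SP r M}) (Nat.cast_nonneg _)
    rw [e] at h2
    exact h1.trans h2

end Pool.Agent.H28.V8Asymp
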